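import Pool.Agent.ACO.Targets
import Pool.Agent.RCG.Targets6
import Pool.Agent.RCG.Fin2

set_option autoImplicit false

/-!
# ACO: final assembly (from the targets and the norm bounds of RCG)
-/

namespace Pool.Agent.ACO

open Finset
open Pool.Agent.RCG (PSL NormLe SL badCard)

/-- `s` generates a simple connected vertex-transitive Cayley graph of degree `2 d`, and the mixing
times of its lazy walk at all levels in `[η, 1 - η]` are between `lo` and `hi` -/
def Good {p d : ℕ} (s : Fin d → PSL p) (η lo hi : ℝ) : Prop :=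
  ∃ _ : Fintype (PSL p), Nice s ∧ ∀ ε : ℝ, η ≤ ε → ε ≤ 1 - η →
    lo ≤ (tm s ε : ℝ) ∧ (tm s ε : ℝ) ≤ hi

namespace Asm_

theorem normLe_mono {G : Type} [Group G] [Finite G] {d : ℕ} {s : Fin d → G} {B B' : ℝ}
    (hB : 0 ≤ B) (h : B ≤ B') (hs : NormLe s B) : NormLe s B' := by
  intro f hf
  refine (hs f hf).trans ?_
  apply mul_le_mul_of_nonneg_right
  · exact pow_le_pow_left₀ hB h 2
  · exact finsum_nonneg (fun x => sq_nonneg _)

theorem card_mono {α : Type} [Finite α] {P Q : α → Prop} (h : ∀ x, P x → Q x) :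
    (Nat.card {x // P x} : ℝ) ≤ (Nat.card {x // Q x} : ℝ) := by
  have : Nat.card {x // P x} ≤ Nat.card {x // Q x} :=
    Nat.card_le_card_of_injective (Subtype.map id h) (Subtype.map_injective _ Function.injective_id)
  exact_mod_cast this

/-- from the bound for `SL (2, p)` to the conclusion -/
theorem main (hFIN : T_FIN) (h3 : RCG.T_QUO) (h4 : RCG.T_POL) (η : ℝ) (hη : 0 < η) (hη1 : η < 1) :
    ∃ R P : ℝ, 0 < R ∧ ∀ (p d : ℕ) (A B : ℝ), p.Prime → P ≤ p → 2 ≤ d →
      R * Real.log (2 * d) ≤ Real.log p → 0 ≤ A → A ≤ B → √(2 * (d : ℝ)) ≤ B → B < 2 * d →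
      (∀ [Fact p.Prime], (badCard (SL 2 p) d A : ℝ) ≤
        (p : ℝ) ^ (-(1 : ℝ)) * (Fintype.card (SL 2 p) : ℝ) ^ d) →
      (1 - 17 * (d : ℝ) ^ 2 / p) * (Nat.card (PSL p) : ℝ) ^ d ≤
        (Nat.card {s : Fin d → PSL p // Good s η
          ((1 - η) * (2 * Real.log (Nat.card (PSL p)) / Real.log (2 * d)))
          ((1 + η) * (Real.log (Nat.card (PSL p)) / Real.log (2 * d / B)))} : ℝ) := by
  obtain ⟨R, P, hR, hF⟩ := hFIN η hη hη1
  refine ⟨R, P, hR, ?_⟩
  intro p d A B hp hP hd hRl hA hAB hB1 hB2 hbad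
  have : Fact p.Prime := ⟨hp⟩
  have hp0 : (0 : ℝ) < p := by exact_mod_cast hp.pos
  have h1 := RCG.FIN2_.toPSL h3 h4 p d A _ hA hbad
  have h2 : (Nat.card {s : Fin d → PSL p // NormLe s A} : ℝ) ≤
      (Nat.card {s : Fin d → PSL p // NormLe s B} : ℝ) :=
    card_mono fun s hs => normLe_mono hA hAB hs
  have h5 := hF p d B ((p : ℝ) ^ (-(1 : ℝ))) hp hP hd hRl hB1 hB2 (h1.trans h2)
  refine le_trans ?_ (h5.trans (card_mono fun s hs => hs.2))
  apply mul_le_mul_of_nonneg_right _ (by positivity)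
  rw [Real.rpow_neg_one]
  have hd' : (1 : ℝ) ≤ (d : ℝ) ^ 2 := by
    have : (2 : ℝ) ≤ d := by exact_mod_cast hd
    nlinarith
  have h6 : (p : ℝ)⁻¹ ≤ (d : ℝ) ^ 2 / p := by
    rw [inv_eq_one_div]
    exact div_le_div_of_nonneg_right hd' hp0.le
  have h7 : 17 * (d : ℝ) ^ 2 / p = (d : ℝ) ^ 2 / p + 16 * (d : ℝ) ^ 2 / p := by ring
  rw [h7]
  linarith

theorem c0 : √((1 : ℝ) + 5) ≤ 245 / 100 := by
  rw [Real.sqrt_le_left (by norm_num)]
  norm_num

theorem c1 : 56 * √((1 : ℝ) + 5) ≤ 138 :=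
  (mul_le_mul_of_nonneg_left c0 (by norm_num)).trans (by norm_num)

theorem c2 : 308 * √((1 : ℝ) + 5) ≤ 755 :=
  (mul_le_mul_of_nonneg_left c0 (by norm_num)).trans (by norm_num)

theorem two_le {d : ℕ} (h : 138 * √(2 * (d : ℝ) * Real.log (2 * d)) < 2 * d) : 2 ≤ d := by
  by_contra hcon
  have hd1 : d ≤ 1 := by omega
  interval_cases d
  · simp at h
  · have h2 := Real.log_two_gt_d9
    have h3 : (1 : ℝ) ≤ √(2 * ((1 : ℕ) : ℝ) * Real.log (2 * ((1 : ℕ) : ℝ))) := by
      rw [Real.one_le_sqrt]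
      push_cast
      norm_num
      linarith
    push_cast at h h3
    linarith

theorem sqrt_le {k β : ℝ} (hk : 4 ≤ k) (hβ : 1 ≤ β) : √k ≤ β * √(k * Real.log k) := by
  have h2 : 1 ≤ Real.log k := by
    rw [Real.le_log_iff_exp_le (by linarith)]
    have := Real.exp_one_lt_d9
    linarith
  have h3 : √k ≤ √(k * Real.log k) := by
    apply Real.sqrt_le_sqrt
    nlinarith
  have h4 : 0 ≤ √(k * Real.log k) := Real.sqrt_nonneg _
  nlinarith

/-- the asymptotic inequality for large degree -/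
theorem large (η : ℝ) (hη : 0 < η) (hη1 : η < 1) : ∃ K : ℕ, 2 ≤ K ∧ ∀ k : ℝ, (K : ℝ) ≤ k →
    755 * √(k * Real.log k) < k ∧
    1 / Real.log (k / (755 * √(k * Real.log k))) ≤ (1 + η / 2) * (2 / Real.log k) := by
  have hlim : Filter.Tendsto (fun x : ℝ => (Real.log x + 2 * Real.log 755) / x) Filter.atTop
      (nhds 0) := by
    have h1 : Filter.Tendsto (fun x : ℝ => Real.log x / x) Filter.atTop (nhds 0) := by
      have := Real.isLittleO_log_id_atTop.tendsto_div_nhds_zero
      simpa using this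
    have h2 : Filter.Tendsto (fun x : ℝ => 2 * Real.log 755 / x) Filter.atTop (nhds 0) :=
      Filter.Tendsto.div_atTop tendsto_const_nhds Filter.tendsto_id
    have h3 := h1.add h2
    simp only [add_zero] at h3
    refine h3.congr (fun x => by rw [← add_div])
  have hlim2 := hlim.comp Real.tendsto_log_atTop
  have hev : ∀ᶠ k : ℝ in Filter.atTop,
      ((fun x : ℝ => (Real.log x + 2 * Real.log 755) / x) ∘ Real.log) k < η / 4 :=
    hlim2.eventually (gt_mem_nhds (by positivity))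
  obtain ⟨K0, hK0⟩ := Filter.eventually_atTop.mp hev
  refine ⟨max 4 ⌈K0⌉₊, le_max_of_le_left (by norm_num), ?_⟩
  intro k hk
  have hk4 : (4 : ℝ) ≤ k := by
    have : ((4 : ℕ) : ℝ) ≤ ((max 4 ⌈K0⌉₊ : ℕ) : ℝ) := by exact_mod_cast le_max_left _ _
    push_cast at this hk
    linarith
  have hkK : K0 ≤ k := by
    have h1 : ((⌈K0⌉₊ : ℕ) : ℝ) ≤ ((max 4 ⌈K0⌉₊ : ℕ) : ℝ) := by exact_mod_cast le_max_right _ _
    have h2 := Nat.le_ceil K0
    linarith
  have h1 := hK0 k hkK
  simp only [Function.comp] at h1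
  have hlog1 : 1 ≤ Real.log k := by
    rw [Real.le_log_iff_exp_le (by linarith)]
    have := Real.exp_one_lt_d9
    linarith
  have hlog0 : 0 < Real.log k := by linarith
  rw [div_lt_iff₀ hlog0] at h1
  have hk0 : 0 < k := by linarith
  have hB0 : 0 < 755 * √(k * Real.log k) := by
    have : 0 < √(k * Real.log k) := Real.sqrt_pos.mpr (mul_pos hk0 hlog0)
    linarith
  have hlogB : Real.log (755 * √(k * Real.log k)) =
      Real.log 755 + (Real.log k + Real.log (Real.log k)) / 2 := by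
    rw [Real.log_mul (by norm_num) (by positivity), Real.log_sqrt (by positivity),
      Real.log_mul hk0.ne' hlog0.ne']
  have hlogq : Real.log (k / (755 * √(k * Real.log k))) =
      Real.log k - (Real.log 755 + (Real.log k + Real.log (Real.log k)) / 2) := by
    rw [Real.log_div hk0.ne' hB0.ne', hlogB]
  have h2 : Real.log k / 2 * (1 - η / 4) ≤ Real.log (k / (755 * √(k * Real.log k))) := by
    rw [hlogq]
    nlinarith
  have h3 : 0 < Real.log (k / (755 * √(k * Real.log k))) := by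
    refine lt_of_lt_of_le ?_ h2
    have : 0 < 1 - η / 4 := by linarith
    positivity
  refine ⟨?_, ?_⟩
  · have h4 : 1 < k / (755 * √(k * Real.log k)) := by
      by_contra hcon
      push Not at hcon
      have := Real.log_nonpos (by positivity) hcon
      linarith
    rw [lt_div_iff₀ hB0] at h4
    linarith
  · rw [div_le_iff₀ h3]
    have h5 : (1 + η / 2) * (2 / Real.log k) * (Real.log k / 2 * (1 - η / 4)) =
        (1 + η / 2) * (1 - η / 4) := by
      field_simp
    have h6 : 0 ≤ (1 + η / 2) * (2 / Real.log k) := by positivity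
    have h7 := mul_le_mul_of_nonneg_left h2 h6
    rw [h5] at h7
    nlinarith

end Asm_

/-- the final theorem -/
theorem final (hFIN : T_FIN) (h3 : RCG.T_QUO) (h4 : RCG.T_POL) (hUNI : RCG.T_UNI)
    (η : ℝ) (hη : 0 < η) (hη1 : η < 1) :
    ∃ (K P : ℕ) (R : ℝ), ∀ p d : ℕ, p.Prime → P ≤ p → R * Real.log d ≤ Real.log p →
      (755 * √(2 * (d : ℝ) * Real.log (2 * d)) < 2 * d →
        (1 - 17 * (d : ℝ) ^ 2 / p) * (Nat.card (PSL p) : ℝ) ^ d ≤
          (Nat.card {s : Fin d → PSL p // Good s η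
            ((1 - η) * (2 * Real.log (Nat.card (PSL p)) / Real.log (2 * d)))
            ((1 + η) * (Real.log (Nat.card (PSL p)) /
              Real.log (2 * d / (755 * √(2 * (d : ℝ) * Real.log (2 * d))))))} : ℝ)) ∧
      (K ≤ d → (1 - 17 * (d : ℝ) ^ 2 / p) * (Nat.card (PSL p) : ℝ) ^ d ≤
        (Nat.card {s : Fin d → PSL p // Good s η
          ((1 - η) * (2 * Real.log (Nat.card (PSL p)) / Real.log (2 * d)))
          ((1 + η) * (2 * Real.log (Nat.card (PSL p)) / Real.log (2 * d)))} : ℝ)) := by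
  obtain ⟨R, P, hR, hM⟩ := Asm_.main hFIN h3 h4 η hη hη1
  obtain ⟨R', P', hR', hM'⟩ := Asm_.main hFIN h3 h4 (η / 3) (by positivity) (by linarith)
  obtain ⟨P1, hP1⟩ := hUNI 1 one_pos
  obtain ⟨P2, hP2⟩ := exists_nat_ge (max P P')
  obtain ⟨K, hK2, hK⟩ := Asm_.large η hη hη1
  refine ⟨K, max P1 P2, 2 * max R R', ?_⟩
  intro p d hp hpP hRd
  have hp1 : P1 ≤ p := (le_max_left _ _).trans hpP
  have hp2 : max P P' ≤ (p : ℝ) := by
    have : P2 ≤ p := (le_max_right _ _).trans hpP
    exact hP2.trans (by exact_mod_cast this)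
  have hp3 : P ≤ (p : ℝ) := (le_max_left _ _).trans hp2
  have hp4 : P' ≤ (p : ℝ) := (le_max_right _ _).trans hp2
  have hp0 : (0 : ℝ) < p := by exact_mod_cast hp.pos
  have hfact : Fact p.Prime := ⟨hp⟩
  -- the assumption on the size of the degree
  have hlogs : ∀ S : ℝ, 0 ≤ S → S ≤ max R R' → 2 ≤ d → S * Real.log (2 * d) ≤ Real.log p := by
    intro S hS0 hS hd2
    have hdr : (2 : ℝ) ≤ d := by exact_mod_cast hd2
    have h1 : Real.log (2 * d) ≤ 2 * Real.log d := by
      rw [Real.log_mul (by norm_num) (by positivity)]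
      have := Real.log_le_log (by norm_num) hdr
      linarith
    have h0 : 0 ≤ Real.log (d : ℝ) := Real.log_nonneg (by linarith)
    have h2 := mul_le_mul_of_nonneg_left h1 hS0
    have h5 := mul_le_mul_of_nonneg_right hS h0
    linarith
  have hgen : ∀ (η' S Q : ℝ), 0 < S → S ≤ max R R' → Q ≤ (p : ℝ) →
      (∀ (p d : ℕ) (A B : ℝ), p.Prime → Q ≤ p → 2 ≤ d →
      S * Real.log (2 * d) ≤ Real.log p → 0 ≤ A → A ≤ B → √(2 * (d : ℝ)) ≤ B → B < 2 * d →
      (∀ [Fact p.Prime], (badCard (SL 2 p) d A : ℝ) ≤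
        (p : ℝ) ^ (-(1 : ℝ)) * (Fintype.card (SL 2 p) : ℝ) ^ d) →
      (1 - 17 * (d : ℝ) ^ 2 / p) * (Nat.card (PSL p) : ℝ) ^ d ≤
        (Nat.card {s : Fin d → PSL p // Good s η'
          ((1 - η') * (2 * Real.log (Nat.card (PSL p)) / Real.log (2 * d)))
          ((1 + η') * (Real.log (Nat.card (PSL p)) / Real.log (2 * d / B)))} : ℝ)) →
      2 ≤ d → 755 * √(2 * (d : ℝ) * Real.log (2 * d)) < 2 * d →
      (1 - 17 * (d : ℝ) ^ 2 / p) * (Nat.card (PSL p) : ℝ) ^ d ≤
        (Nat.card {s : Fin d → PSL p // Good s η'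
          ((1 - η') * (2 * Real.log (Nat.card (PSL p)) / Real.log (2 * d)))
          ((1 + η') * (Real.log (Nat.card (PSL p)) /
            Real.log (2 * d / (755 * √(2 * (d : ℝ) * Real.log (2 * d))))))} : ℝ) := by
    intro η' S Q hS0 hS hQ hH hd2 hB
    have hdr : (2 : ℝ) ≤ d := by exact_mod_cast hd2
    exact hH p d (308 * √(1 + 5) * √(2 * (d : ℝ) * Real.log (2 * (d : ℝ))))
      (755 * √(2 * (d : ℝ) * Real.log (2 * (d : ℝ)))) hp hQ hd2 (hlogs S hS0.le hS hd2)
      (by positivity) (mul_le_mul_of_nonneg_right Asm_.c2 (Real.sqrt_nonneg _))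
      (Asm_.sqrt_le (by linarith) (by norm_num)) hB (by
        intro _
        exact hP1 p hp1 d (by omega))
  constructor
  · intro hB
    have hd2 : 2 ≤ d := by
      apply Asm_.two_le
      have : 138 * √(2 * (d : ℝ) * Real.log (2 * d)) ≤
          755 * √(2 * (d : ℝ) * Real.log (2 * d)) :=
        mul_le_mul_of_nonneg_right (by norm_num) (Real.sqrt_nonneg _)
      linarith
    exact hgen η R P hR (le_max_left _ _) hp3 hM hd2 hB
  · intro hKd
    have hd2 : 2 ≤ d := hK2.trans hKd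
    have hdr : (2 : ℝ) ≤ d := by exact_mod_cast hd2
    have hKd' : (K : ℝ) ≤ 2 * d := by
      have : (K : ℝ) ≤ d := by exact_mod_cast hKd
      linarith
    obtain ⟨hB, hlg⟩ := hK (2 * d) hKd'
    have h := hgen (η / 3) R' P' hR' (le_max_right _ _) hp4 hM' hd2 hB
    refine h.trans (Asm_.card_mono ?_)
    rintro s ⟨F, hN, hs⟩
    refine ⟨F, hN, ?_⟩
    intro ε h1 h2
    obtain ⟨h5, h6⟩ := hs ε (by linarith) (by linarith)
    have hcard : 0 ≤ Real.log (Nat.card (PSL p)) := Real.log_natCast_nonneg _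
    have hlog2d : 0 < Real.log (2 * (d : ℝ)) := Real.log_pos (by linarith)
    constructor
    · refine le_trans ?_ h5
      apply mul_le_mul_of_nonneg_right _ (by positivity)
      linarith
    · refine h6.trans ?_
      have h7 : Real.log (Nat.card (PSL p)) /
          Real.log (2 * d / (755 * √(2 * (d : ℝ) * Real.log (2 * d)))) ≤
          (1 + η / 2) * (2 * Real.log (Nat.card (PSL p)) / Real.log (2 * d)) := by
        have := mul_le_mul_of_nonneg_left hlg hcard
        calc _ = Real.log (Nat.card (PSL p)) *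
            (1 / Real.log (2 * d / (755 * √(2 * (d : ℝ) * Real.log (2 * d))))) := by ring
          _ ≤ _ := this
          _ = _ := by ring
      have h8 : 0 ≤ 2 * Real.log (Nat.card (PSL p)) / Real.log (2 * d) := by positivity
      calc (1 + η / 3) * (Real.log (Nat.card (PSL p)) /
          Real.log (2 * d / (755 * √(2 * (d : ℝ) * Real.log (2 * d)))))
          ≤ (1 + η / 3) * ((1 + η / 2) *
            (2 * Real.log (Nat.card (PSL p)) / Real.log (2 * d))) :=
            mul_le_mul_of_nonneg_left h7 (by positivity)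
        _ = ((1 + η / 3) * (1 + η / 2)) *
            (2 * Real.log (Nat.card (PSL p)) / Real.log (2 * d)) := by ring
        _ ≤ _ := by
          apply mul_le_mul_of_nonneg_right _ h8
          nlinarith

end Pool.Agent.ACO
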