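import Pool.Agent.ACO.Asm
import Pool.Agent.RCG.Fin11

set_option autoImplicit false

/-!
# ACO: final assembly, fixed degree with the sharp constant and growing degree
-/

namespace Pool.Agent.ACO

open Finset
open Pool.Agent.RCG (PSL NormLe SL badCard)

/-- the two forms of the theorem; `c d √(2 d)` is the norm bound -/
theorem final2 (hFIN : T_FIN) (h3 : RCG.T_QUO) (h4 : RCG.T_POL) (hUNI : RCG.T_UNI)
    (hc : ∃ c : ℕ → ℝ, (∀ d, 2 ≤ c d) ∧
      (∀ d, c d ≤ 364) ∧ Filter.Tendsto c Filter.atTop (nhds 2) ∧ ∀ d : ℕ, 1 ≤ d → ∃ P : ℕ,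
      ∀ (p : ℕ) [Fact p.Prime], P ≤ p → (badCard (SL 2 p) d (c d * √(2 * (d : ℝ))) : ℝ) ≤
        (p : ℝ) ^ (-(1 / 4 : ℝ)) * (Fintype.card (SL 2 p) : ℝ) ^ d) :
    ∃ c : ℕ → ℝ, (∀ d, 2 ≤ c d ∧ c d ≤ 364) ∧ Filter.Tendsto c Filter.atTop (nhds 2) ∧
      ∀ η : ℝ, 0 < η → η < 1 →
      (∀ d : ℕ, c d < √(2 * (d : ℝ)) → ∃ P : ℕ, ∀ p : ℕ, p.Prime → P ≤ p →
        (1 - 2 * (p : ℝ) ^ (-(1 / 4 : ℝ))) * (Nat.card (PSL p) : ℝ) ^ d ≤
          (Nat.card {s : Fin d → PSL p // Good s η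
            ((1 - η) * (2 * Real.log (Nat.card (PSL p)) / Real.log (2 * d)))
            ((1 + η) * (2 * Real.log (Nat.card (PSL p)) / Real.log (2 * d / c d ^ 2)))} : ℝ)) ∧
      ∃ (K P : ℕ) (R : ℝ), ∀ p d : ℕ, p.Prime → P ≤ p → K ≤ d → R * Real.log d ≤ Real.log p →
        (1 - 17 * (d : ℝ) ^ 2 / p) * (Nat.card (PSL p) : ℝ) ^ d ≤
          (Nat.card {s : Fin d → PSL p // Good s η
            ((1 - η) * (2 * Real.log (Nat.card (PSL p)) / Real.log (2 * d)))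
            ((1 + η) * (2 * Real.log (Nat.card (PSL p)) / Real.log (2 * d)))} : ℝ) := by
  obtain ⟨c, hc2, hc3, hlim, hbad⟩ := hc
  refine ⟨c, fun d => ⟨hc2 d, hc3 d⟩, hlim, ?_⟩
  intro η hη hη1
  constructor
  · intro d hd
    obtain ⟨R, P, hR, hF⟩ := hFIN η hη hη1
    have hcd := hc2 d
    have hs2 : 2 < √(2 * (d : ℝ)) := lt_of_le_of_lt hcd hd
    have hs0 : 0 ≤ √(2 * (d : ℝ)) := Real.sqrt_nonneg _
    have hsq : √(2 * (d : ℝ)) * √(2 * (d : ℝ)) = 2 * d := Real.mul_self_sqrt (by positivity)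
    have hdr : (2 : ℝ) < d := by nlinarith
    have hd2 : 2 ≤ d := by
      have : (2 : ℝ) ≤ d := hdr.le
      exact_mod_cast this
    obtain ⟨P1, hP1⟩ := hbad d (by omega)
    obtain ⟨P2, hP2⟩ := exists_nat_ge (max P (Real.exp (R * Real.log (2 * d))))
    obtain ⟨P3, hP3⟩ := exists_nat_ge ((16 * (d : ℝ) ^ 2) ^ 2)
    refine ⟨max P1 (max P2 P3), ?_⟩
    intro p hp hpP
    have hfact : Fact p.Prime := ⟨hp⟩
    have hp0 : (0 : ℝ) < p := by exact_mod_cast hp.pos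
    have hp1' : (1 : ℝ) ≤ p := by exact_mod_cast hp.one_lt.le
    have hp1 : P1 ≤ p := (le_max_left _ _).trans hpP
    have hp2 : max P (Real.exp (R * Real.log (2 * d))) ≤ p := by
      have : P2 ≤ p := (le_max_left _ _).trans ((le_max_right _ _).trans hpP)
      exact hP2.trans (by exact_mod_cast this)
    have hp3 : (16 * (d : ℝ) ^ 2) ^ 2 ≤ p := by
      have : P3 ≤ p := (le_max_right _ _).trans ((le_max_right _ _).trans hpP)
      exact hP3.trans (by exact_mod_cast this)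
    have hRl : R * Real.log (2 * d) ≤ Real.log p := by
      rw [Real.le_log_iff_exp_le hp0]
      exact (le_max_right _ _).trans hp2
    have h1 := RCG.FIN2_.toPSL h3 h4 p d (c d * √(2 * (d : ℝ))) _ (by positivity) (hP1 p hp1)
    have hB1 : √(2 * (d : ℝ)) ≤ c d * √(2 * (d : ℝ)) := by nlinarith
    have hB2 : c d * √(2 * (d : ℝ)) < 2 * d := by nlinarith
    have h5 := hF p d (c d * √(2 * (d : ℝ))) _ hp ((le_max_left _ _).trans hp2) hd2 hRl hB1 hB2 h1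
    have hdiv : 2 * (d : ℝ) / (c d * √(2 * (d : ℝ))) = √(2 * (d : ℝ)) / c d := by
      have hne : c d ≠ 0 := by positivity
      have hne2 : √(2 * (d : ℝ)) ≠ 0 := by positivity
      rw [div_eq_div_iff (by positivity) hne]
      nlinarith
    have hlogq : Real.log (2 * d / (c d * √(2 * (d : ℝ)))) = Real.log (2 * d / c d ^ 2) / 2 := by
      rw [hdiv]
      have h6 : (2 * (d : ℝ)) / c d ^ 2 = (√(2 * (d : ℝ)) / c d) ^ 2 := by
        rw [div_pow, Real.sq_sqrt (by positivity)]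
      rw [h6, Real.log_pow]
      push_cast
      ring
    have hcoef : 1 - 2 * (p : ℝ) ^ (-(1 / 4 : ℝ)) ≤
        1 - (p : ℝ) ^ (-(1 / 4 : ℝ)) - 16 * (d : ℝ) ^ 2 / p := by
      have h7 : 16 * (d : ℝ) ^ 2 ≤ (p : ℝ) ^ (1 / 2 : ℝ) := by
        rw [← Real.sqrt_eq_rpow]
        exact Real.le_sqrt_of_sq_le hp3
      have h8 : (p : ℝ) ^ (1 / 2 : ℝ) / p ≤ (p : ℝ) ^ (-(1 / 4 : ℝ)) := by
        rw [← Real.rpow_sub_one hp0.ne']
        apply Real.rpow_le_rpow_of_exponent_le hp1'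
        norm_num
      have h9 : 16 * (d : ℝ) ^ 2 / p ≤ (p : ℝ) ^ (1 / 2 : ℝ) / p :=
        div_le_div_of_nonneg_right h7 hp0.le
      linarith
    refine (mul_le_mul_of_nonneg_right hcoef (by positivity)).trans (h5.trans ?_)
    apply Asm_.card_mono
    rintro s ⟨-, F, hN, hs⟩
    refine ⟨F, hN, ?_⟩
    intro ε h10 h11
    obtain ⟨h12, h13⟩ := hs ε h10 h11
    refine ⟨h12, h13.trans (le_of_eq ?_)⟩
    rw [hlogq]
    rw [div_div_eq_mul_div]
    ring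
  · obtain ⟨K, P, R, h⟩ := final hFIN h3 h4 hUNI η hη hη1
    exact ⟨K, P, R, fun p d hp hP hK hR => (h p d hp hP hR).2 hK⟩

end Pool.Agent.ACO
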