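import Pool.Agent.ACO.Targets

set_option autoImplicit false

/-!
# ACO, second part: the sharp location (targets)

THEOREM. For random Cayley graphs of `G = PSL (2, p)` of degree `k = 2 d`, whose adjacency operator
has norm at most `√(k-1) (τ + 1/τ)` on functions of sum zero (`τ ≥ 1`, `τ → 1` as `k → ∞`), the
mixing times of the lazy walk are between `(1 - η) T` and `(1 + η) T'`,
`T = (k/(k-2)) 2 log |G| / log (k-1)`, `T' = (k/(k-2)) 2 log |G| / log ((k-1)/τ²)`.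

Proof (Lubetzky and Peres for Ramanujan graphs): the walk is decomposed by the length of the reduced
word, `NB s j` is the transition matrix of the uniform reduced word of length `j`.

Every target `T_X` is to be proved as `theorem p_X : T_X` (other targets may be taken as hypotheses)
in a NEW file `Pool/Agent/ACO/P_X.lean` importing this one, namespace `Pool.Agent.ACO`, helper
lemmas in the sub-namespace `X_`. Decidability of propositions is always classical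
(`open Classical in`).
-/

namespace Pool.Agent.ACO

open Finset
open Pool.Agent.VAC (lazyP tvDist tmix)
open Pool.Agent.RCG (PSL NormLe SL)

/-- one step of the lazy walk on the length of the reduced word (degree `k`) -/
noncomputable def Lf (k : ℝ) (φ : ℕ → ℝ) : ℕ → ℝ
  | 0 => (φ 0 + φ 1) / 2
  | (j + 1) => φ (j + 1) / 2 + ((k - 1) * φ (j + 2) + φ j) / (2 * k)

/-- the expectation of `φ (length)` after `t` steps of the lazy walk, started at `0` -/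
noncomputable def ev (k : ℝ) : ℕ → (ℕ → ℝ) → ℝ
  | 0, φ => φ 0
  | (t + 1), φ => ev k t (Lf k φ)

/-- the normalised non-backtracking polynomials -/
noncomputable def nb (k m : ℝ) : ℕ → ℝ
  | 0 => 1
  | 1 => m
  | (j + 2) => (k * m * nb k m (j + 1) - nb k m j) / (k - 1)

open Classical in
/-- the transition matrices of the uniform reduced words of length `j` -/
noncomputable def NB {G : Type} [Group G] [Fintype G] {d : ℕ} (s : Fin d → G) : ℕ → Matrix G G ℝ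
  | 0 => 1
  | 1 => M s
  | (j + 2) => (1 / (2 * (d : ℝ) - 1)) • ((2 * (d : ℝ)) • (M s * NB s (j + 1)) - NB s j)

/-- the time `(k/(k-2)) 2 log N / log ((k-1)/τ²)`, `k = 2 d` -/
noncomputable def TT (d : ℕ) (N τ : ℝ) : ℝ :=
  (d : ℝ) / ((d : ℝ) - 1) * (2 * Real.log N / Real.log ((2 * (d : ℝ) - 1) / τ ^ 2))

/-- **EVL** (30 min): `ev k t` is monotone, linear, normalised, and the variance of the length is at
most `t`. All by induction on `t` (for all `φ`). Monotone: `Lf` is monotone (`k ≥ 2 ≥ 1`). Last part: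
`φ_t j = (j - c t)²`, `c = (k-2)/(2k) ∈ [0, 1/2]`; `Lf k φ_(t+1) j ≤ φ_t j + 1` for all `j`:
for `j ≥ 1` the mean of the step is `c` and its variance at most `1/2`; for `j = 0`:
`Lf k φ_(t+1) 0 = c²(t+1)² - c(t+1) + 1/2` and `c²(2t+1) - c(t+1) + 1/2 ≤ 1` as `c² ≤ c/2`. Then
`ev (t+1) φ_(t+1) = ev t (Lf φ_(t+1)) ≤ ev t φ_t + 1`. -/
def T_EVL : Prop := ∀ (k : ℝ) (t : ℕ), 2 ≤ k →
  (∀ φ ψ : ℕ → ℝ, (∀ j, φ j ≤ ψ j) → ev k t φ ≤ ev k t ψ) ∧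
  (∀ (φ ψ : ℕ → ℝ) (a b : ℝ),
    ev k t (fun j => a * φ j + b * ψ j) = a * ev k t φ + b * ev k t ψ) ∧
  (∀ c : ℝ, ev k t (fun _ => c) = c) ∧
  ev k t (fun j => ((j : ℝ) - (k - 2) / (2 * k) * t) ^ 2) ≤ t

/-- **CHE** (40 min): `y = k m/√(k-1)`, `|y| ≤ τ + 1/τ`, `q_j = √(k-1)^j nb k m j`: `q_0 = 1`,
`q_1 = ((k-1)/k) y`, `q_(j+2) = y q_(j+1) - q_j`. With `U_0 = 1`, `U_1 = y`,
`U_(j+2) = y U_(j+1) - U_j` one has `q_(j+2) = ((k-1)/k) U_(j+2) - (1/k) U_j` (induction), so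
`|U_j| ≤ (j+1) τ^j` implies `|q_j| ≤ (j+1) τ^j`. Bound of `U_j`: `y = z + 1/z` with `z ∈ ℂ`,
`|z| ≥ 1` (root of `z² - y z + 1`); if `|z| > 1` then `z` is real (otherwise the two roots are
conjugate and `|z|² = 1`), `|z| + 1/|z| = |y| ≤ τ + 1/τ`, so `|z| ≤ τ`; and
`U_j = Σ_(i ≤ j) z^(j-2i)`, each term at most `|z|^j`. (Or real: for `|y| ≤ 2` write `y = 2 cos θ` and
`|sin ((j+1)θ)| ≤ (j+1) |sin θ|`; for `|y| > 2` a real `z`.) -/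
def T_CHE : Prop := ∀ (k m τ : ℝ) (j : ℕ), 2 ≤ k → 1 ≤ τ →
  k * |m| ≤ √(k - 1) * (τ + 1 / τ) → |nb k m j| ≤ ((j : ℝ) + 1) * (τ / √(k - 1)) ^ j

open Classical in
/-- **NBN** (75 min): `NB s j` is the matrix of the uniform reduced word of length `j`. PROOF.
Letters `l = (i, e) : Fin d × Bool`, `val l = s i` or `(s i)⁻¹`, inverse letter `l'`;
`W (j+1) l x y ∈ ℕ` = number of reduced words of length `j+1` with first letter `l` leading from `x`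
to `y`: `W 1 l x y = [y = x * val l]`, `W (j+2) l x y = Σ_(m ≠ l') W (j+1) m (x * val l) y`;
`A (j+1) x y = Σ_l W (j+1) l x y`, `A 0 x y = [x = y]`. Then
`Σ_l A (j+1) (x * val l) y = Σ_l (W (j+2) l x y + W (j+1) l' (x * val l) y)` and
`Σ_l W (j+2) l' (x * val l) y = Σ_l Σ_(m ≠ l) W (j+1) m x y = (2d-1) A (j+1) x y`, while
`Σ_l W 1 l' (x * val l) y = 2d [x = y]`. So `2d M A (j+2) = A (j+3) + (2d-1) A (j+1)`,
`2d M A 1 = A 2 + 2d A 0`, and `NB s (j+1) = A (j+1) / (2d (2d-1)^j)` (induction). Row sums of `A`: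
`2d (2d-1)^j`, so `A (j+1) x` has at most `2d (2d-1)^j ≤ 2 (2d-1)^(j+1)` nonzero entries (natural
numbers). -/
def T_NBN : Prop := ∀ (G : Type) [Group G] [Fintype G] (d : ℕ) (s : Fin d → G), 1 ≤ d →
  ∀ (j : ℕ) (x : G), (∀ y, 0 ≤ NB s j x y) ∧ ∑ y, NB s j x y = 1 ∧
    (univ.filter (fun y => NB s j x y ≠ 0)).card ≤ 2 * (2 * d - 1) ^ j

open Classical in
/-- **DEC** (40 min; hypotheses T_LZ, T_EVL): decomposition of the lazy walk. PROOF.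
`LP s = (1/2)(1 + M s)` (T_LZ for `t = 1`). `M * NB 0 = NB 1`,
`M * NB (j+1) = (1/k) NB j + ((k-1)/k) NB (j+2)`, so
`Lf (2d) (fun j => NB s j x y) = fun j => (LP s * NB s j) x y = fun j => Σ_z LP s x z * NB s j z y`.
Induction on `t` for all `x, y`, `ev` is linear (finite sums). -/
def T_DEC : Prop := ∀ (G : Type) [Group G] [Fintype G] (d : ℕ) (s : Fin d → G), 1 ≤ d → Simp s →
  ∀ (t : ℕ) (x y : G), (LP s ^ t) x y = ev (2 * d) t (fun j => NB s j x y)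

open Classical in
/-- **SPN** (75 min; hypotheses T_CHE, T_MP): PROOF. `M s` is symmetric with row sums `1`, so the
functions of sum zero are an invariant subspace; an orthonormal basis `b_i` of it consists of
eigenvectors (`LinearMap.IsSymmetric.eigenvectorBasis` of the restriction), `M b_i = m_i b_i`,
`|m_i| ≤ ρ` by `Nrm`. `NB s j b_i = nb (2d) m_i j • b_i` (induction). `g = δ_x - 1/|G|`, sum zero,
`‖g‖² ≤ 1`, `(NB s j g) y = NB s j y x - 1/|G| = NB s j x y - 1/|G|` (row sums `1`, symmetric: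
polynomials in `M`). `‖NB s j g‖² = Σ nb² ⟪b_i, g⟫² ≤ ((j+1) r^j)²`. Cauchy-Schwarz. -/
def T_SPN : Prop := ∀ (G : Type) [Group G] [Fintype G] (d : ℕ) (s : Fin d → G) (ρ τ : ℝ), 1 ≤ d →
  0 ≤ ρ → Nrm s ρ → 1 ≤ τ → 2 * (d : ℝ) * ρ ≤ √(2 * (d : ℝ) - 1) * (τ + 1 / τ) →
  ∀ (j : ℕ) (x : G), ∑ y, |NB s j x y - 1 / (Fintype.card G : ℝ)| ≤
    √(Fintype.card G) * (((j : ℝ) + 1) * (τ / √(2 * (d : ℝ) - 1)) ^ j)

/-- **UPN** (45 min; hypotheses T_EVL, T_DEC, T_SPN, T_NBN): upper bound. PROOF. `c = (k-2)/(2k)`,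
`r = τ/√(k-1)`. By T_DEC and T_EVL `LP^t x y - 1/|G| = ev (j ↦ NB j x y - 1/|G|)`, so
`Σ_y |..| ≤ ev (j ↦ Σ_y |NB j x y - 1/|G||)`. For every `j` the inner sum is at most
`2 (j - c t)²/a² + √|G| (j0+1) r^j0`: for `j < j0` the first term is `≥ 2` and the sum `≤ 2` (T_NBN);
for `j ≥ j0` use T_SPN and `(j+1) r^j ≤ (j0+1) r^j0` (the hypothesis gives `r (j+2) ≤ j+1` for all
`j ≥ j0`, since `r ≤ 1`). -/
def T_UPN : Prop := ∀ (G : Type) [Group G] [Fintype G] (d : ℕ) (s : Fin d → G) (ρ τ : ℝ), 1 ≤ d →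
  Simp s → 0 ≤ ρ → Nrm s ρ → 1 ≤ τ → 2 * (d : ℝ) * ρ ≤ √(2 * (d : ℝ) - 1) * (τ + 1 / τ) →
  ∀ (t j0 : ℕ) (a : ℝ) (x : G), 0 < a →
    (j0 : ℝ) + a ≤ (2 * (d : ℝ) - 2) / (2 * (2 * (d : ℝ))) * t →
    τ / √(2 * (d : ℝ) - 1) * ((j0 : ℝ) + 2) ≤ (j0 : ℝ) + 1 →
    tv s t x ≤ t / a ^ 2 +
      √(Fintype.card G) * (((j0 : ℝ) + 1) * (τ / √(2 * (d : ℝ) - 1)) ^ j0) / 2

/-- **LON** (45 min; hypotheses T_EVL, T_DEC, T_NBN): lower bound. PROOF. `S` = the set of the `y`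
with `NB j x y ≠ 0` for some `j ≤ j1`, `|S| ≤ Σ_(j ≤ j1) 2 (2d-1)^j ≤ 3 (2d-1)^j1` (`2d-1 ≥ 3`).
`Σ_(y ∈ S) LP^t x y = ev (j ↦ Σ_(y ∈ S) NB j x y) ≥ ev (j ↦ 1 - (j - c t)²/a²) ≥ 1 - t/a²`
(for `j > j1` one has `j - c t ≥ a`), and `tv ≥ LP^t x (S) - |S|/|G|`. -/
def T_LON : Prop := ∀ (G : Type) [Group G] [Fintype G] (d : ℕ) (s : Fin d → G), 2 ≤ d →
  Simp s → ∀ (t j1 : ℕ) (a : ℝ) (x : G), 0 < a →
    (2 * (d : ℝ) - 2) / (2 * (2 * (d : ℝ))) * t + a ≤ j1 →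
    1 - t / a ^ 2 - 3 * (2 * (d : ℝ) - 1) ^ j1 / Fintype.card G ≤ tv s t x

/-- **TMN** (90 min; hypotheses T_UPN, T_LON, T_MON; compare with P_TM.lean). PROOF. `L = log |G|`,
`k = 2d`, `c = (k-2)/(2k) ∈ [1/4, 1/2]`, `Λ = log ((k-1)/τ²) ≥ l0`, `r = τ/√(k-1) = exp (-Λ/2)`,
`T' = TT d |G| τ = L/(c Λ)`. UPPER: `t = ⌈(1+η/2) T'⌉₊`, `j0 = ⌊(1+η/4) L/Λ⌋₊`, `a = (η/4) L/Λ`:
`j0 + a ≤ c t`; `t/a² ≤ (6 L/Λ + 1) 16 Λ²/(η² L²) ≤ 112/(η² R)` as `L/Λ ≥ L/log k ≥ R ≥ 1`;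
`√|G| r^j0 ≤ exp (-η L/8 + Λ/2)` with `Λ ≤ log k ≤ L/R`, `j0 + 1 ≤ 2 L/l0 + 1`: for `R ≥ 8/η` the
product is `≤ (2 L/l0 + 1) exp (-η L/16)`, small since `L ≥ R log 2`. `r (j0+2) ≤ j0+1`:
`r ≤ exp (-l0/2) < 1` and `j0 ≥ R - 1` is large. `t ≤ (1+η/2) T' + 1 ≤ (1+η) T'` (`T' ≥ 2R`).
So `tv s t x ≤ η ≤ ε`. LOWER: `T = TT d |G| 1 = L/(c log (k-1))`, `t = ⌊(1-η/2) T⌋₊`,
`j1 = ⌈(1-η/4) L/log (k-1)⌉₊`, `a = (η/4) L/log (k-1)`, `t/a² ≤ 64/(η² R)`,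
`3 (k-1)^j1/|G| ≤ 3 exp (L/R - η L/4)`; so `tv s t x > 1 - η ≥ ε`, and T_MON, and the set in the
definition of `tm` is nonempty. -/
def T_TMN : Prop := ∀ η l0 : ℝ, 0 < η → η < 1 → 0 < l0 → ∃ R : ℝ, ∀ (G : Type) [Group G]
  [Fintype G] (d : ℕ) (s : Fin d → G) (ρ τ : ℝ), 2 ≤ d → Simp s → 0 ≤ ρ → Nrm s ρ → 1 ≤ τ →
  l0 ≤ Real.log ((2 * (d : ℝ) - 1) / τ ^ 2) →
  2 * (d : ℝ) * ρ ≤ √(2 * (d : ℝ) - 1) * (τ + 1 / τ) →
  R ≤ Real.log (Fintype.card G) / Real.log (2 * d) → ∀ ε : ℝ, η ≤ ε → ε ≤ 1 - η →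
    (1 - η) * TT d (Fintype.card G) 1 ≤ (tm s ε : ℝ) ∧
    (tm s ε : ℝ) ≤ (1 + η) * TT d (Fintype.card G) τ

open Classical in
/-- **GAP** (20 min; hypothesis T_LZ): `LP s = (1/2)(1 + M s)` (T_LZ for `t = 1`),
`⟨f, f - LP f⟩ = (1/2)(‖f‖² - ⟨f, M f⟩) ≥ (1/2)(1 - ρ) ‖f‖²` by Cauchy-Schwarz. -/
def T_GAP : Prop := ∀ (G : Type) [Group G] [Fintype G] (d : ℕ) (s : Fin d → G) (ρ : ℝ), 1 ≤ d →
  Simp s → 0 ≤ ρ → Nrm s ρ → Pool.Agent.VAC.HasGap (LP s) ((1 - ρ) / 2)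

/-- **FNN** (30 min; hypotheses T_TMN, T_GAP, T_CNT, T_INV, T_NL, T_CON, T_LZ): copy P_FIN.lean.
`B = √(2d-1) (τ + 1/τ)`, `ρ = B/(2d) < 1` since `τ < √(2d-1)` (`l0 > 0`). -/
def T_FNN : Prop := ∀ η l0 : ℝ, 0 < η → η < 1 → 0 < l0 → ∃ R P : ℝ, 0 < R ∧
  ∀ (p d : ℕ) (b τ : ℝ), p.Prime → P ≤ p → 2 ≤ d → R * Real.log (2 * d) ≤ Real.log p → 1 ≤ τ →
  l0 ≤ Real.log ((2 * (d : ℝ) - 1) / τ ^ 2) →
  (1 - b) * (Nat.card (PSL p) : ℝ) ^ d ≤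
    (Nat.card {s : Fin d → PSL p // NormLe s (√(2 * (d : ℝ) - 1) * (τ + 1 / τ))} : ℝ) →
    (1 - b - 16 * (d : ℝ) ^ 2 / p) * (Nat.card (PSL p) : ℝ) ^ d ≤
      (Nat.card {s : Fin d → PSL p // NormLe s (√(2 * (d : ℝ) - 1) * (τ + 1 / τ)) ∧
        ∃ _ : Fintype (PSL p), Nice s ∧
        Pool.Agent.VAC.HasGap (LP s)
          ((1 - √(2 * (d : ℝ) - 1) * (τ + 1 / τ) / (2 * d)) / 2) ∧
        ∀ ε : ℝ, η ≤ ε → ε ≤ 1 - η →
          (1 - η) * TT d (Nat.card (PSL p)) 1 ≤ (tm s ε : ℝ) ∧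
          (tm s ε : ℝ) ≤ (1 + η) * TT d (Nat.card (PSL p)) τ} : ℝ)

end Pool.Agent.ACO
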