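import Pool.Agent.ACO.Asm2
import Pool.Agent.ACO.TargetsN

set_option autoImplicit false

/-!
# ACO, second part: final assembly (sharp location, all degrees)
-/

namespace Pool.Agent.ACO

open Finset
open Pool.Agent.RCG (PSL NormLe SL badCard)
open Pool.Agent.VAC (HasGap)

/-- `s` generates a simple connected vertex-transitive Cayley graph of degree `2 d` with spectral
gap at least `γ`, and the mixing times of its lazy walk at all levels in `[η, 1 - η]` are between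
`lo` and `hi` -/
def Good3 {p d : ℕ} (s : Fin d → PSL p) (η γ lo hi : ℝ) : Prop :=
  ∃ _ : Fintype (PSL p), Nice s ∧ HasGap (LP s) γ ∧ ∀ ε : ℝ, η ≤ ε → ε ≤ 1 - η →
    lo ≤ (tm s ε : ℝ) ∧ (tm s ε : ℝ) ≤ hi

/-- the larger solution of `τ + 1/τ = y` -/
noncomputable def rt (y : ℝ) : ℝ := (y + √(y ^ 2 - 4)) / 2

/-- `τ d`: `√(k-1) (τ + 1/τ) = b`, `k = 2 d` -/
noncomputable def tau (b : ℕ → ℝ) (d : ℕ) : ℝ := rt (b d / √(2 * (d : ℝ) - 1))

namespace Asm3_

theorem rt_one_le {y : ℝ} (hy : 2 ≤ y) : 1 ≤ rt y := by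
  unfold rt
  have := Real.sqrt_nonneg (y ^ 2 - 4)
  linarith

theorem rt_le {y : ℝ} (hy : 2 ≤ y) : rt y ≤ y := by
  unfold rt
  have : √(y ^ 2 - 4) ≤ y := by
    rw [Real.sqrt_le_left (by linarith)]
    linarith
  linarith

theorem rt_eq {y : ℝ} (hy : 2 ≤ y) : rt y + 1 / rt y = y := by
  have h1 := rt_one_le hy
  have h2 : √(y ^ 2 - 4) ^ 2 = y ^ 2 - 4 := Real.sq_sqrt (by nlinarith)
  have h3 : rt y ^ 2 + 1 = y * rt y := by
    unfold rt
    nlinarith
  have h4 : rt y ≠ 0 := by linarith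
  field_simp
  exact h3.trans (mul_comm _ _)

theorem one_le_ratio {d : ℕ} (hd : 2 ≤ d) : 1 ≤ √(2 * (d : ℝ)) / √(2 * (d : ℝ) - 1) := by
  have hdr : (2 : ℝ) ≤ d := by exact_mod_cast hd
  rw [one_le_div (Real.sqrt_pos.2 (by linarith))]
  exact Real.sqrt_le_sqrt (by linarith)

theorem ratio_le {d : ℕ} (hd : 2 ≤ d) : √(2 * (d : ℝ)) / √(2 * (d : ℝ) - 1) ≤ 1155 / 1000 := by
  have hdr : (2 : ℝ) ≤ d := by exact_mod_cast hd
  rw [← Real.sqrt_div (by linarith), Real.sqrt_le_left (by norm_num),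
    div_le_iff₀ (by linarith)]
  nlinarith

theorem y_ge {b : ℕ → ℝ} {d : ℕ} (hb : 2 * √(2 * (d : ℝ) - 1) ≤ b d) (hd : 2 ≤ d) :
    2 ≤ b d / √(2 * (d : ℝ) - 1) := by
  have hdr : (2 : ℝ) ≤ d := by exact_mod_cast hd
  rw [le_div_iff₀ (Real.sqrt_pos.2 (by linarith))]
  exact hb

theorem tau_one {b : ℕ → ℝ} {d : ℕ} (hb : 2 * √(2 * (d : ℝ) - 1) ≤ b d) (hd : 2 ≤ d) :
    1 ≤ tau b d :=
  rt_one_le (y_ge hb hd)

theorem tau_le {b : ℕ → ℝ} {d : ℕ} (hb : 2 * √(2 * (d : ℝ) - 1) ≤ b d)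
    (hb' : b d ≤ 364 * √(2 * (d : ℝ))) (hd : 2 ≤ d) : tau b d ≤ 421 := by
  have hdr : (2 : ℝ) ≤ d := by exact_mod_cast hd
  refine (rt_le (y_ge hb hd)).trans ?_
  have h0 : 0 < √(2 * (d : ℝ) - 1) := Real.sqrt_pos.2 (by linarith)
  have h2 := ratio_le hd
  have h3 : b d / √(2 * (d : ℝ) - 1) ≤ 364 * (√(2 * (d : ℝ)) / √(2 * (d : ℝ) - 1)) := by
    rw [← mul_div_assoc]
    exact div_le_div_of_nonneg_right hb' h0.le
  linarith

theorem tau_eq {b : ℕ → ℝ} {d : ℕ} (hb : 2 * √(2 * (d : ℝ) - 1) ≤ b d) (hd : 2 ≤ d) :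
    √(2 * (d : ℝ) - 1) * (tau b d + 1 / tau b d) = b d := by
  have hdr : (2 : ℝ) ≤ d := by exact_mod_cast hd
  unfold tau
  rw [rt_eq (y_ge hb hd)]
  have : √(2 * (d : ℝ) - 1) ≠ 0 := (Real.sqrt_pos.2 (by linarith)).ne'
  field_simp

/-- the rate -/
theorem tau_rate {b : ℕ → ℝ} {C : ℝ} (hC : 0 ≤ C) {d : ℕ} (hd : 2 ≤ d)
    (hb : 2 * √(2 * (d : ℝ) - 1) ≤ b d)
    (hb' : b d ≤ 2 * √(2 * (d : ℝ) - 1) + C * (2 * (d : ℝ)) ^ (3 / 7 : ℝ)) :
    tau b d ≤ 1 + (2 * C + √(2 * C)) * (2 * (d : ℝ)) ^ (-(1 / 28 : ℝ)) := by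
  have hdr : (2 : ℝ) ≤ d := by exact_mod_cast hd
  have hk0 : (0 : ℝ) < 2 * d := by linarith
  have h0 : 0 < √(2 * (d : ℝ) - 1) := Real.sqrt_pos.2 (by linarith)
  set x : ℝ := (2 * (d : ℝ)) ^ (-(1 / 28 : ℝ)) with hx
  have hx0 : 0 < x := Real.rpow_pos_of_pos hk0 _
  have hx1 : x ≤ 1 := Real.rpow_le_one_of_one_le_of_nonpos (by linarith) (by norm_num)
  have hx2 : (2 * (d : ℝ)) ^ (3 / 7 : ℝ) = x ^ 2 * √(2 * (d : ℝ)) := by
    rw [hx, ← Real.rpow_natCast, ← Real.rpow_mul hk0.le, Real.sqrt_eq_rpow,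
      ← Real.rpow_add hk0]
    norm_num
  set u : ℝ := b d / √(2 * (d : ℝ) - 1) - 2 with hu
  have hu0 : 0 ≤ u := by
    have := y_ge hb hd
    rw [hu]
    linarith
  have hu1 : u ≤ 2 * C * x ^ 2 := by
    have h2 := ratio_le hd
    have h3 : b d / √(2 * (d : ℝ) - 1) ≤
        2 + C * x ^ 2 * (√(2 * (d : ℝ)) / √(2 * (d : ℝ) - 1)) := by
      rw [div_le_iff₀ h0]
      calc b d ≤ 2 * √(2 * (d : ℝ) - 1) + C * (x ^ 2 * √(2 * (d : ℝ))) := by
            rw [← hx2]; exact hb'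
        _ = (2 + C * x ^ 2 * (√(2 * (d : ℝ)) / √(2 * (d : ℝ) - 1))) *
            √(2 * (d : ℝ) - 1) := by
          field_simp
    have h4 : C * x ^ 2 * (√(2 * (d : ℝ)) / √(2 * (d : ℝ) - 1)) ≤ C * x ^ 2 * 2 := by
      apply mul_le_mul_of_nonneg_left (by linarith) (by positivity)
    rw [hu]
    linarith
  have hy : b d / √(2 * (d : ℝ) - 1) = u + 2 := by
    rw [hu]
    ring
  have h5 : tau b d ≤ 1 + u + √u := by
    unfold tau rt
    rw [hy]
    have h6 : √((u + 2) ^ 2 - 4) ≤ u + 2 * √u := by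
      have h7 := Real.sqrt_nonneg u
      have h8 := Real.sq_sqrt hu0
      rw [Real.sqrt_le_left (by linarith)]
      nlinarith [mul_nonneg hu0 h7]
    linarith
  have h6 : √u ≤ √(2 * C) * x := by
    rw [Real.sqrt_le_left (by positivity), mul_pow, Real.sq_sqrt (by linarith)]
    exact hu1
  have h7 : 2 * C * x ^ 2 ≤ 2 * C * x := by
    apply mul_le_mul_of_nonneg_left _ (by linarith)
    nlinarith
  linarith

theorem gap_mono {G : Type} [Fintype G] {P : Matrix G G ℝ} {γ γ' : ℝ} (h : γ ≤ γ')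
    (hP : HasGap P γ') : HasGap P γ := by
  intro f hf
  refine le_trans ?_ (hP f hf)
  exact mul_le_mul_of_nonneg_right h (Finset.sum_nonneg fun x _ => sq_nonneg _)

theorem TT_mono {d : ℕ} {N τ τ' : ℝ} (hd : 2 ≤ d) (hN : 1 ≤ N) (h1 : 0 < τ) (h : τ ≤ τ')
    (h' : 0 < Real.log ((2 * (d : ℝ) - 1) / τ' ^ 2)) : TT d N τ ≤ TT d N τ' := by
  have hdr : (2 : ℝ) ≤ d := by exact_mod_cast hd
  unfold TT
  apply mul_le_mul_of_nonneg_left _ (div_nonneg (by linarith) (by linarith))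
  apply div_le_div_of_nonneg_left _ h'
  · apply Real.log_le_log
    · exact div_pos (by linarith) (pow_pos (by linarith) 2)
    · apply div_le_div_of_nonneg_left (by linarith) (by positivity)
      exact pow_le_pow_left₀ h1.le h 2
  · have := Real.log_nonneg hN
    linarith

theorem TT_nonneg {d : ℕ} {N τ : ℝ} (hd : 2 ≤ d) (hN : 1 ≤ N)
    (h' : 0 ≤ Real.log ((2 * (d : ℝ) - 1) / τ ^ 2)) : 0 ≤ TT d N τ := by
  have hdr : (2 : ℝ) ≤ d := by exact_mod_cast hd
  unfold TT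
  have := Real.log_nonneg hN
  apply mul_nonneg (div_nonneg (by linarith) (by linarith))
  exact div_nonneg (by linarith) h'

/-- finitely many positive values have a positive lower bound -/
theorem exists_lower (f : ℕ → ℝ) (K : ℕ) : ∃ l : ℝ, 0 < l ∧ ∀ d, d < K → 0 < f d → l ≤ f d := by
  induction K with
  | zero => exact ⟨1, one_pos, fun d hd => absurd hd (Nat.not_lt_zero d)⟩
  | succ K ih =>
    obtain ⟨l, hl, h⟩ := ih
    by_cases hK : 0 < f K
    · refine ⟨min l (f K), lt_min hl hK, ?_⟩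
      intro d hd hd'
      rcases Nat.lt_succ_iff_lt_or_eq.1 hd with h1 | rfl
      · exact (min_le_left _ _).trans (h d h1 hd')
      · exact min_le_right _ _
    · refine ⟨l, hl, ?_⟩
      intro d hd hd'
      rcases Nat.lt_succ_iff_lt_or_eq.1 hd with h1 | rfl
      · exact h d h1 hd'
      · exact absurd hd' hK

/-- finitely many thresholds have a common upper bound -/
theorem exists_upper (Q : ℕ → ℕ → Prop) (K : ℕ) (h : ∀ d, ∃ P, ∀ p, P ≤ p → Q d p) :
    ∃ P : ℕ, ∀ d, d < K → ∀ p, P ≤ p → Q d p := by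
  induction K with
  | zero => exact ⟨0, fun d hd => absurd hd (Nat.not_lt_zero d)⟩
  | succ K ih =>
    obtain ⟨P, hP⟩ := ih
    obtain ⟨P', hP'⟩ := h K
    refine ⟨max P P', ?_⟩
    intro d hd p hp
    rcases Nat.lt_succ_iff_lt_or_eq.1 hd with h1 | rfl
    · exact hP d h1 p ((le_max_left _ _).trans hp)
    · exact hP' p ((le_max_right _ _).trans hp)

/-- the absolute spectral gap -/
theorem exists_gap (b : ℕ → ℝ) (hb : ∀ d : ℕ, 2 ≤ d → b d ≤ 364 * √(2 * (d : ℝ))) :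
    ∃ γ : ℝ, 0 < γ ∧ γ ≤ 1 / 4 ∧ ∀ d : ℕ, 2 ≤ d → b d < 2 * d →
      γ ≤ (1 - b d / (2 * d)) / 2 := by
  obtain ⟨l, hl, h⟩ := exists_lower (fun d => (1 - b d / (2 * d)) / 2) 264992
  refine ⟨min l (1 / 4), lt_min hl (by norm_num), min_le_right _ _, ?_⟩
  intro d hd hbd
  have hdr : (2 : ℝ) ≤ d := by exact_mod_cast hd
  have hsq : √(2 * (d : ℝ)) * √(2 * (d : ℝ)) = 2 * d := Real.mul_self_sqrt (by linarith)
  rcases Nat.lt_or_ge d 264992 with h1 | h1
  · refine (min_le_left _ _).trans (h d h1 ?_)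
    have : b d / (2 * d) < 1 := by
      rw [div_lt_one (by linarith)]
      exact hbd
    linarith
  · refine (min_le_right _ _).trans ?_
    have h2 : (264992 : ℝ) ≤ d := by exact_mod_cast h1
    have h3 : 728 ≤ √(2 * (d : ℝ)) := by
      apply Real.le_sqrt_of_sq_le
      linarith
    have : b d / (2 * d) ≤ 1 / 2 := by
      rw [div_le_iff₀ (by linarith)]
      have h4 := hb d hd
      nlinarith
    linarith

/-- the asymptotic inequalities for large degree -/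
theorem large (η : ℝ) (hη : 0 < η) (hη1 : η < 1) : ∃ K : ℕ, 2 ≤ K ∧ ∀ k : ℝ, (K : ℝ) ≤ k →
    √(k - 1) ≤ 755 * √(k * Real.log k) ∧
    755 * √(k * Real.log k) + √k ≤ k / 2 ∧
    1 ≤ 2 * Real.log ((k - 1) / (755 * √(k * Real.log k))) ∧
    Real.log (k - 1) ≤
      (1 + η / 2) * (2 * Real.log ((k - 1) / (755 * √(k * Real.log k)))) := by
  have hlim : Filter.Tendsto (fun x : ℝ => (Real.log x + 2 * (Real.log 755 + Real.log 2)) / x)
      Filter.atTop (nhds 0) := by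
    have h1 : Filter.Tendsto (fun x : ℝ => Real.log x / x) Filter.atTop (nhds 0) := by
      have := Real.isLittleO_log_id_atTop.tendsto_div_nhds_zero
      simpa using this
    have h2 : Filter.Tendsto (fun x : ℝ => 2 * (Real.log 755 + Real.log 2) / x) Filter.atTop
        (nhds 0) := Filter.Tendsto.div_atTop tendsto_const_nhds Filter.tendsto_id
    have h3 := h1.add h2
    simp only [add_zero] at h3
    refine h3.congr (fun x => by rw [← add_div])
  have hlim2 := hlim.comp Real.tendsto_log_atTop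
  have hev : ∀ᶠ k : ℝ in Filter.atTop,
      ((fun x : ℝ => (Real.log x + 2 * (Real.log 755 + Real.log 2)) / x) ∘ Real.log) k < η / 4 :=
    hlim2.eventually (gt_mem_nhds (by positivity))
  obtain ⟨K0, hK0⟩ := Filter.eventually_atTop.mp hev
  refine ⟨max 256 ⌈K0⌉₊, le_max_of_le_left (by norm_num), ?_⟩
  intro k hk
  have hk4 : (256 : ℝ) ≤ k := by
    have : ((256 : ℕ) : ℝ) ≤ ((max 256 ⌈K0⌉₊ : ℕ) : ℝ) := by exact_mod_cast le_max_left _ _
    push_cast at this hk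
    linarith
  have hkK : K0 ≤ k := by
    have h1 : ((⌈K0⌉₊ : ℕ) : ℝ) ≤ ((max 256 ⌈K0⌉₊ : ℕ) : ℝ) := by
      exact_mod_cast le_max_right _ _
    have h2 := Nat.le_ceil K0
    linarith
  have h1 := hK0 k hkK
  simp only [Function.comp] at h1
  have hlog2 : 5 ≤ Real.log k := by
    have h2 : Real.log 256 ≤ Real.log k := Real.log_le_log (by norm_num) hk4
    have h3 : Real.log 256 = 8 * Real.log 2 := by
      rw [show (256 : ℝ) = 2 ^ 8 by norm_num, Real.log_pow]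
      norm_num
    have h4 := Real.log_two_gt_d9
    linarith
  have hlog0 : 0 < Real.log k := by linarith
  rw [div_lt_iff₀ hlog0] at h1
  have hk0 : 0 < k := by linarith
  have hB0 : 0 < 755 * √(k * Real.log k) := by
    have : 0 < √(k * Real.log k) := Real.sqrt_pos.mpr (mul_pos hk0 hlog0)
    linarith
  have hlogB : Real.log (755 * √(k * Real.log k)) =
      Real.log 755 + (Real.log k + Real.log (Real.log k)) / 2 := by
    rw [Real.log_mul (by norm_num) (by positivity), Real.log_sqrt (by positivity),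
      Real.log_mul hk0.ne' hlog0.ne']
  have hk1 : Real.log k - Real.log 2 ≤ Real.log (k - 1) := by
    rw [← Real.log_div hk0.ne' (by norm_num)]
    exact Real.log_le_log (by linarith) (by linarith)
  have hk2 : Real.log (k - 1) ≤ Real.log k := Real.log_le_log (by linarith) (by linarith)
  have hlogq : Real.log ((k - 1) / (755 * √(k * Real.log k))) =
      Real.log (k - 1) - (Real.log 755 + (Real.log k + Real.log (Real.log k)) / 2) := by
    rw [Real.log_div (by linarith) hB0.ne', hlogB]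
  have h2 : Real.log k * (1 - η / 4) ≤ 2 * Real.log ((k - 1) / (755 * √(k * Real.log k))) := by
    rw [hlogq]
    nlinarith
  have h34 : Real.log k * (3 / 4) ≤ Real.log k * (1 - η / 4) :=
    mul_le_mul_of_nonneg_left (by linarith) hlog0.le
  refine ⟨?_, ?_, ?_, ?_⟩
  · exact (Real.sqrt_le_sqrt (by linarith)).trans (Asm_.sqrt_le (by linarith) (by norm_num))
  · -- B ≤ k / 4
    have h3 : Real.log 4 ≤ Real.log ((k - 1) / (755 * √(k * Real.log k))) := by
      have h4 : Real.log 4 = 2 * Real.log 2 := by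
        rw [show (4 : ℝ) = 2 ^ 2 by norm_num, Real.log_pow]
        norm_num
      have h5 := Real.log_two_lt_d9
      linarith
    have h4 : 4 ≤ (k - 1) / (755 * √(k * Real.log k)) := by
      have h5 : 0 < (k - 1) / (755 * √(k * Real.log k)) := div_pos (by linarith) hB0
      exact (Real.log_le_log_iff (by norm_num) h5).1 h3
    rw [le_div_iff₀ hB0] at h4
    have h5 : √k ≤ k / 16 := by
      rw [Real.sqrt_le_left (by positivity)]
      nlinarith
    linarith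
  · linarith
  · have h5 : Real.log k ≤ (1 + η / 2) * (Real.log k * (1 - η / 4)) := by
      have : 0 ≤ Real.log k * (η / 4 - η ^ 2 / 8) := by
        apply mul_nonneg hlog0.le
        nlinarith
      nlinarith
    have h6 := mul_le_mul_of_nonneg_left h2 (by linarith : 0 ≤ 1 + η / 2)
    linarith

/-- from the bound for `SL (2, p)` to the conclusion -/
theorem main (hFNN : T_FNN) (h3 : RCG.T_QUO) (h4 : RCG.T_POL) (η l0 : ℝ) (hη : 0 < η)
    (hη1 : η < 1) (hl0 : 0 < l0) :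
    ∃ R P : ℝ, 0 < R ∧ ∀ (p d : ℕ) (A b τ : ℝ), p.Prime → P ≤ p → 2 ≤ d →
      R * Real.log (2 * d) ≤ Real.log p → 1 ≤ τ →
      l0 ≤ Real.log ((2 * (d : ℝ) - 1) / τ ^ 2) → 0 ≤ A →
      A ≤ √(2 * (d : ℝ) - 1) * (τ + 1 / τ) →
      (∀ [Fact p.Prime], (badCard (SL 2 p) d A : ℝ) ≤ b * (Fintype.card (SL 2 p) : ℝ) ^ d) →
      (1 - b - 16 * (d : ℝ) ^ 2 / p) * (Nat.card (PSL p) : ℝ) ^ d ≤
        (Nat.card {s : Fin d → PSL p // Good3 s η
          ((1 - √(2 * (d : ℝ) - 1) * (τ + 1 / τ) / (2 * d)) / 2)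
          ((1 - η) * TT d (Nat.card (PSL p)) 1)
          ((1 + η) * TT d (Nat.card (PSL p)) τ)} : ℝ) := by
  obtain ⟨R, P, hR, hF⟩ := hFNN η l0 hη hη1 hl0
  refine ⟨R, P, hR, ?_⟩
  intro p d A b τ hp hP hd hRl hτ hl hA hAB hbad
  have : Fact p.Prime := ⟨hp⟩
  have h1 := RCG.FIN2_.toPSL h3 h4 p d A _ hA hbad
  have h2 : (Nat.card {s : Fin d → PSL p // NormLe s A} : ℝ) ≤
      (Nat.card {s : Fin d → PSL p // NormLe s (√(2 * (d : ℝ) - 1) * (τ + 1 / τ))} : ℝ) :=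
    Asm_.card_mono fun s hs => Asm_.normLe_mono hA hAB hs
  have h5 := hF p d b τ hp hP hd hRl hτ hl (h1.trans h2)
  exact h5.trans (Asm_.card_mono fun s hs => hs.2)

theorem b_lt {b : ℕ → ℝ} {d : ℕ} (hb : 2 * √(2 * (d : ℝ) - 1) ≤ b d) (hd : 2 ≤ d)
    (h : tau b d ^ 2 < 2 * (d : ℝ) - 1) : b d < 2 * (d : ℝ) := by
  have hdr : (2 : ℝ) ≤ d := by exact_mod_cast hd
  have h1 := tau_one hb hd
  have h2 := tau_eq hb hd
  have hs2 : √(2 * (d : ℝ) - 1) ^ 2 = 2 * d - 1 := Real.sq_sqrt (by linarith)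
  have hs1 : 1 < √(2 * (d : ℝ) - 1) := by
    rw [Real.lt_sqrt (by norm_num)]
    linarith
  have h3 : tau b d < √(2 * (d : ℝ) - 1) := by
    rw [Real.lt_sqrt (by linarith)]
    exact h
  rw [← h2]
  set s := √(2 * (d : ℝ) - 1) with hs
  set t := tau b d with ht
  have e : s * (t + 1 / t) = s * (t ^ 2 + 1) / t := by
    field_simp
  rw [e, div_lt_iff₀ (by linarith)]
  nlinarith [mul_pos (by nlinarith : 0 < s * t - 1) (by linarith : 0 < s - t)]

end Asm3_

open Asm3_ in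
/-- the final theorem, all degrees -/
theorem final3 (hFNN : T_FNN) (h3 : RCG.T_QUO) (h4 : RCG.T_POL) (hUNI : RCG.T_UNI)
    (b : ℕ → ℝ) (hb2 : ∀ d : ℕ, 2 ≤ d → 2 * √(2 * (d : ℝ) - 1) ≤ b d)
    (hb3 : ∀ d : ℕ, 2 ≤ d → b d ≤ 364 * √(2 * (d : ℝ)))
    (hbad : ∀ d : ℕ, 1 ≤ d → ∃ P : ℕ, ∀ (p : ℕ) [Fact p.Prime], P ≤ p →
      (badCard (SL 2 p) d (b d) : ℝ) ≤
        (p : ℝ) ^ (-(1 / 4 : ℝ)) * (Fintype.card (SL 2 p) : ℝ) ^ d) :
    ∃ γ : ℝ, 0 < γ ∧ ∀ η : ℝ, 0 < η → η < 1 → ∃ (P : ℕ) (R : ℝ), ∀ p d : ℕ, p.Prime → P ≤ p →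
      2 ≤ d → tau b d ^ 2 < 2 * (d : ℝ) - 1 → R * Real.log d ≤ Real.log p →
      (1 - 17 * (d : ℝ) ^ 2 / p - (p : ℝ) ^ (-(1 / 4 : ℝ))) * (Nat.card (PSL p) : ℝ) ^ d ≤
        (Nat.card {s : Fin d → PSL p // Good3 s η γ
          ((1 - η) * TT d (Nat.card (PSL p)) 1)
          ((1 + η) * TT d (Nat.card (PSL p)) (tau b d))} : ℝ) := by
  obtain ⟨γ, hγ, hγ4, hgap⟩ := exists_gap b hb3
  refine ⟨γ, hγ, ?_⟩
  intro η hη hη1
  obtain ⟨K, hK2, hK⟩ := large η hη hη1
  obtain ⟨l0, hl0, hlow⟩ := exists_lower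
    (fun d => Real.log ((2 * (d : ℝ) - 1) / tau b d ^ 2)) K
  obtain ⟨R1, P1, hR1, hM1⟩ := main hFNN h3 h4 η l0 hη hη1 hl0
  obtain ⟨R2, P2, hR2, hM2⟩ := main hFNN h3 h4 (η / 3) 1 (by positivity) (by linarith) one_pos
  obtain ⟨P3, hP3⟩ := hUNI 1 one_pos
  obtain ⟨P4, hP4⟩ := exists_upper (fun d p => 1 ≤ d → ∀ [Fact p.Prime],
    (badCard (SL 2 p) d (b d) : ℝ) ≤
      (p : ℝ) ^ (-(1 / 4 : ℝ)) * (Fintype.card (SL 2 p) : ℝ) ^ d) K (by
      intro d
      by_cases hd : 1 ≤ d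
      · obtain ⟨P, hP⟩ := hbad d hd
        exact ⟨P, fun p hp _ _ => hP p hp⟩
      · exact ⟨0, fun p _ h => absurd h hd⟩)
  obtain ⟨P5, hP5⟩ := exists_nat_ge (max P1 P2)
  refine ⟨max P3 (max P4 P5), 2 * max R1 R2, ?_⟩
  intro p d hp hpP hd2 hτ hRd
  have hfact : Fact p.Prime := ⟨hp⟩
  have hp3 : P3 ≤ p := (le_max_left _ _).trans hpP
  have hp4 : P4 ≤ p := (le_max_left _ _).trans ((le_max_right _ _).trans hpP)
  have hp5 : max P1 P2 ≤ (p : ℝ) := by
    have : P5 ≤ p := (le_max_right _ _).trans ((le_max_right _ _).trans hpP)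
    exact hP5.trans (by exact_mod_cast this)
  have hp1 : P1 ≤ (p : ℝ) := (le_max_left _ _).trans hp5
  have hp2 : P2 ≤ (p : ℝ) := (le_max_right _ _).trans hp5
  have hp0 : (0 : ℝ) < p := by exact_mod_cast hp.pos
  have hp1' : (1 : ℝ) ≤ p := by exact_mod_cast hp.one_lt.le
  have hdr : (2 : ℝ) ≤ d := by exact_mod_cast hd2
  have hlogs : ∀ S : ℝ, 0 ≤ S → S ≤ max R1 R2 → S * Real.log (2 * d) ≤ Real.log p := by
    intro S hS0 hS
    have h1 : Real.log (2 * d) ≤ 2 * Real.log d := by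
      rw [Real.log_mul (by norm_num) (by positivity)]
      have := Real.log_le_log (by norm_num) hdr
      linarith
    have h0 : 0 ≤ Real.log (d : ℝ) := Real.log_nonneg (by linarith)
    have h2 := mul_le_mul_of_nonneg_left h1 hS0
    have h5 := mul_le_mul_of_nonneg_right hS h0
    linarith
  have hcd := hb2 d hd2
  have hτ1 : 1 ≤ tau b d := tau_one hcd hd2
  have hlt := b_lt hcd hd2 hτ
  have hτ0 : 0 < tau b d ^ 2 := by positivity
  have hlogτ : 0 < Real.log ((2 * (d : ℝ) - 1) / tau b d ^ 2) := by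
    apply Real.log_pos
    rw [lt_div_iff₀ hτ0]
    linarith
  have : Finite (PSL p) := inferInstance
  have hN1 : (1 : ℝ) ≤ (Nat.card (PSL p) : ℝ) := by
    have : 0 < Nat.card (PSL p) := Nat.card_pos
    exact_mod_cast this
  have hsq : √(2 * (d : ℝ)) * √(2 * (d : ℝ)) = 2 * d := Real.mul_self_sqrt (by linarith)
  rcases Nat.lt_or_ge d K with hdK | hdK
  · have hb0 : 0 ≤ b d := le_trans (by positivity) hcd
    have h5 := hM1 p d (b d) ((p : ℝ) ^ (-(1 / 4 : ℝ))) (tau b d) hp hp1 hd2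
      (hlogs R1 hR1.le (le_max_left _ _)) hτ1 (hlow d hdK hlogτ) hb0
      (tau_eq hcd hd2).ge (by
        intro _
        exact hP4 d hdK p hp4 (by omega))
    have hcoef : 1 - 17 * (d : ℝ) ^ 2 / p - (p : ℝ) ^ (-(1 / 4 : ℝ)) ≤
        1 - (p : ℝ) ^ (-(1 / 4 : ℝ)) - 16 * (d : ℝ) ^ 2 / p := by
      have h6 : 16 * (d : ℝ) ^ 2 / p ≤ 17 * (d : ℝ) ^ 2 / p :=
        div_le_div_of_nonneg_right (by nlinarith) hp0.le
      linarith
    refine (mul_le_mul_of_nonneg_right hcoef (by positivity)).trans (h5.trans ?_)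
    apply Asm_.card_mono
    rintro s ⟨F, hN, hg, hs⟩
    refine ⟨F, hN, gap_mono ?_ hg, hs⟩
    rw [tau_eq hcd hd2]
    exact hgap d hd2 hlt
  · have hKd' : (K : ℝ) ≤ 2 * d := by
      have : (K : ℝ) ≤ d := by exact_mod_cast hdK
      linarith
    obtain ⟨e1, e2, e3, e4⟩ := hK (2 * d) hKd'
    set B : ℝ := 755 * √(2 * (d : ℝ) * Real.log (2 * d)) with hB
    have hs0 : 0 < √(2 * (d : ℝ) - 1) := Real.sqrt_pos.2 (by linarith)
    have hs2 : √(2 * (d : ℝ) - 1) ^ 2 = 2 * d - 1 := Real.sq_sqrt (by linarith)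
    have hB0 : 0 < B := lt_of_lt_of_le hs0 e1
    set t : ℝ := B / √(2 * (d : ℝ) - 1) with ht
    have ht1 : 1 ≤ t := by
      rw [ht, one_le_div hs0]
      exact e1
    have ht2 : (2 * (d : ℝ) - 1) / t ^ 2 = ((2 * (d : ℝ) - 1) / B) ^ 2 := by
      rw [ht, div_pow, hs2]
      have : 2 * (d : ℝ) - 1 ≠ 0 := by linarith
      field_simp
    have hlt : Real.log ((2 * (d : ℝ) - 1) / t ^ 2) =
        2 * Real.log ((2 * (d : ℝ) - 1) / B) := by
      rw [ht2, Real.log_pow]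
      norm_num
    have hst : √(2 * (d : ℝ) - 1) * (t + 1 / t) = B + (2 * (d : ℝ) - 1) / B := by
      have e : 1 / t = √(2 * (d : ℝ) - 1) / B := by rw [ht, one_div_div]
      have e' : √(2 * (d : ℝ) - 1) * (√(2 * (d : ℝ) - 1) / B) = (2 * (d : ℝ) - 1) / B := by
        rw [← mul_div_assoc, ← sq, hs2]
      have e'' : √(2 * (d : ℝ) - 1) * t = B := by
        rw [ht, mul_div_cancel₀ _ hs0.ne']
      rw [mul_add, e, e', e'']
    have hAB : 308 * √(1 + 5) * √(2 * (d : ℝ) * Real.log (2 * (d : ℝ))) ≤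
        √(2 * (d : ℝ) - 1) * (t + 1 / t) := by
      rw [hst]
      have h6 : 308 * √(1 + 5) * √(2 * (d : ℝ) * Real.log (2 * (d : ℝ))) ≤ B :=
        mul_le_mul_of_nonneg_right Asm_.c2 (Real.sqrt_nonneg _)
      have h7 : 0 ≤ (2 * (d : ℝ) - 1) / B := div_nonneg (by linarith) hB0.le
      exact h6.trans (le_add_of_nonneg_right h7)
    have h5 := hM2 p d (308 * √(1 + 5) * √(2 * (d : ℝ) * Real.log (2 * (d : ℝ))))
      ((p : ℝ) ^ (-(1 : ℝ))) t hp hp2 hd2 (hlogs R2 hR2.le (le_max_right _ _)) ht1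
      (by rw [hlt]; exact e3) (by positivity) hAB (by
        intro _
        exact hP3 p hp3 d (by omega))
    have hcoef : 1 - 17 * (d : ℝ) ^ 2 / p - (p : ℝ) ^ (-(1 / 4 : ℝ)) ≤
        1 - (p : ℝ) ^ (-(1 : ℝ)) - 16 * (d : ℝ) ^ 2 / p := by
      rw [Real.rpow_neg_one]
      have h6 : (p : ℝ)⁻¹ ≤ (d : ℝ) ^ 2 / p := by
        rw [inv_eq_one_div]
        exact div_le_div_of_nonneg_right (by nlinarith) hp0.le
      have h7 : 17 * (d : ℝ) ^ 2 / p = (d : ℝ) ^ 2 / p + 16 * (d : ℝ) ^ 2 / p := by ring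
      have h8 : 0 ≤ (p : ℝ) ^ (-(1 / 4 : ℝ)) := by positivity
      rw [h7]
      linarith
    refine (mul_le_mul_of_nonneg_right hcoef (by positivity)).trans (h5.trans ?_)
    apply Asm_.card_mono
    rintro s ⟨F, hN, hg, hs⟩
    refine ⟨F, hN, gap_mono ?_ hg, ?_⟩
    · rw [hst]
      have h6 : (2 * (d : ℝ) - 1) / B ≤ √(2 * (d : ℝ)) := by
        rw [div_le_iff₀ hB0]
        have h7 : √(2 * (d : ℝ) - 1) ≤ √(2 * (d : ℝ)) := Real.sqrt_le_sqrt (by linarith)
        nlinarith [mul_le_mul h7 e1 hs0.le (Real.sqrt_nonneg (2 * (d : ℝ)))]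
      have h7 : (B + (2 * (d : ℝ) - 1) / B) / (2 * d) ≤ 1 / 2 := by
        rw [div_le_iff₀ (by linarith)]
        linarith
      linarith
    · intro ε h6 h7
      obtain ⟨h8, h9⟩ := hs ε (by linarith) (by linarith)
      have hT1 : 0 ≤ TT d (Nat.card (PSL p)) 1 := by
        apply TT_nonneg hd2 hN1
        apply Real.log_nonneg
        rw [one_pow, div_one]
        linarith
      constructor
      · refine le_trans ?_ h8
        apply mul_le_mul_of_nonneg_right _ hT1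
        linarith
      · have h10 : TT d (Nat.card (PSL p)) t ≤ (1 + η / 2) * TT d (Nat.card (PSL p)) 1 := by
          unfold TT
          rw [hlt, one_pow, div_one]
          have hL := Real.log_nonneg hN1
          have hk1 : 0 < Real.log (2 * (d : ℝ) - 1) := Real.log_pos (by linarith)
          have h11 : 2 * Real.log (Nat.card (PSL p)) /
              (2 * Real.log ((2 * (d : ℝ) - 1) / B)) ≤
              (1 + η / 2) * (2 * Real.log (Nat.card (PSL p)) / Real.log (2 * (d : ℝ) - 1)) := by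
            rw [← mul_div_assoc, div_le_div_iff₀ (by linarith) hk1]
            have := mul_le_mul_of_nonneg_left e4
              (by linarith : 0 ≤ 2 * Real.log (Nat.card (PSL p)))
            linarith
          have h12 : 0 ≤ (d : ℝ) / ((d : ℝ) - 1) := div_nonneg (by linarith) (by linarith)
          calc _ ≤ (d : ℝ) / ((d : ℝ) - 1) * ((1 + η / 2) *
                (2 * Real.log (Nat.card (PSL p)) / Real.log (2 * (d : ℝ) - 1))) :=
                mul_le_mul_of_nonneg_left h11 h12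
            _ = _ := by ring
        have h11 : TT d (Nat.card (PSL p)) 1 ≤ TT d (Nat.card (PSL p)) (tau b d) :=
          TT_mono hd2 hN1 one_pos hτ1 hlogτ
        calc (tm s ε : ℝ) ≤ (1 + η / 3) * TT d (Nat.card (PSL p)) t := h9
          _ ≤ (1 + η / 3) * ((1 + η / 2) * TT d (Nat.card (PSL p)) 1) :=
            mul_le_mul_of_nonneg_left h10 (by positivity)
          _ = ((1 + η / 3) * (1 + η / 2)) * TT d (Nat.card (PSL p)) 1 := by ring
          _ ≤ (1 + η) * TT d (Nat.card (PSL p)) 1 := by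
            apply mul_le_mul_of_nonneg_right _ hT1
            nlinarith
          _ ≤ _ := mul_le_mul_of_nonneg_left h11 (by linarith)

end Pool.Agent.ACO
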