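import Pool.Agent.ACO.Asm3

set_option autoImplicit false

/-!
# ACO: the form with an explicit rate in the degree
-/

namespace Pool.Agent.ACO

open Finset
open Pool.Agent.RCG (PSL NormLe SL badCard)
open Pool.Agent.VAC (HasGap)

namespace Asm4_

open Asm3_

theorem tau_lt {b : ℕ → ℝ} {d : ℕ} (hb : 2 * √(2 * (d : ℝ) - 1) ≤ b d) (hd : 2 ≤ d)
    (h : b d < 2 * (d : ℝ)) : tau b d ^ 2 < 2 * (d : ℝ) - 1 := by
  have hdr : (2 : ℝ) ≤ d := by exact_mod_cast hd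
  have h1 := tau_one hb hd
  have h2 := tau_eq hb hd
  have hs2 : √(2 * (d : ℝ) - 1) ^ 2 = 2 * d - 1 := Real.sq_sqrt (by linarith)
  have hs1 : 1 < √(2 * (d : ℝ) - 1) := by
    rw [Real.lt_sqrt (by norm_num)]
    linarith
  by_contra hcon
  push Not at hcon
  have h3 : √(2 * (d : ℝ) - 1) ≤ tau b d := by
    rw [Real.sqrt_le_left (by linarith)]
    exact hcon
  rw [← h2] at h
  set s := √(2 * (d : ℝ) - 1) with hs
  set t := tau b d with ht
  have e : s * (t + 1 / t) = s * (t ^ 2 + 1) / t := by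
    field_simp
  rw [e, div_lt_iff₀ (by linarith)] at h
  nlinarith [mul_nonneg (by nlinarith : 0 ≤ s * t - 1) (by linarith : 0 ≤ t - s)]

theorem sqrt_lt {d : ℕ} (hd : 66249 ≤ d) : 364 * √(2 * (d : ℝ)) < 2 * d := by
  have hdr : (66249 : ℝ) ≤ d := by exact_mod_cast hd
  have h1 : 364 < √(2 * (d : ℝ)) := by
    rw [Real.lt_sqrt (by norm_num)]
    linarith
  have hsq : √(2 * (d : ℝ)) * √(2 * (d : ℝ)) = 2 * d := Real.mul_self_sqrt (by linarith)
  nlinarith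

/-- the quotient of the two times -/
theorem ratio_rate (b : ℕ → ℝ) (C0 : ℝ) (hC0 : 0 ≤ C0)
    (h1 : ∀ d : ℕ, 66249 ≤ d → 1 ≤ tau b d) (h2 : ∀ d : ℕ, 66249 ≤ d → tau b d ≤ 421)
    (h3 : ∀ d : ℕ, 66249 ≤ d → tau b d ≤ 1 + C0 * (2 * (d : ℝ)) ^ (-(1 / 28 : ℝ)))
    (h4 : ∀ d : ℕ, 66249 ≤ d → tau b d ^ 2 < 2 * (d : ℝ) - 1) :
    ∃ C : ℝ, 0 ≤ C ∧ ∀ d : ℕ, 66249 ≤ d →
      Real.log (2 * (d : ℝ) - 1) ≤ (1 + C * (2 * (d : ℝ)) ^ (-(1 / 28 : ℝ))) *
        Real.log ((2 * (d : ℝ) - 1) / tau b d ^ 2) := by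
  obtain ⟨l, hl, hlow⟩ := exists_lower
    (fun d => Real.log ((2 * (d : ℝ) - 1) / tau b d ^ 2)) 20000000000
  have hpos : ∀ d : ℕ, 66249 ≤ d → 0 < Real.log ((2 * (d : ℝ) - 1) / tau b d ^ 2) := by
    intro d hd
    have := h1 d hd
    apply Real.log_pos
    rw [lt_div_iff₀ (by positivity)]
    linarith [h4 d hd]
  set C1 : ℝ := Real.log 40000000000 / l * (40000000000 : ℝ) ^ (1 / 28 : ℝ) with hC1
  have hC1' : 0 ≤ C1 := by
    have : 0 ≤ Real.log (40000000000 : ℝ) := Real.log_nonneg (by norm_num)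
    positivity
  refine ⟨max C1 (4 * C0), le_max_of_le_left hC1', ?_⟩
  intro d hd
  have hdr : (66249 : ℝ) ≤ d := by exact_mod_cast hd
  have hk0 : (0 : ℝ) < 2 * d := by linarith
  set x : ℝ := (2 * (d : ℝ)) ^ (-(1 / 28 : ℝ)) with hx
  have hx0 : 0 < x := Real.rpow_pos_of_pos hk0 _
  have hp := hpos d hd
  rcases Nat.lt_or_ge d 20000000000 with hlt | hge
  · have hlt' : (d : ℝ) ≤ 20000000000 := by exact_mod_cast hlt.le
    have h5 := hlow d hlt hp
    have h6 : Real.log (2 * (d : ℝ) - 1) ≤ Real.log 40000000000 :=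
      Real.log_le_log (by linarith) (by linarith)
    have h7 : 1 ≤ (40000000000 : ℝ) ^ (1 / 28 : ℝ) * x := by
      rw [hx, Real.rpow_neg hk0.le, ← div_eq_mul_inv, one_le_div (Real.rpow_pos_of_pos hk0 _)]
      exact Real.rpow_le_rpow hk0.le (by linarith) (by norm_num)
    have h8 : Real.log 40000000000 / l ≤ max C1 (4 * C0) * x := by
      have h9 : 0 ≤ Real.log 40000000000 / l := by
        have : 0 ≤ Real.log (40000000000 : ℝ) := Real.log_nonneg (by norm_num)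
        positivity
      calc Real.log 40000000000 / l ≤
          Real.log 40000000000 / l * ((40000000000 : ℝ) ^ (1 / 28 : ℝ) * x) :=
            le_mul_of_one_le_right h9 h7
        _ = C1 * x := by rw [hC1]; ring
        _ ≤ _ := mul_le_mul_of_nonneg_right (le_max_left _ _) hx0.le
    have h9 : Real.log 40000000000 ≤ max C1 (4 * C0) * x * l := by
      rw [div_le_iff₀ hl] at h8
      exact h8
    have h10 : 0 ≤ max C1 (4 * C0) * x :=
      mul_nonneg (le_max_of_le_left hC1') hx0.le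
    have h11 := mul_le_mul_of_nonneg_left h5 h10
    linarith
  · have hge' : (20000000000 : ℝ) ≤ d := by exact_mod_cast hge
    have ht1 := h1 d hd
    have ht0 : 0 < tau b d := by linarith
    have hk1 : 0 < 2 * (d : ℝ) - 1 := by linarith
    have e1 : Real.log ((2 * (d : ℝ) - 1) / tau b d ^ 2) =
        Real.log (2 * (d : ℝ) - 1) - 2 * Real.log (tau b d) := by
      rw [Real.log_div hk1.ne' (by positivity), Real.log_pow]
      norm_num
    have e2 : Real.log (tau b d) ≤ C0 * x := by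
      have := Real.log_le_sub_one_of_pos ht0
      linarith [h3 d hd]
    have e3 : 4 * Real.log (tau b d) ≤ Real.log (2 * (d : ℝ) - 1) := by
      have e4 : Real.log (tau b d ^ 4) ≤ Real.log (2 * (d : ℝ) - 1) := by
        apply Real.log_le_log (by positivity)
        have : tau b d ^ 4 ≤ 421 ^ 4 := pow_le_pow_left₀ ht0.le (h2 d hd) 4
        norm_num at this
        linarith
      rw [Real.log_pow] at e4
      exact_mod_cast e4
    have e5 : 1 ≤ Real.log (2 * (d : ℝ) - 1) := by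
      rw [Real.le_log_iff_exp_le hk1]
      have := Real.exp_one_lt_d9
      linarith
    have e6 : 0 ≤ Real.log (tau b d) := Real.log_nonneg ht1
    have e7 : 4 * C0 * x ≤ max C1 (4 * C0) * x :=
      mul_le_mul_of_nonneg_right (le_max_right _ _) hx0.le
    rw [e1]
    set L := Real.log (2 * (d : ℝ) - 1) with hL
    set u := Real.log (tau b d) with hu
    set y := max C1 (4 * C0) * x with hy
    have e8 : 4 * u ≤ y := by nlinarith
    have e9 : 0 ≤ y := by linarith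
    -- L ≤ (1 + y) (L - 2 u)
    have e10 : y * (L / 2) ≤ y * (L - 2 * u) := by
      apply mul_le_mul_of_nonneg_left _ e9
      linarith
    have e11 : 2 * u ≤ y * (L / 2) := by nlinarith
    nlinarith

end Asm4_

open Asm3_ Asm4_ in
/-- the final theorem, with a rate in the degree -/
theorem final4 (hFNN : T_FNN) (h3 : RCG.T_QUO) (h4 : RCG.T_POL) (hUNI : RCG.T_UNI)
    (hrate : ∃ C : ℝ, 0 ≤ C ∧ ∀ d : ℕ, 1 ≤ d → ∃ P : ℕ,
      ∀ (p : ℕ) [Fact p.Prime], P ≤ p → (badCard (SL 2 p) d (min (364 * √(2 * (d : ℝ)))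
        (2 * √(2 * (d : ℝ) - 1) + C * (2 * (d : ℝ)) ^ (3 / 7 : ℝ))) : ℝ) ≤
          (p : ℝ) ^ (-(1 / 4 : ℝ)) * (Fintype.card (SL 2 p) : ℝ) ^ d) :
    ∃ C γ : ℝ, 0 ≤ C ∧ 0 < γ ∧ ∀ η : ℝ, 0 < η → η < 1 → ∃ (P : ℕ) (R : ℝ),
      ∀ p d : ℕ, p.Prime → P ≤ p → 66249 ≤ d → R * Real.log d ≤ Real.log p →
        (1 - 17 * (d : ℝ) ^ 2 / p - (p : ℝ) ^ (-(1 / 4 : ℝ))) * (Nat.card (PSL p) : ℝ) ^ d ≤
          (Nat.card {s : Fin d → PSL p // Good3 s η γ
            ((1 - η) * TT d (Nat.card (PSL p)) 1)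
            ((1 + η) * ((1 + C * (2 * (d : ℝ)) ^ (-(1 / 28 : ℝ))) *
              TT d (Nat.card (PSL p)) 1))} : ℝ) := by
  obtain ⟨C, hC, hbad⟩ := hrate
  set b : ℕ → ℝ := fun d => min (364 * √(2 * (d : ℝ)))
    (2 * √(2 * (d : ℝ) - 1) + C * (2 * (d : ℝ)) ^ (3 / 7 : ℝ)) with hb
  have hb2 : ∀ d : ℕ, 2 ≤ d → 2 * √(2 * (d : ℝ) - 1) ≤ b d := by
    intro d hd
    rw [hb]
    apply le_min
    · have h5 : √(2 * (d : ℝ) - 1) ≤ √(2 * (d : ℝ)) := Real.sqrt_le_sqrt (by linarith)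
      have h6 := Real.sqrt_nonneg (2 * (d : ℝ))
      linarith
    · have : 0 ≤ C * (2 * (d : ℝ)) ^ (3 / 7 : ℝ) := by positivity
      linarith
  have hb3 : ∀ d : ℕ, 2 ≤ d → b d ≤ 364 * √(2 * (d : ℝ)) := fun d _ => min_le_left _ _
  have hb4 : ∀ d : ℕ, 66249 ≤ d → b d < 2 * (d : ℝ) := fun d hd =>
    lt_of_le_of_lt (hb3 d (by omega)) (sqrt_lt hd)
  have hτ4 : ∀ d : ℕ, 66249 ≤ d → tau b d ^ 2 < 2 * (d : ℝ) - 1 := fun d hd =>
    tau_lt (hb2 d (by omega)) (by omega) (hb4 d hd)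
  have hτ1 : ∀ d : ℕ, 66249 ≤ d → 1 ≤ tau b d := fun d hd =>
    tau_one (hb2 d (by omega)) (by omega)
  obtain ⟨C', hC', hrat⟩ := ratio_rate b (2 * C + √(2 * C)) (by positivity) hτ1
    (fun d hd => tau_le (hb2 d (by omega)) (hb3 d (by omega)) (by omega))
    (fun d hd => tau_rate hC (by omega) (hb2 d (by omega)) (min_le_right _ _)) hτ4
  obtain ⟨γ, hγ, h⟩ := final3 hFNN h3 h4 hUNI b hb2 hb3 hbad
  refine ⟨C', γ, hC', hγ, ?_⟩
  intro η hη hη1
  obtain ⟨P, R, hPR⟩ := h η hη hη1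
  refine ⟨P, R, ?_⟩
  intro p d hp hP hd hR
  have hfact : Fact p.Prime := ⟨hp⟩
  refine (hPR p d hp hP (by omega) (hτ4 d hd) hR).trans (Asm_.card_mono ?_)
  rintro s ⟨F, hN, hg, hs⟩
  refine ⟨F, hN, hg, ?_⟩
  intro ε e1 e2
  obtain ⟨e3, e4⟩ := hs ε e1 e2
  refine ⟨e3, e4.trans (mul_le_mul_of_nonneg_left ?_ (by linarith))⟩
  have hdr : (66249 : ℝ) ≤ d := by exact_mod_cast hd
  have hN1 : (1 : ℝ) ≤ (Nat.card (PSL p) : ℝ) := by
    have : 0 < Nat.card (PSL p) := Nat.card_pos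
    exact_mod_cast this
  have hL := Real.log_nonneg hN1
  have hk1 : 0 < Real.log (2 * (d : ℝ) - 1) := Real.log_pos (by linarith)
  have hτ0 : 0 < tau b d ^ 2 := by
    have := hτ1 d hd
    positivity
  have hk2 : 0 < Real.log ((2 * (d : ℝ) - 1) / tau b d ^ 2) := by
    apply Real.log_pos
    rw [lt_div_iff₀ hτ0]
    linarith [hτ4 d hd]
  unfold TT
  rw [one_pow, div_one]
  have h11 : 2 * Real.log (Nat.card (PSL p)) /
      Real.log ((2 * (d : ℝ) - 1) / tau b d ^ 2) ≤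
      (1 + C' * (2 * (d : ℝ)) ^ (-(1 / 28 : ℝ))) *
        (2 * Real.log (Nat.card (PSL p)) / Real.log (2 * (d : ℝ) - 1)) := by
    rw [← mul_div_assoc, div_le_div_iff₀ hk2 hk1]
    have := mul_le_mul_of_nonneg_left (hrat d hd)
      (by linarith : 0 ≤ 2 * Real.log (Nat.card (PSL p)))
    linarith
  have h12 : 0 ≤ (d : ℝ) / ((d : ℝ) - 1) := div_nonneg (by linarith) (by linarith)
  calc _ ≤ (d : ℝ) / ((d : ℝ) - 1) * ((1 + C' * (2 * (d : ℝ)) ^ (-(1 / 28 : ℝ))) *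
        (2 * Real.log (Nat.card (PSL p)) / Real.log (2 * (d : ℝ) - 1))) :=
        mul_le_mul_of_nonneg_left h11 h12
    _ = _ := by ring

end Pool.Agent.ACO
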