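import Pool.Agent.VAC.Defs
import Pool.Agent.RCG.Fin

set_option autoImplicit false

/-!
# ACO: approximate cutoff for random Cayley graphs of `PSL (2, p)` (MP_64152e_pr), definitions

Project of helper78; the input is the norm bound of project RCG (helper52).
-/

namespace Pool.Agent.ACO

open Finset
open Pool.Agent.VAC (lazyP tvDist tmix)
open Pool.Agent.RCG (PSL NormLe)

/-- the Cayley graph of the tuple `s` -/
def cay {G : Type} [Group G] {d : ℕ} (s : Fin d → G) : SimpleGraph G where
  Adj x y := x ≠ y ∧ ∃ i, y = x * s i ∨ y = x * (s i)⁻¹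
  symm := ⟨by
    rintro x y ⟨h, i, h1 | h1⟩
    · exact ⟨h.symm, i, Or.inr (by rw [h1]; group)⟩
    · exact ⟨h.symm, i, Or.inl (by rw [h1]; group)⟩⟩
  loopless := ⟨fun x h => h.1 rfl⟩

/-- the `2 d` elements `s i` and `(s i)⁻¹` are different from each other and from `1` -/
def Simp {G : Type} [Group G] {d : ℕ} (s : Fin d → G) : Prop :=
  (∀ i, s i ≠ 1) ∧ (∀ i, s i ≠ (s i)⁻¹) ∧ ∀ i j, i ≠ j → s i ≠ s j ∧ s i ≠ (s j)⁻¹

open Classical in
/-- the transition matrix of the non-lazy walk -/
noncomputable def M {G : Type} [Group G] [Fintype G] {d : ℕ} (s : Fin d → G) : Matrix G G ℝ :=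
  Matrix.of fun x y => (∑ i, ((if y = x * s i then (1 : ℝ) else 0) +
    (if y = x * (s i)⁻¹ then 1 else 0))) / (2 * d)

/-- the norm of the non-lazy walk on functions of sum zero is at most `ρ` -/
def Nrm {G : Type} [Group G] [Fintype G] {d : ℕ} (s : Fin d → G) (ρ : ℝ) : Prop :=
  ∀ f : G → ℝ, ∑ x, f x = 0 → ∑ x, ((M s).mulVec f x) ^ 2 ≤ ρ ^ 2 * ∑ x, f x ^ 2

open Classical in
/-- the transition matrix of the lazy walk on the Cayley graph -/
noncomputable def LP {G : Type} [Group G] [Fintype G] {d : ℕ} (s : Fin d → G) : Matrix G G ℝ :=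
  lazyP (cay s)

open Classical in
/-- total variation distance of the lazy walk after `t` steps from `x` -/
noncomputable def tv {G : Type} [Group G] [Fintype G] {d : ℕ} (s : Fin d → G) (t : ℕ)
    (x : G) : ℝ :=
  tvDist (LP s) t x

open Classical in
/-- mixing time of the lazy walk -/
noncomputable def tm {G : Type} [Group G] [Fintype G] {d : ℕ} (s : Fin d → G) (ε : ℝ) : ℕ :=
  tmix (LP s) ε

open Classical in
/-- the Cayley graph is a connected vertex-transitive graph of degree `2 d` -/
def Nice {G : Type} [Group G] [Fintype G] {d : ℕ} (s : Fin d → G) : Prop :=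
  (cay s).Connected ∧ (cay s).IsRegularOfDegree (2 * d) ∧
    ∀ x y : G, ∃ φ : cay s ≃g cay s, φ x = y

end Pool.Agent.ACO
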