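import Pool.Agent.ACO.Targets

set_option autoImplicit false

/-!
# ACO, BIN: Chebyshev for the binomial distribution
-/

namespace Pool.Agent.ACO

open Finset

/-- the variance of the binomial distribution -/
theorem BIN_.var (t : ℕ) :
    ∑ m ∈ range (t + 1), ((m : ℝ) - t / 2) ^ 2 * ((t.choose m : ℝ) / 2 ^ t) = (t : ℝ) / 4 := by
  have h := congrArg (Polynomial.eval (1 / 2 : ℝ)) (bernsteinPolynomial.variance ℝ t)
  rw [Polynomial.eval_finsetSum] at h
  have h1 : Polynomial.eval (1 / 2 : ℝ)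
      (t • Polynomial.X * ((1 : Polynomial ℝ) - Polynomial.X)) = t / 4 := by
    simp only [nsmul_eq_mul, Polynomial.eval_mul, Polynomial.eval_sub, Polynomial.eval_X,
      Polynomial.eval_one, Polynomial.eval_natCast]
    ring
  rw [h1] at h
  rw [← h]
  refine Finset.sum_congr rfl fun m hm => ?_
  have hmt : m ≤ t := by
    rw [Finset.mem_range] at hm
    omega
  simp only [bernsteinPolynomial, nsmul_eq_mul, Polynomial.eval_mul, Polynomial.eval_sub,
    Polynomial.eval_X, Polynomial.eval_one, Polynomial.eval_natCast, Polynomial.eval_pow]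
  have h2 : (1 / 2 : ℝ) ^ m * (1 - 1 / 2) ^ (t - m) = 1 / 2 ^ t := by
    have h3 : (1 - 1 / 2 : ℝ) = 1 / 2 := by norm_num
    rw [h3, ← pow_add, Nat.add_sub_cancel' hmt, one_div_pow]
  have h4 : (t.choose m : ℝ) * (1 / 2 : ℝ) ^ m * (1 - 1 / 2) ^ (t - m) = t.choose m / 2 ^ t := by
    rw [mul_assoc, h2]
    ring
  rw [h4]
  ring

theorem p_BIN : T_BIN := by
  intro t a ha
  have ha2 : 0 < a ^ 2 := pow_pos ha 2
  have h1 : ∑ m ∈ (range (t + 1)).filter (fun m : ℕ => a ≤ |(m : ℝ) - t / 2|),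
      (t.choose m : ℝ) / 2 ^ t ≤
      ∑ m ∈ (range (t + 1)).filter (fun m : ℕ => a ≤ |(m : ℝ) - t / 2|),
        ((m : ℝ) - t / 2) ^ 2 * ((t.choose m : ℝ) / 2 ^ t) / a ^ 2 := by
    refine Finset.sum_le_sum fun m hm => ?_
    rw [Finset.mem_filter] at hm
    have h2 : a ^ 2 ≤ ((m : ℝ) - t / 2) ^ 2 := by
      rw [← sq_abs ((m : ℝ) - t / 2)]
      exact pow_le_pow_left₀ ha.le hm.2 2
    rw [le_div_iff₀ ha2, mul_comm]
    exact mul_le_mul_of_nonneg_right h2 (by positivity)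
  have h3 : ∑ m ∈ (range (t + 1)).filter (fun m : ℕ => a ≤ |(m : ℝ) - t / 2|),
        ((m : ℝ) - t / 2) ^ 2 * ((t.choose m : ℝ) / 2 ^ t) / a ^ 2 ≤
      ∑ m ∈ range (t + 1), ((m : ℝ) - t / 2) ^ 2 * ((t.choose m : ℝ) / 2 ^ t) / a ^ 2 :=
    Finset.sum_le_sum_of_subset_of_nonneg (Finset.filter_subset _ _)
      (fun m _ _ => by positivity)
  refine (h1.trans h3).trans (le_of_eq ?_)
  rw [← Finset.sum_div, BIN_.var]
  field_simp

end Pool.Agent.ACO
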