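import Pool.Agent.ACO.TargetsN

/-!
# CHE: the normalised non-backtracking polynomials

`y = z + w`, `z w = 1`, `|z| ≤ τ`, `|w| ≤ 1`: then `U_(j+1) = w U_j + z^(j+1)` for the polynomials
`U_0 = 1`, `U_1 = y`, `U_(j+2) = y U_(j+1) - U_j`, so `|U_j| ≤ (j+1) τ^j`; and
`√(k-1)^(j+2) nb k m (j+2) = ((k-1)/k) U_(j+2) - (1/k) U_j`.
-/

set_option autoImplicit false

namespace Pool.Agent.ACO

namespace CHE_

/-- the polynomials `U_j` -/
noncomputable def UU (y : ℝ) : ℕ → ℝ
  | 0 => 1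
  | 1 => y
  | (j + 2) => y * UU y (j + 1) - UU y j

theorem root_pos (y τ : ℝ) (hτ : 1 ≤ τ) (hy : y ≤ τ + 1 / τ) (h2 : 2 ≤ y) :
    ∃ z w : ℂ, z * w = 1 ∧ z + w = y ∧ ‖z‖ ≤ τ ∧ ‖w‖ ≤ 1 := by
  have hs0 : 0 ≤ y ^ 2 - 4 := by nlinarith
  obtain ⟨s, hs, hss⟩ : ∃ s : ℝ, 0 ≤ s ∧ s * s = y ^ 2 - 4 :=
    ⟨√(y ^ 2 - 4), Real.sqrt_nonneg _, Real.mul_self_sqrt hs0⟩
  have hsy : s ≤ y := by nlinarith
  have hsy2 : y - 2 ≤ s := by nlinarith
  have hz1 : 1 ≤ (y + s) / 2 := by linarith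
  have hzw : (y + s) / 2 * ((y - s) / 2) = 1 := by nlinarith
  have hzτ : (y + s) / 2 ≤ τ := by
    by_contra hcon
    push Not at hcon
    have hτ0 : 0 < τ := by linarith
    have hw : (y - s) / 2 < 1 / τ := by
      rw [lt_div_iff₀ hτ0]
      have hwpos : 0 < (y - s) / 2 := by
        by_contra h
        push Not at h
        nlinarith
      nlinarith
    have h1 : (1 / τ) * τ = 1 := by field_simp
    have h3 : ((y + s) / 2 - τ) * (τ - (y - s) / 2) ≤ 0 := by
      have e : ((y + s) / 2 - τ) * (τ - (y - s) / 2) = τ * (y - (τ + 1 / τ)) := by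
        have : τ * (1 / τ) = 1 := by field_simp
        nlinarith
      rw [e]
      nlinarith
    have h4 : 1 / τ ≤ 1 := by
      rw [div_le_one hτ0]
      exact hτ
    nlinarith
  refine ⟨(((y + s) / 2 : ℝ) : ℂ), (((y - s) / 2 : ℝ) : ℂ), ?_, ?_, ?_, ?_⟩
  · rw [← Complex.ofReal_mul, hzw, Complex.ofReal_one]
  · rw [← Complex.ofReal_add]
    congr 1
    ring
  · rw [Complex.norm_real, Real.norm_eq_abs, abs_of_nonneg (by linarith)]
    exact hzτ
  · rw [Complex.norm_real, Real.norm_eq_abs, abs_of_nonneg (by linarith)]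
    linarith

theorem root (y τ : ℝ) (hτ : 1 ≤ τ) (hy : |y| ≤ τ + 1 / τ) :
    ∃ z w : ℂ, z * w = 1 ∧ z + w = y ∧ ‖z‖ ≤ τ ∧ ‖w‖ ≤ 1 := by
  rcases le_or_gt 2 y with h2 | h2
  · exact root_pos y τ hτ (le_trans (le_abs_self y) hy) h2
  rcases le_or_gt y (-2) with h3 | h3
  · obtain ⟨z, w, h1, h2, h3, h4⟩ :=
      root_pos (-y) τ hτ (le_trans (neg_le_abs y) hy) (by linarith)
    refine ⟨-z, -w, by rw [neg_mul_neg]; exact h1, ?_, by rw [norm_neg]; exact h3,
      by rw [norm_neg]; exact h4⟩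
    rw [← neg_add, h2]
    push_cast
    ring
  · have hs0 : 0 ≤ 4 - y ^ 2 := by nlinarith
    obtain ⟨s, hs, hss⟩ : ∃ s : ℝ, 0 ≤ s ∧ s * s = 4 - y ^ 2 :=
      ⟨√(4 - y ^ 2), Real.sqrt_nonneg _, Real.mul_self_sqrt hs0⟩
    have hn : ∀ t : ℝ, t * t = 4 - y ^ 2 → ‖(⟨y / 2, t / 2⟩ : ℂ)‖ = 1 := by
      intro t ht
      rw [Complex.norm_eq_sqrt_sq_add_sq]
      rw [show (y / 2) ^ 2 + (t / 2) ^ 2 = 1 by nlinarith, Real.sqrt_one]
    refine ⟨⟨y / 2, s / 2⟩, ⟨y / 2, (-s) / 2⟩, ?_, ?_, ?_, ?_⟩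
    · apply Complex.ext
      · simp only [Complex.mul_re, Complex.one_re]
        nlinarith
      · simp only [Complex.mul_im, Complex.one_im]
        ring
    · apply Complex.ext
      · simp only [Complex.add_re, Complex.ofReal_re]
        ring
      · simp only [Complex.add_im, Complex.ofReal_im]
        ring
    · rw [hn s hss]
      exact hτ
    · rw [hn (-s) (by nlinarith)]

theorem UU_succ (y : ℝ) (z w : ℂ) (h1 : z * w = 1) (h2 : z + w = y) :
    ∀ j : ℕ, (UU y (j + 1) : ℂ) = w * UU y j + z ^ (j + 1)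
  | 0 => by
      simp only [UU, zero_add, pow_one, Complex.ofReal_one, mul_one]
      rw [← h2]
      ring
  | (j + 1) => by
      have ih := UU_succ y z w h1 h2 j
      have e : UU y (j + 1 + 1) = y * UU y (j + 1) - UU y j := rfl
      rw [e]
      push_cast
      rw [← h2]
      have : z ^ (j + 1) = (UU y (j + 1) : ℂ) - w * UU y j := by rw [ih]; ring
      rw [pow_succ z (j + 1), this]
      linear_combination (UU y j : ℂ) * h1

theorem UU_bound (y τ : ℝ) (hτ : 1 ≤ τ) (hy : |y| ≤ τ + 1 / τ) :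
    ∀ j : ℕ, |UU y j| ≤ ((j : ℝ) + 1) * τ ^ j := by
  obtain ⟨z, w, h1, h2, h3, h4⟩ := root y τ hτ hy
  intro j
  induction j with
  | zero => simp [UU]
  | succ j ih =>
      have e : |UU y (j + 1)| = ‖(UU y (j + 1) : ℂ)‖ := by
        rw [Complex.norm_real, Real.norm_eq_abs]
      rw [e, UU_succ y z w h1 h2 j]
      have hA : ‖w * (UU y j : ℂ)‖ ≤ |UU y j| := by
        rw [norm_mul, Complex.norm_real, Real.norm_eq_abs]
        exact mul_le_of_le_one_left (abs_nonneg _) h4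
      have hB : ‖z ^ (j + 1)‖ ≤ τ ^ (j + 1) := by
        rw [norm_pow]
        exact pow_le_pow_left₀ (norm_nonneg _) h3 _
      have hC : ((j : ℝ) + 1) * τ ^ j ≤ ((j : ℝ) + 1) * τ ^ (j + 1) := by
        apply mul_le_mul_of_nonneg_left _ (by positivity)
        exact pow_le_pow_right₀ hτ (Nat.le_succ j)
      calc ‖w * (UU y j : ℂ) + z ^ (j + 1)‖
          ≤ ‖w * (UU y j : ℂ)‖ + ‖z ^ (j + 1)‖ := norm_add_le _ _
        _ ≤ ((j : ℝ) + 1) * τ ^ (j + 1) + τ ^ (j + 1) := by linarith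
        _ = (((j + 1 : ℕ) : ℝ) + 1) * τ ^ (j + 1) := by push_cast; ring

/-- `√(k-1)^j nb k m j` in terms of the `U_j` -/
theorem nb_eq (k m r y : ℝ) (hk : 2 ≤ k) (hr : 0 < r) (hrr : r ^ 2 = k - 1)
    (hy : k * m = r * y) :
    ∀ j : ℕ, r ^ (j + 2) * nb k m (j + 2) = (k - 1) / k * UU y (j + 2) - 1 / k * UU y j
      ∧ r ^ (j + 1) * nb k m (j + 1) = (k - 1) / k * UU y (j + 1)
        - (if j = 0 then 0 else 1 / k * UU y (j - 1))
  | 0 => by
      have hk0 : k ≠ 0 := by linarith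
      have hk1 : k - 1 ≠ 0 := by intro h; linarith
      have hm : m = r * y / k := by
        rw [eq_div_iff hk0]
        linarith
      have hrn : r ≠ 0 := hr.ne'
      constructor
      · simp only [nb, UU, zero_add, mul_one]
        rw [hm, hrr]
        field_simp
        have : r ^ 2 = k - 1 := hrr
        nlinarith
      · simp only [nb, UU, zero_add, pow_one, if_true, sub_zero]
        rw [hm]
        field_simp
        rw [hrr]
        ring
  | (j + 1) => by
      have hk0 : k ≠ 0 := by linarith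
      have hk1 : k - 1 ≠ 0 := by intro h; linarith
      obtain ⟨ih1, ih2⟩ := nb_eq k m r y hk hr hrr hy j
      refine ⟨?_, ?_⟩
      · have e : nb k m (j + 1 + 2) = (k * m * nb k m (j + 2) - nb k m (j + 1)) / (k - 1) := rfl
        have e2 : r ^ (j + 1 + 2) * nb k m (j + 1 + 2)
            = y * (r ^ (j + 2) * nb k m (j + 2)) - r ^ (j + 1) * nb k m (j + 1) := by
          rw [e, hy]
          have : r ^ (j + 1 + 2) = r ^ (j + 1) * (k - 1) := by rw [pow_add, hrr]
          rw [this]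
          field_simp
          ring
        rw [e2, ih1, ih2]
        have e3 : UU y (j + 1 + 2) = y * UU y (j + 2) - UU y (j + 1) := rfl
        rw [e3]
        rcases Nat.eq_zero_or_pos j with hj | hj
        · subst hj
          simp only [if_true, UU]
          ring
        · obtain ⟨i, rfl⟩ : ∃ i, j = i + 1 := ⟨j - 1, by omega⟩
          have e4 : UU y (i + 1 + 1) = y * UU y (i + 1) - UU y i := rfl
          rw [if_neg (by omega), e4]
          simp only [Nat.add_sub_cancel]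
          ring
      · rw [if_neg (by omega)]
        exact ih1

end CHE_

open CHE_ in
theorem p_CHE : T_CHE := by
  intro k m τ j hk hτ h
  have hk0 : 0 < k := by linarith
  have hk1 : 0 < k - 1 := by linarith
  have hr : 0 < √(k - 1) := Real.sqrt_pos.mpr hk1
  have hrr : √(k - 1) ^ 2 = k - 1 := Real.sq_sqrt hk1.le
  obtain ⟨r, hrdef⟩ : ∃ r, r = √(k - 1) := ⟨_, rfl⟩
  rw [← hrdef] at h hr hrr ⊢
  obtain ⟨y, hydef⟩ : ∃ y, y = k * m / r := ⟨_, rfl⟩
  have hy : k * m = r * y := by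
    rw [hydef]
    field_simp
  have hyb : |y| ≤ τ + 1 / τ := by
    rw [hydef, abs_div, abs_mul, abs_of_pos hk0, abs_of_pos hr, div_le_iff₀ hr]
    linarith
  have hU := UU_bound y τ hτ hyb
  have hτ0 : 0 < τ := by linarith
  have key : r ^ j * |nb k m j| ≤ ((j : ℝ) + 1) * τ ^ j := by
    have e : r ^ j * |nb k m j| = |r ^ j * nb k m j| := by
      rw [abs_mul, abs_of_pos (pow_pos hr j)]
    rw [e]
    have hq : (k - 1) / k ≤ 1 := by
      rw [div_le_one hk0]
      linarith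
    have hq0 : 0 ≤ (k - 1) / k := by positivity
    match j with
    | 0 => simp [nb]
    | 1 =>
        have := (nb_eq k m r y hk hr hrr hy 0).2
        rw [zero_add, if_pos rfl, sub_zero] at this
        rw [this, abs_mul, abs_of_nonneg hq0]
        calc (k - 1) / k * |UU y 1| ≤ |UU y 1| := mul_le_of_le_one_left (abs_nonneg _) hq
          _ ≤ _ := hU 1
    | (i + 2) =>
        rw [(nb_eq k m r y hk hr hrr hy i).1]
        have h1 : |(k - 1) / k * UU y (i + 2)| ≤
            (k - 1) / k * ((((i + 2 : ℕ) : ℝ) + 1) * τ ^ (i + 2)) := by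
          rw [abs_mul, abs_of_nonneg hq0]
          exact mul_le_mul_of_nonneg_left (hU (i + 2)) hq0
        have hk' : 0 ≤ 1 / k := by positivity
        have h2 : |1 / k * UU y i| ≤ 1 / k * ((((i + 2 : ℕ) : ℝ) + 1) * τ ^ (i + 2)) := by
          rw [abs_mul, abs_of_nonneg hk']
          apply mul_le_mul_of_nonneg_left _ hk'
          refine le_trans (hU i) ?_
          apply mul_le_mul _ (pow_le_pow_right₀ hτ (by omega)) (by positivity) (by positivity)
          push_cast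
          linarith
        have h3 : (k - 1) / k * ((((i + 2 : ℕ) : ℝ) + 1) * τ ^ (i + 2))
            + 1 / k * ((((i + 2 : ℕ) : ℝ) + 1) * τ ^ (i + 2))
            = (((i + 2 : ℕ) : ℝ) + 1) * τ ^ (i + 2) := by
          field_simp
          ring
        calc |(k - 1) / k * UU y (i + 2) - 1 / k * UU y i|
            ≤ |(k - 1) / k * UU y (i + 2)| + |1 / k * UU y i| := abs_sub _ _
          _ ≤ _ := by linarith
  rw [div_pow, ← mul_div_assoc, le_div_iff₀ (pow_pos hr j), mul_comm]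
  exact key

end Pool.Agent.ACO
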