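import Pool.Agent.ACO.Targets

set_option autoImplicit false

/-!
# ACO: CNT, the number of tuples which are not simple
-/

namespace Pool.Agent.ACO

open Finset

namespace CNT_

theorem card_le {G : Type} [Fintype G] {d : ℕ} (i : Fin d) (A : (Fin d → G) → Prop) {X : Type}
    [Finite X] (φ : {s : Fin d → G // A s} → X)
    (h : ∀ s s' : {s : Fin d → G // A s}, φ s = φ s' → (∀ j, j ≠ i → s.1 j = s'.1 j) →
      s.1 i = s'.1 i) :
    Nat.card {s : Fin d → G // A s} * Fintype.card G ≤ Nat.card X * Fintype.card G ^ d := by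
  classical
  have inj : Function.Injective (fun q : {s : Fin d → G // A s} × G =>
      (φ q.1, Function.update q.1.1 i q.2)) := by
    rintro ⟨s, g⟩ ⟨s', g'⟩ e
    simp only [Prod.mk.injEq] at e
    obtain ⟨e1, e2⟩ := e
    have hg : g = g' := by
      have := congrFun e2 i
      simpa using this
    have hj : ∀ j, j ≠ i → s.1 j = s'.1 j := by
      intro j hj
      have := congrFun e2 j
      simpa [Function.update_of_ne hj] using this
    have hs : s = s' := by
      apply Subtype.ext
      funext j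
      by_cases hji : j = i
      · subst hji
        exact h s s' e1 hj
      · exact hj j hji
    rw [hs, hg]
  have h1 := Nat.card_le_card_of_injective _ inj
  rw [Nat.card_prod, Nat.card_prod] at h1
  have e1 : Nat.card G = Fintype.card G := Nat.card_eq_fintype_card
  have e2 : Nat.card (Fin d → G) = Fintype.card G ^ d := by
    rw [Nat.card_eq_fintype_card, Fintype.card_fun, Fintype.card_fin]
  rwa [e1, e2] at h1

end CNT_

open CNT_ in
/-- CNT -/
theorem p_CNT : T_CNT := by
  intro G _ _ d
  classical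
  have h0 : ∀ i : Fin d, Nat.card {s : Fin d → G // s i * s i = 1} * Fintype.card G ≤
      Nat.card {x : G // x * x = 1} * Fintype.card G ^ d := fun i =>
    card_le i (fun s : Fin d → G => s i * s i = 1)
      (fun s => (⟨s.1 i, s.2⟩ : {x : G // x * x = 1}))
      (fun s s' e _ => by simpa using congrArg Subtype.val e)
  have h1 : ∀ q : Fin d × Fin d, Nat.card {s : Fin d → G // q.1 ≠ q.2 ∧ s q.1 = s q.2} *
      Fintype.card G ≤ Fintype.card G ^ d := by
    intro q
    have := card_le q.1 (fun s : Fin d → G => q.1 ≠ q.2 ∧ s q.1 = s q.2) (fun _ => ())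
      (fun s s' _ hj => (s.2.2).trans ((hj q.2 s.2.1.symm).trans s'.2.2.symm))
    simpa using this
  have h2 : ∀ q : Fin d × Fin d, Nat.card {s : Fin d → G // q.1 ≠ q.2 ∧ s q.1 = (s q.2)⁻¹} *
      Fintype.card G ≤ Fintype.card G ^ d := by
    intro q
    have := card_le q.1 (fun s : Fin d → G => q.1 ≠ q.2 ∧ s q.1 = (s q.2)⁻¹) (fun _ => ())
      (fun s s' _ hj => (s.2.2).trans ((congrArg _ (hj q.2 s.2.1.symm)).trans s'.2.2.symm))
    simpa using this
  have hsub : (univ.filter fun s : Fin d → G => ¬ Simp s) ⊆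
      (univ.biUnion fun i => univ.filter fun s : Fin d → G => s i * s i = 1) ∪
      ((univ.biUnion fun q : Fin d × Fin d =>
          univ.filter fun s : Fin d → G => q.1 ≠ q.2 ∧ s q.1 = s q.2) ∪
        (univ.biUnion fun q : Fin d × Fin d =>
          univ.filter fun s : Fin d → G => q.1 ≠ q.2 ∧ s q.1 = (s q.2)⁻¹)) := by
    intro s hs
    simp only [mem_filter, mem_univ, true_and] at hs
    by_contra hc
    simp only [mem_union, mem_biUnion, mem_filter, mem_univ, true_and, not_or, not_exists] at hc
    obtain ⟨c1, c2, c3⟩ := hc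
    exact hs ⟨fun i hi => c1 i (by rw [hi, one_mul]),
      fun i hi => c1 i (mul_eq_one_iff_eq_inv.2 hi),
      fun i j hij => ⟨fun h => c2 (i, j) ⟨hij, h⟩, fun h => c3 (i, j) ⟨hij, h⟩⟩⟩
  have hcard : Nat.card {s : Fin d → G // ¬ Simp s} ≤
      ∑ i : Fin d, Nat.card {s : Fin d → G // s i * s i = 1} +
      (∑ q : Fin d × Fin d, Nat.card {s : Fin d → G // q.1 ≠ q.2 ∧ s q.1 = s q.2} +
        ∑ q : Fin d × Fin d, Nat.card {s : Fin d → G // q.1 ≠ q.2 ∧ s q.1 = (s q.2)⁻¹}) := by
    simp only [Nat.card_eq_fintype_card, Fintype.card_subtype]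
    refine (card_le_card hsub).trans ((card_union_le _ _).trans (add_le_add card_biUnion_le
      ((card_union_le _ _).trans (add_le_add card_biUnion_le card_biUnion_le))))
  have hmain : Nat.card {s : Fin d → G // ¬ Simp s} * Fintype.card G ≤
      (d * Nat.card {x : G // x * x = 1} + 2 * d ^ 2) * Fintype.card G ^ d := by
    calc Nat.card {s : Fin d → G // ¬ Simp s} * Fintype.card G
        ≤ (∑ i : Fin d, Nat.card {s : Fin d → G // s i * s i = 1} +
          (∑ q : Fin d × Fin d, Nat.card {s : Fin d → G // q.1 ≠ q.2 ∧ s q.1 = s q.2} +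
          ∑ q : Fin d × Fin d, Nat.card {s : Fin d → G // q.1 ≠ q.2 ∧ s q.1 = (s q.2)⁻¹})) *
          Fintype.card G := Nat.mul_le_mul_right _ hcard
      _ = ∑ i : Fin d, Nat.card {s : Fin d → G // s i * s i = 1} * Fintype.card G +
          (∑ q : Fin d × Fin d, Nat.card {s : Fin d → G // q.1 ≠ q.2 ∧ s q.1 = s q.2} *
            Fintype.card G +
          ∑ q : Fin d × Fin d, Nat.card {s : Fin d → G // q.1 ≠ q.2 ∧ s q.1 = (s q.2)⁻¹} *
            Fintype.card G) := by
          rw [add_mul, add_mul, sum_mul, sum_mul, sum_mul]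
      _ ≤ ∑ _i : Fin d, Nat.card {x : G // x * x = 1} * Fintype.card G ^ d +
          (∑ _q : Fin d × Fin d, Fintype.card G ^ d + ∑ _q : Fin d × Fin d, Fintype.card G ^ d) :=
          add_le_add (sum_le_sum fun i _ => h0 i)
            (add_le_add (sum_le_sum fun q _ => h1 q) (sum_le_sum fun q _ => h2 q))
      _ = _ := by
          simp only [sum_const, card_univ, Fintype.card_prod, Fintype.card_fin, smul_eq_mul]
          ring
  exact_mod_cast hmain

end Pool.Agent.ACO
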