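import Pool.Agent.ACO.Targets

set_option autoImplicit false

/-! CON: a norm smaller than one implies that the Cayley graph is connected. -/

namespace Pool.Agent.ACO

open Finset

namespace CON_

variable {G : Type} [Group G] [Fintype G] {d : ℕ}

theorem mulVec_M (s : Fin d → G) (f : G → ℝ) (x : G) :
    (M s).mulVec f x = (∑ i, (f (x * s i) + f (x * (s i)⁻¹))) / (2 * d) := by
  classical
  unfold Matrix.mulVec dotProduct M
  simp only [Matrix.of_apply, div_mul_eq_mul_div, Finset.sum_mul, add_mul, ite_mul, one_mul,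
    zero_mul]
  rw [← Finset.sum_div, Finset.sum_comm]
  congr 1
  refine Finset.sum_congr rfl fun i _ => ?_
  rw [Finset.sum_add_distrib, Finset.sum_ite_eq', Finset.sum_ite_eq']
  simp

theorem reach_mul (s : Fin d → G) (x : G) (i : Fin d) : (cay s).Reachable x (x * s i) := by
  by_cases h : x = x * s i
  · rw [← h]
  · exact SimpleGraph.Adj.reachable (G := cay s) ⟨h, i, Or.inl rfl⟩

theorem reach_inv (s : Fin d → G) (x : G) (i : Fin d) : (cay s).Reachable x (x * (s i)⁻¹) := by
  by_cases h : x = x * (s i)⁻¹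
  · rw [← h]
  · exact SimpleGraph.Adj.reachable (G := cay s) ⟨h, i, Or.inr rfl⟩

end CON_

theorem p_CON : T_CON := by
  intro G _ _ d s ρ hd hρ0 hρ1 hN
  classical
  rw [SimpleGraph.connected_iff_exists_forall_reachable]
  refine ⟨1, ?_⟩
  by_contra hno
  push Not at hno
  obtain ⟨y, hy⟩ := hno
  have hd' : (d : ℝ) ≠ 0 := by
    have : (1 : ℝ) ≤ d := by exact_mod_cast hd
    positivity
  have hn : 0 < (Fintype.card G : ℝ) := by exact_mod_cast Fintype.card_pos
  set c : ℝ := (∑ x : G, if (cay s).Reachable 1 x then (1 : ℝ) else 0) / Fintype.card G with hc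
  set f : G → ℝ := fun x => (if (cay s).Reachable 1 x then (1 : ℝ) else 0) - c with hf
  have h0 : ∑ x, f x = 0 := by
    rw [hf]
    rw [Finset.sum_sub_distrib, Finset.sum_const, Finset.card_univ, nsmul_eq_mul, hc]
    field_simp
    ring
  have h1 : ∀ x i, f (x * s i) = f x := by
    intro x i
    have h2 : (cay s).Reachable 1 (x * s i) ↔ (cay s).Reachable 1 x :=
      ⟨fun h => h.trans (CON_.reach_mul s x i).symm, fun h => h.trans (CON_.reach_mul s x i)⟩
    simp only [hf, h2]
  have h2 : ∀ x i, f (x * (s i)⁻¹) = f x := by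
    intro x i
    have h2 : (cay s).Reachable 1 (x * (s i)⁻¹) ↔ (cay s).Reachable 1 x :=
      ⟨fun h => h.trans (CON_.reach_inv s x i).symm, fun h => h.trans (CON_.reach_inv s x i)⟩
    simp only [hf, h2]
  have h3 : ∀ x, (M s).mulVec f x = f x := by
    intro x
    rw [CON_.mulVec_M]
    simp only [h1, h2, Finset.sum_const, Finset.card_univ, Fintype.card_fin, nsmul_eq_mul]
    field_simp
    ring
  have h4 := hN f h0
  simp only [h3] at h4
  have h5 : f 1 ≠ f y := by
    simp only [hf]
    rw [if_pos (SimpleGraph.Reachable.refl _), if_neg hy]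
    intro h
    linarith
  have h6 : 0 < ∑ x, f x ^ 2 := by
    refine lt_of_le_of_ne (Finset.sum_nonneg fun x _ => sq_nonneg _) fun h => h5 ?_
    have h7 := (Finset.sum_eq_zero_iff_of_nonneg fun x _ => sq_nonneg (f x)).1 h.symm
    have h8 : f 1 = 0 := by simpa using h7 1 (Finset.mem_univ _)
    have h9 : f y = 0 := by simpa using h7 y (Finset.mem_univ _)
    rw [h8, h9]
  have h10 : ρ ^ 2 < 1 := by nlinarith
  nlinarith

end Pool.Agent.ACO
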