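import Pool.Agent.ACO.Targets

set_option autoImplicit false

/-! # ACO: the lazy walk on the Cayley graph (target LZ) -/

namespace Pool.Agent.ACO

open Finset Classical
open Pool.Agent.VAC (lazyP)

namespace LZ_

variable {G : Type} [Group G] {d : ℕ}

/-- the `2 d` generators -/
def g (s : Fin d → G) : Fin d ⊕ Fin d → G := Sum.elim s (fun i => (s i)⁻¹)

lemma g_inj {s : Fin d → G} (hs : Simp s) : Function.Injective (g s) := by
  obtain ⟨-, h2, h3⟩ := hs
  rintro (i | i) (j | j) h
  · by_contra hij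
    exact (h3 i j (fun h0 => hij (by rw [h0]))).1 h
  · by_cases hij : i = j
    · subst hij
      exact absurd h (h2 i)
    · exact absurd h (h3 i j hij).2
  · by_cases hij : j = i
    · subst hij
      exact absurd h.symm (h2 j)
    · exact absurd h.symm (h3 j i hij).2
  · by_contra hij
    exact (h3 i j (fun h0 => hij (by rw [h0]))).1 (inv_injective h)

lemma g_ne {s : Fin d → G} (hs : Simp s) (j : Fin d ⊕ Fin d) : g s j ≠ 1 := by
  rcases j with i | i
  · exact hs.1 i
  · exact inv_ne_one.2 (hs.1 i)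

lemma adj_iff {s : Fin d → G} (hs : Simp s) (x y : G) :
    (cay s).Adj x y ↔ ∃ j, y = x * g s j := by
  constructor
  · rintro ⟨-, i, h | h⟩
    · exact ⟨Sum.inl i, h⟩
    · exact ⟨Sum.inr i, h⟩
  · rintro ⟨j, h⟩
    refine ⟨fun h0 => ?_, ?_⟩
    · rw [← h0] at h
      exact g_ne hs j (left_eq_mul.1 h)
    · rcases j with i | i
      · exact ⟨i, Or.inl h⟩
      · exact ⟨i, Or.inr h⟩

lemma ind {s : Fin d → G} (hs : Simp s) (x y : G) :
    ∑ i, ((if y = x * s i then (1 : ℝ) else 0) + (if y = x * (s i)⁻¹ then 1 else 0)) =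
      if (cay s).Adj x y then 1 else 0 := by
  have h1 : ∑ i, ((if y = x * s i then (1 : ℝ) else 0) + (if y = x * (s i)⁻¹ then 1 else 0)) =
      ∑ j, if y = x * g s j then (1 : ℝ) else 0 := by
    rw [Fintype.sum_sum_type, sum_add_distrib]
    rfl
  rw [h1]
  by_cases h : (cay s).Adj x y
  · rw [if_pos h]
    obtain ⟨j, hj⟩ := (adj_iff hs x y).1 h
    rw [sum_eq_single j]
    · rw [if_pos hj]
    · intro k _ hk
      rw [if_neg]
      intro hk2
      exact hk (g_inj hs (mul_left_cancel (hk2.symm.trans hj)))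
    · intro hk
      exact absurd (mem_univ j) hk
  · rw [if_neg h]
    refine sum_eq_zero fun j _ => if_neg fun hj => h ((adj_iff hs x y).2 ⟨j, hj⟩)

lemma reg [Fintype G] {s : Fin d → G} (hs : Simp s) : (cay s).IsRegularOfDegree (2 * d) := by
  intro x
  rw [← SimpleGraph.card_neighborFinset_eq_degree]
  have h : (cay s).neighborFinset x = (univ : Finset (Fin d ⊕ Fin d)).image
      (fun j => x * g s j) := by
    ext y
    rw [SimpleGraph.mem_neighborFinset, adj_iff hs, mem_image]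
    exact ⟨fun ⟨j, hj⟩ => ⟨j, mem_univ j, hj.symm⟩, fun ⟨j, _, hj⟩ => ⟨j, hj.symm⟩⟩
  rw [h, card_image_of_injective]
  · rw [card_univ, Fintype.card_sum, Fintype.card_fin]
    ring
  · intro j k hjk
    exact g_inj hs (mul_left_cancel hjk)

/-- left translations -/
def tr (s : Fin d → G) (c : G) : cay s ≃g cay s where
  toEquiv := Equiv.mulLeft c
  map_rel_iff' := by
    intro x y
    show (c * x ≠ c * y ∧ ∃ i, c * y = c * x * s i ∨ c * y = c * x * (s i)⁻¹) ↔
      (x ≠ y ∧ ∃ i, y = x * s i ∨ y = x * (s i)⁻¹)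
    simp only [mul_assoc, mul_right_inj, ne_eq]

lemma trans (s : Fin d → G) (x y : G) : ∃ φ : cay s ≃g cay s, φ x = y := by
  refine ⟨tr s (y * x⁻¹), ?_⟩
  show y * x⁻¹ * x = y
  group

lemma LP_eq [Fintype G] {s : Fin d → G} (hd : 1 ≤ d) (hs : Simp s) :
    LP s = (1 / 2 : ℝ) • (M s + 1) := by
  have hd0 : (d : ℝ) ≠ 0 := by
    have : (1 : ℝ) ≤ d := by exact_mod_cast hd
    linarith
  ext x y
  have hM : M s x y = (if (cay s).Adj x y then 1 else 0) / (2 * d) := by
    rw [← ind hs x y]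
    rfl
  have hdeg : (((cay s).degree x : ℕ) : ℝ) = 2 * d := by
    rw [reg hs x]
    push_cast
    ring
  rw [Matrix.smul_apply, Matrix.add_apply, hM, Matrix.one_apply, smul_eq_mul]
  unfold LP lazyP
  rw [Matrix.of_apply, hdeg]
  by_cases h1 : x = y
  · by_cases h2 : (cay s).Adj x y
    · rw [if_pos h1, if_pos h2, if_pos h2, if_pos h1]
      field_simp
      ring
    · rw [if_pos h1, if_neg h2, if_neg h2, if_pos h1]
      ring
  · by_cases h2 : (cay s).Adj x y
    · rw [if_neg h1, if_pos h2, if_pos h2, if_neg h1]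
      field_simp
      ring
    · rw [if_neg h1, if_neg h2, if_neg h2, if_neg h1]
      ring

lemma pow_eq [Fintype G] {s : Fin d → G} (hd : 1 ≤ d) (hs : Simp s) (t : ℕ) (x y : G) :
    (LP s ^ t) x y = ∑ m ∈ range (t + 1), (t.choose m : ℝ) / 2 ^ t * (M s ^ m) x y := by
  rw [LP_eq hd hs, smul_pow, (Commute.one_right (M s)).add_pow t, Matrix.smul_apply,
    Matrix.sum_apply, smul_eq_mul, mul_sum]
  refine sum_congr rfl fun m _ => ?_
  rw [← nsmul_eq_mul', one_pow, mul_one, Matrix.smul_apply, nsmul_eq_mul, div_pow, one_pow]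
  ring

end LZ_

/-- LZ. -/
theorem p_LZ : T_LZ := by
  intro G _ _ d s hd hs
  exact ⟨LZ_.reg hs, LZ_.trans s, LZ_.pow_eq hd hs⟩


end Pool.Agent.ACO
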