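import Pool.Agent.ACO.TargetsN
import Pool.Agent.ACO.P_LZ

set_option autoImplicit false

/-! # ACO: decomposition of the lazy walk by the length of the reduced word (target DEC) -/

namespace Pool.Agent.ACO

open Finset Classical
open Pool.Agent.VAC (lazyP)

namespace DEC_

variable {G : Type} [Group G] [Fintype G] {d : ℕ}

lemma step (s : Fin d → G) (hd : 1 ≤ d) (x y : G) (j : ℕ) :
    Lf (2 * d) (fun j => NB s j x y) j = (((1 / 2 : ℝ) • (M s + 1)) * NB s j) x y := by
  have hd1 : (1 : ℝ) ≤ d := by exact_mod_cast hd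
  have hk : (2 * (d : ℝ) - 1) ≠ 0 := by linarith
  have hk0 : (2 * (d : ℝ)) ≠ 0 := by linarith
  have e0 : (((1 / 2 : ℝ) • (M s + 1)) * NB s j) x y =
      (1 / 2 : ℝ) * ((M s * NB s j) x y + NB s j x y) := by
    rw [Matrix.smul_mul, Matrix.smul_apply, Matrix.add_mul, Matrix.add_apply, Matrix.one_mul,
      smul_eq_mul]
  rw [e0]
  rcases j with _ | j
  · show (NB s 0 x y + NB s 1 x y) / 2 = _
    have e1 : (M s * NB s 0) x y = NB s 1 x y := by
      show (M s * (1 : Matrix G G ℝ)) x y = M s x y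
      rw [Matrix.mul_one]
    rw [e1]
    ring
  · show NB s (j + 1) x y / 2 + ((2 * (d : ℝ) - 1) * NB s (j + 2) x y + NB s j x y) /
      (2 * (2 * (d : ℝ))) = _
    have e1 : NB s (j + 2) x y = (1 / (2 * (d : ℝ) - 1)) *
        ((2 * (d : ℝ)) * (M s * NB s (j + 1)) x y - NB s j x y) := by
      show ((1 / (2 * (d : ℝ) - 1)) • ((2 * (d : ℝ)) • (M s * NB s (j + 1)) - NB s j)) x y = _
      rw [Matrix.smul_apply, Matrix.sub_apply, Matrix.smul_apply, smul_eq_mul, smul_eq_mul]
    rw [e1]
    field_simp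
    ring

lemma ev_sum (h : T_EVL) {k : ℝ} (hk : 2 ≤ k) (t : ℕ) (S : Finset G) (c : G → ℝ)
    (F : G → ℕ → ℝ) :
    ev k t (fun j => ∑ z ∈ S, c z * F z j) = ∑ z ∈ S, c z * ev k t (F z) := by
  induction S using Finset.induction_on with
  | empty => simpa using (h k t hk).2.2.1 0
  | insert a S ha ih =>
    rw [sum_insert ha, ← ih]
    have := (h k t hk).2.1 (F a) (fun j => ∑ z ∈ S, c z * F z j) (c a) 1
    rw [one_mul] at this
    rw [← this]
    congr 1
    funext j
    rw [sum_insert ha, one_mul]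

end DEC_

open DEC_ in
/-- DEC. -/
theorem p_DEC (h : T_EVL) : T_DEC := by
  intro G _ _ d s hd hs t
  have hd1 : (1 : ℝ) ≤ d := by exact_mod_cast hd
  have hk : (2 : ℝ) ≤ 2 * (d : ℝ) := by linarith
  induction t with
  | zero =>
    intro x y
    rw [pow_zero]
    rfl
  | succ t ih =>
    intro x y
    rw [pow_succ', Matrix.mul_apply]
    show _ = ev (2 * d) t (Lf (2 * d) (fun j => NB s j x y))
    have e1 : Lf (2 * d) (fun j => NB s j x y) =
        fun j => ∑ z, LP s x z * (fun j => NB s j z y) j := by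
      funext j
      rw [step s hd x y j, ← LZ_.LP_eq hd hs, Matrix.mul_apply]
    rw [e1, ev_sum h hk t univ (fun z => LP s x z) (fun z j => NB s j z y)]
    exact sum_congr rfl fun z _ => by rw [ih z y]

end Pool.Agent.ACO
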