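import Pool.Agent.ACO.TargetsN

set_option autoImplicit false

/-!
# ACO: the length of the reduced word: monotone, linear, normalised, variance at most `t`
-/

namespace Pool.Agent.ACO

namespace EVL_

theorem lf_mono {k : ℝ} (hk : 2 ≤ k) {φ ψ : ℕ → ℝ} (h : ∀ j, φ j ≤ ψ j) (j : ℕ) :
    Lf k φ j ≤ Lf k ψ j := by
  cases j with
  | zero =>
    simp only [Lf]
    linarith [h 0, h 1]
  | succ j =>
    simp only [Lf]
    have h1 : (k - 1) * φ (j + 2) ≤ (k - 1) * ψ (j + 2) :=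
      mul_le_mul_of_nonneg_left (h _) (by linarith)
    have h2 : ((k - 1) * φ (j + 2) + φ j) / (2 * k) ≤ ((k - 1) * ψ (j + 2) + ψ j) / (2 * k) :=
      div_le_div_of_nonneg_right (by linarith [h j]) (by linarith)
    linarith [h (j + 1)]

theorem lf_lin (k : ℝ) (φ ψ : ℕ → ℝ) (a b : ℝ) :
    Lf k (fun j => a * φ j + b * ψ j) = fun j => a * Lf k φ j + b * Lf k ψ j := by
  funext j
  cases j with
  | zero => simp only [Lf]; ring
  | succ j => simp only [Lf]; ring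

theorem lf_const {k : ℝ} (hk : 2 ≤ k) (c : ℝ) : Lf k (fun _ => c) = fun _ => c := by
  have h0 : k ≠ 0 := by linarith
  funext j
  cases j with
  | zero => simp only [Lf]; ring
  | succ j => simp only [Lf]; field_simp; ring

theorem ev_mono {k : ℝ} (hk : 2 ≤ k) (t : ℕ) : ∀ φ ψ : ℕ → ℝ, (∀ j, φ j ≤ ψ j) →
    ev k t φ ≤ ev k t ψ := by
  induction t with
  | zero => intro φ ψ h; exact h 0
  | succ t ih => intro φ ψ h; exact ih _ _ (lf_mono hk h)

theorem ev_lin (k : ℝ) (t : ℕ) : ∀ (φ ψ : ℕ → ℝ) (a b : ℝ),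
    ev k t (fun j => a * φ j + b * ψ j) = a * ev k t φ + b * ev k t ψ := by
  induction t with
  | zero => intro φ ψ a b; rfl
  | succ t ih =>
    intro φ ψ a b
    change ev k t (Lf k (fun j => a * φ j + b * ψ j)) = _
    rw [lf_lin, ih]
    rfl

theorem ev_const {k : ℝ} (hk : 2 ≤ k) (t : ℕ) (c : ℝ) : ev k t (fun _ => c) = c := by
  induction t with
  | zero => rfl
  | succ t ih =>
    change ev k t (Lf k (fun _ => c)) = c
    rw [lf_const hk, ih]

theorem key {k : ℝ} (hk : 2 ≤ k) (y : ℝ) :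
    y ^ 2 / 2 + ((k - 1) * (y + 1) ^ 2 + (y - 1) ^ 2) / (2 * k) =
      (y + (k - 2) / (2 * k)) ^ 2 - ((k - 2) / (2 * k)) ^ 2 + 1 / 2 := by
  have h0 : k ≠ 0 := by linarith
  field_simp
  ring

theorem step {k : ℝ} (hk : 2 ≤ k) (t : ℕ) (j : ℕ) :
    Lf k (fun j => ((j : ℝ) - (k - 2) / (2 * k) * ((t + 1 : ℕ) : ℝ)) ^ 2) j ≤
      1 * ((j : ℝ) - (k - 2) / (2 * k) * t) ^ 2 + 1 * 1 := by
  have hc0 : 0 ≤ (k - 2) / (2 * k) := div_nonneg (by linarith) (by linarith)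
  have hc1 : (k - 2) / (2 * k) ≤ 1 / 2 := by
    rw [div_le_div_iff₀ (by linarith) (by norm_num)]
    linarith
  cases j with
  | zero =>
    simp only [Lf]
    set c := (k - 2) / (2 * k) with hc
    have ht : (0 : ℝ) ≤ t := Nat.cast_nonneg t
    push_cast
    have h1 : c * c ≤ c * (1 / 2) := mul_le_mul_of_nonneg_left hc1 hc0
    have h2 : c * c * (2 * t + 1) ≤ c * (1 / 2) * (2 * t + 1) :=
      mul_le_mul_of_nonneg_right h1 (by linarith)
    nlinarith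
  | succ j =>
    simp only [Lf]
    have e := key hk (((j + 1 : ℕ) : ℝ) - (k - 2) / (2 * k) * ((t + 1 : ℕ) : ℝ))
    set c := (k - 2) / (2 * k) with hc
    have e1 : (((j + 2 : ℕ) : ℝ) - c * ((t + 1 : ℕ) : ℝ)) =
        ((j + 1 : ℕ) : ℝ) - c * ((t + 1 : ℕ) : ℝ) + 1 := by push_cast; ring
    have e2 : ((j : ℝ) - c * ((t + 1 : ℕ) : ℝ)) =
        ((j + 1 : ℕ) : ℝ) - c * ((t + 1 : ℕ) : ℝ) - 1 := by push_cast; ring
    rw [e1, e2, e]
    have e3 : ((j + 1 : ℕ) : ℝ) - c * ((t + 1 : ℕ) : ℝ) + c =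
        ((j + 1 : ℕ) : ℝ) - c * (t : ℝ) := by push_cast; ring
    rw [e3]
    nlinarith [sq_nonneg c]

theorem ev_var {k : ℝ} (hk : 2 ≤ k) (t : ℕ) :
    ev k t (fun j => ((j : ℝ) - (k - 2) / (2 * k) * t) ^ 2) ≤ t := by
  induction t with
  | zero => simp [ev]
  | succ t ih =>
    change ev k t (Lf k (fun j => ((j : ℝ) - (k - 2) / (2 * k) * ((t + 1 : ℕ) : ℝ)) ^ 2)) ≤ _
    refine (ev_mono hk t _ _ (step hk t)).trans ?_
    rw [ev_lin k t (fun j : ℕ => ((j : ℝ) - (k - 2) / (2 * k) * t) ^ 2) (fun _ => (1 : ℝ)),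
      ev_const hk]
    push_cast
    linarith

end EVL_

theorem p_EVL : T_EVL := fun k t hk =>
  ⟨EVL_.ev_mono hk t, EVL_.ev_lin k t, EVL_.ev_const hk t, EVL_.ev_var hk t⟩

end Pool.Agent.ACO
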