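import Pool.Agent.ACO.Targets

set_option autoImplicit false

/-!
# ACO, target FIN: the final theorem for one pair `p, d`
-/

namespace Pool.Agent.ACO

open Finset
open Pool.Agent.VAC (lazyP tvDist tmix)
open Pool.Agent.RCG (PSL NormLe SL)

namespace FIN_

theorem center_le (p : ℕ) [Fact p.Prime] :
    Nat.card (Subgroup.center (Matrix.SpecialLinearGroup (Fin 2) (ZMod p))) ≤ 2 := by
  classical
  have h1 : Nat.card ({1, -1} : Finset (ZMod p)) ≤ 2 := by
    rw [Nat.card_eq_fintype_card, Fintype.card_coe]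
    exact card_le_two
  refine (Nat.card_le_card_of_injective
    (fun z : Subgroup.center (Matrix.SpecialLinearGroup (Fin 2) (ZMod p)) =>
      (⟨(z : Matrix.SpecialLinearGroup (Fin 2) (ZMod p)).1 0 0, ?_⟩ :
        ({1, -1} : Finset (ZMod p)))) ?_).trans h1
  · obtain ⟨r, h2, h3⟩ := Matrix.SpecialLinearGroup.mem_center_iff.1 z.2
    rw [← h3]
    have h4 : (r - 1) * (r + 1) = 0 := by
      have : r ^ 2 = 1 := by simpa using h2
      linear_combination this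
    have h5 : r = 1 ∨ r = -1 := by
      rcases mul_eq_zero.1 h4 with h | h
      · exact Or.inl (sub_eq_zero.1 h)
      · exact Or.inr (eq_neg_of_add_eq_zero_left h)
    have h6 : Matrix.scalar (Fin 2) r 0 0 = r := by simp
    rw [h6]
    simpa using h5
  · intro z w hzw
    obtain ⟨r, -, h3⟩ := Matrix.SpecialLinearGroup.mem_center_iff.1 z.2
    obtain ⟨t, -, h4⟩ := Matrix.SpecialLinearGroup.mem_center_iff.1 w.2
    have h5 : (z : Matrix.SpecialLinearGroup (Fin 2) (ZMod p)).1 0 0 =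
        (w : Matrix.SpecialLinearGroup (Fin 2) (ZMod p)).1 0 0 := congrArg Subtype.val hzw
    rw [← h3, ← h4] at h5
    have h6 : r = t := by simpa using h5
    apply Subtype.ext
    apply Subtype.ext
    rw [← h3, ← h4, h6]

theorem card_psl (p : ℕ) [Fact p.Prime] : (p : ℝ) ^ 3 / 4 ≤ (Nat.card (PSL p) : ℝ) := by
  have h1 := Subgroup.card_eq_card_quotient_mul_card_subgroup
    (Subgroup.center (Matrix.SpecialLinearGroup (Fin 2) (ZMod p)))
  have h2 : p ^ 2 * (p - 1) ≤ Nat.card (Matrix.SpecialLinearGroup (Fin 2) (ZMod p)) := by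
    rw [Nat.card_eq_fintype_card]
    exact Pool.Agent.AlmRam.le_card_sl
  have h3 : p ^ 2 * (p - 1) ≤ Nat.card (PSL p) * 2 := by
    refine (h2.trans h1.le).trans ?_
    exact Nat.mul_le_mul_left _ (center_le p)
  have hp : 2 ≤ p := (Fact.out : p.Prime).two_le
  have h4 : (p : ℝ) ^ 2 * (p - 1) ≤ Nat.card (PSL p) * 2 := by
    have h5 : ((p ^ 2 * (p - 1) : ℕ) : ℝ) ≤ ((Nat.card (PSL p) * 2 : ℕ) : ℝ) := by
      exact_mod_cast h3
    push_cast [Nat.cast_sub (by omega : 1 ≤ p)] at h5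
    exact h5
  have hp' : (2 : ℝ) ≤ p := by exact_mod_cast hp
  nlinarith [sq_nonneg (p : ℝ), mul_nonneg (sq_nonneg (p : ℝ)) (by linarith : (0 : ℝ) ≤ p - 2)]

end FIN_

open FIN_ in
theorem p_FIN (hTM : T_TM) (hCNT : T_CNT) (hINV : T_INV) (hNL : T_NL) (hCON : T_CON)
    (hLZ : T_LZ) : T_FIN := by
  classical
  intro η h0 h1
  obtain ⟨R0, hR0⟩ := hTM η h0 h1
  refine ⟨max 1 R0, 5, lt_of_lt_of_le one_pos (le_max_left _ _), ?_⟩
  intro p d B b hp hP hd hR hB1 hB2 hcard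
  have : Fact p.Prime := ⟨hp⟩
  have iF : Fintype (PSL p) := Fintype.ofFinite _
  have hp5 : 5 ≤ p := by exact_mod_cast hP
  have hp0 : (0 : ℝ) < p := by exact_mod_cast hp.pos
  have hd1 : 1 ≤ d := by omega
  have hd2 : (2 : ℝ) ≤ d := by exact_mod_cast hd
  have hN3 := card_psl p
  set N : ℝ := (Nat.card (PSL p) : ℝ) with hN
  have hNc : (Fintype.card (PSL p) : ℝ) = N := by rw [hN, Nat.card_eq_fintype_card]
  have hpN : (p : ℝ) ≤ N := by
    refine le_trans ?_ hN3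
    have hP' : (5 : ℝ) ≤ p := hP
    nlinarith [sq_nonneg (p : ℝ), mul_nonneg (by linarith : (0 : ℝ) ≤ (p : ℝ) - 2)
      (by linarith : (0 : ℝ) ≤ (p : ℝ)),
      mul_nonneg (mul_nonneg (by linarith : (0 : ℝ) ≤ (p : ℝ) - 2)
      (by linarith : (0 : ℝ) ≤ (p : ℝ))) (by linarith : (0 : ℝ) ≤ (p : ℝ) + 2)]
  have hNpos : 0 < N := lt_of_lt_of_le hp0 hpN
  have h2d : (0 : ℝ) < 2 * d := by linarith
  have hB0 : 0 < B := lt_of_lt_of_le (Real.sqrt_pos.2 h2d) hB1
  have hlog : 0 < Real.log (2 * (d : ℝ)) := Real.log_pos (by linarith)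
  have hρ0 : 0 < B / (2 * (d : ℝ)) := div_pos hB0 h2d
  have hρ1 : B / (2 * (d : ℝ)) < 1 := (div_lt_one h2d).2 hB2
  have hρ2 : 1 / √(2 * (d : ℝ)) ≤ B / (2 * (d : ℝ)) := by
    rw [div_le_div_iff₀ (Real.sqrt_pos.2 h2d) h2d, one_mul]
    calc 2 * (d : ℝ) = √(2 * (d : ℝ)) * √(2 * (d : ℝ)) := (Real.mul_self_sqrt h2d.le).symm
      _ ≤ B * √(2 * (d : ℝ)) := mul_le_mul_of_nonneg_right hB1 (Real.sqrt_nonneg _)
  have hR' : R0 ≤ 2 * Real.log N / Real.log (2 * d) := by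
    rw [le_div_iff₀ hlog]
    have e1 : Real.log p ≤ Real.log N := Real.log_le_log hp0 hpN
    have e2 : R0 * Real.log (2 * d) ≤ max 1 R0 * Real.log (2 * d) :=
      mul_le_mul_of_nonneg_right (le_max_right _ _) hlog.le
    have e3 : 0 < max 1 R0 * Real.log (2 * d) :=
      mul_pos (lt_of_lt_of_le one_pos (le_max_left _ _)) hlog
    linarith
  -- the good tuples
  have hgood : ∀ s : Fin d → PSL p, NormLe s B ∧ Simp s →
      (NormLe s B ∧ ∃ _ : Fintype (PSL p), Nice s ∧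
        ∀ ε : ℝ, η ≤ ε → ε ≤ 1 - η →
          (1 - η) * (2 * Real.log N / Real.log (2 * d)) ≤ (tm s ε : ℝ) ∧
          (tm s ε : ℝ) ≤ (1 + η) * (Real.log N / Real.log (2 * d / B))) := by
    rintro s ⟨hs, hS⟩
    have hn : Nrm s (B / (2 * d)) := hNL (PSL p) d s B hd1 hs
    refine ⟨hs, iF, ⟨hCON (PSL p) d s (B / (2 * d)) hd1 hρ0.le hρ1 hn, ?_, ?_⟩, ?_⟩
    · exact (hLZ (PSL p) d s hd1 hS).1
    · exact (hLZ (PSL p) d s hd1 hS).2.1
    · intro ε e1 e2
      have h3 := hR0 (PSL p) d s (B / (2 * d)) hd1 hS hρ2 hρ1 hn (by rw [hNc]; exact hR') ε e1 e2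
      rw [hNc, one_div_div] at h3
      exact h3
  -- counting
  have hle1 : Nat.card {s : Fin d → PSL p // NormLe s B ∧ Simp s} ≤
      Nat.card {s : Fin d → PSL p // NormLe s B ∧ ∃ _ : Fintype (PSL p), Nice s ∧
        ∀ ε : ℝ, η ≤ ε → ε ≤ 1 - η →
          (1 - η) * (2 * Real.log N / Real.log (2 * d)) ≤ (tm s ε : ℝ) ∧
          (tm s ε : ℝ) ≤ (1 + η) * (Real.log N / Real.log (2 * d / B))} :=
    Nat.card_le_card_of_injective (fun s => ⟨s.1, hgood s.1 s.2⟩) (by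
      intro s t hst
      have h := congrArg Subtype.val hst
      exact Subtype.ext h)
  have hle2 : Nat.card {s : Fin d → PSL p // NormLe s B} ≤
      Nat.card {s : Fin d → PSL p // NormLe s B ∧ Simp s} +
        Nat.card {s : Fin d → PSL p // ¬ Simp s} := by
    rw [← Nat.card_sum]
    refine Nat.card_le_card_of_injective (fun s => if h : Simp s.1 then
      Sum.inl ⟨s.1, s.2, h⟩ else Sum.inr ⟨s.1, h⟩) ?_
    intro s t hst
    apply Subtype.ext
    by_cases h3 : Simp s.1 <;> by_cases h4 : Simp t.1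
    · simp only [h3, h4, dif_pos, Sum.inl.injEq, Subtype.mk.injEq] at hst
      exact hst
    · simp only [h3, h4, dif_pos, dif_neg, not_false_eq_true, reduceCtorEq] at hst
    · simp only [h3, h4, dif_pos, dif_neg, not_false_eq_true, reduceCtorEq] at hst
    · simp only [h3, h4, dif_neg, not_false_eq_true, Sum.inr.injEq, Subtype.mk.injEq] at hst
      exact hst
  have hcnt := hCNT (PSL p) d
  rw [hNc] at hcnt
  have hI : (Nat.card {x : PSL p // x * x = 1} : ℝ) ≤ 2 * (p : ℝ) ^ 2 := by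
    exact_mod_cast hINV p hp hp5
  have hbad : (Nat.card {s : Fin d → PSL p // ¬ Simp s} : ℝ) ≤ 16 * (d : ℝ) ^ 2 / p * N ^ d := by
    have e1 : (d : ℝ) * (Nat.card {x : PSL p // x * x = 1} : ℝ) + 2 * (d : ℝ) ^ 2 ≤
        16 * (d : ℝ) ^ 2 / p * N := by
      have e2 : 4 * (d : ℝ) ^ 2 * (p : ℝ) ^ 2 ≤ 16 * (d : ℝ) ^ 2 / p * N := by
        calc 4 * (d : ℝ) ^ 2 * (p : ℝ) ^ 2 = 16 * (d : ℝ) ^ 2 / p * ((p : ℝ) ^ 3 / 4) := by
              field_simp
              ring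
          _ ≤ 16 * (d : ℝ) ^ 2 / p * N := by
              apply mul_le_mul_of_nonneg_left hN3
              positivity
      have e3 : (d : ℝ) * (Nat.card {x : PSL p // x * x = 1} : ℝ) ≤
          2 * (d : ℝ) ^ 2 * (p : ℝ) ^ 2 := by
        calc (d : ℝ) * (Nat.card {x : PSL p // x * x = 1} : ℝ) ≤ d * (2 * (p : ℝ) ^ 2) :=
              mul_le_mul_of_nonneg_left hI (by linarith)
          _ ≤ 2 * (d : ℝ) ^ 2 * (p : ℝ) ^ 2 := by
              have e4 : (d : ℝ) ≤ (d : ℝ) ^ 2 := by nlinarith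
              nlinarith [sq_nonneg (p : ℝ)]
      have e5 : 2 * (d : ℝ) ^ 2 ≤ 2 * (d : ℝ) ^ 2 * (p : ℝ) ^ 2 := by
        have e6 : (1 : ℝ) ≤ (p : ℝ) ^ 2 := one_le_pow₀ (by linarith [show (5 : ℝ) ≤ p from hP])
        nlinarith [sq_nonneg (d : ℝ)]
      linarith
    have e7 : (Nat.card {s : Fin d → PSL p // ¬ Simp s} : ℝ) * N ≤
        (16 * (d : ℝ) ^ 2 / p * N ^ d) * N := by
      refine hcnt.trans ?_
      calc _ ≤ (16 * (d : ℝ) ^ 2 / p * N) * N ^ d :=
            mul_le_mul_of_nonneg_right e1 (by positivity)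
        _ = _ := by ring
    exact le_of_mul_le_mul_right e7 hNpos
  have hle3 : (Nat.card {s : Fin d → PSL p // NormLe s B} : ℝ) ≤
      (Nat.card {s : Fin d → PSL p // NormLe s B ∧ ∃ _ : Fintype (PSL p), Nice s ∧
        ∀ ε : ℝ, η ≤ ε → ε ≤ 1 - η →
          (1 - η) * (2 * Real.log N / Real.log (2 * d)) ≤ (tm s ε : ℝ) ∧
          (tm s ε : ℝ) ≤ (1 + η) * (Real.log N / Real.log (2 * d / B))} : ℝ) +
        (Nat.card {s : Fin d → PSL p // ¬ Simp s} : ℝ) := by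
    exact_mod_cast hle2.trans (Nat.add_le_add_right hle1 _)
  have e8 : (1 - b - 16 * (d : ℝ) ^ 2 / p) * N ^ d =
      (1 - b) * N ^ d - 16 * (d : ℝ) ^ 2 / p * N ^ d := by ring
  rw [e8]
  linarith

end Pool.Agent.ACO
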