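import Pool.Agent.ACO.TargetsN
import Pool.Agent.ACO.P_FIN

set_option autoImplicit false

/-!
# ACO, target FNN: the final theorem with the sharp location, for one pair `p, d`
-/

namespace Pool.Agent.ACO

open Finset
open Pool.Agent.VAC (lazyP tvDist tmix)
open Pool.Agent.RCG (PSL NormLe SL)

namespace FNN_

/-- the norm bound is smaller than the degree -/
theorem bound_lt {k τ l0 : ℝ} (hk : 1 < k) (hτ : 1 ≤ τ) (hl : 0 < l0)
    (h : l0 ≤ Real.log ((k - 1) / τ ^ 2)) : √(k - 1) * (τ + 1 / τ) < k := by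
  have hk1 : 0 < k - 1 := by linarith
  have hτ0 : 0 < τ := by linarith
  have h1 : 0 < (k - 1) / τ ^ 2 := by positivity
  have h2 : 1 < (k - 1) / τ ^ 2 := by
    by_contra hc
    have h3 := Real.log_nonpos h1.le (not_lt.1 hc)
    linarith
  have h4 : τ ^ 2 < k - 1 := by
    rw [lt_div_iff₀ (by positivity)] at h2
    linarith
  have h5 : τ < √(k - 1) := Real.lt_sqrt_of_sq_lt h4
  have h6 : √(k - 1) ^ 2 = k - 1 := Real.sq_sqrt hk1.le
  have h7 : 1 / τ ≤ 1 := by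
    rw [div_le_one hτ0]
    exact hτ
  have h8 : 0 < (√(k - 1) - τ) * (√(k - 1) - 1 / τ) := mul_pos (by linarith) (by linarith)
  have h9 : τ * (1 / τ) = 1 := by field_simp
  nlinarith

end FNN_

open FNN_ FIN_ in
theorem p_FNN (hTM : T_TMN) (hGAP : T_GAP) (hCNT : T_CNT) (hINV : T_INV) (hNL : T_NL)
    (hCON : T_CON) (hLZ : T_LZ) : T_FNN := by
  classical
  intro η l0 h0 h1 hl0
  obtain ⟨R0, hR0⟩ := hTM η l0 h0 h1 hl0
  refine ⟨max 1 R0, 5, lt_of_lt_of_le one_pos (le_max_left _ _), ?_⟩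
  intro p d b τ hp hP hd hR hτ hlτ hcard
  have : Fact p.Prime := ⟨hp⟩
  have iF : Fintype (PSL p) := Fintype.ofFinite _
  have hp5 : 5 ≤ p := by exact_mod_cast hP
  have hp0 : (0 : ℝ) < p := by exact_mod_cast hp.pos
  have hd1 : 1 ≤ d := by omega
  have hd2 : (2 : ℝ) ≤ d := by exact_mod_cast hd
  have hN3 := card_psl p
  set N : ℝ := (Nat.card (PSL p) : ℝ) with hN
  have hNc : (Fintype.card (PSL p) : ℝ) = N := by rw [hN, Nat.card_eq_fintype_card]
  have hpN : (p : ℝ) ≤ N := by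
    refine le_trans ?_ hN3
    have hP' : (5 : ℝ) ≤ p := hP
    nlinarith [sq_nonneg (p : ℝ), mul_nonneg (by linarith : (0 : ℝ) ≤ (p : ℝ) - 2)
      (by linarith : (0 : ℝ) ≤ (p : ℝ)),
      mul_nonneg (mul_nonneg (by linarith : (0 : ℝ) ≤ (p : ℝ) - 2)
      (by linarith : (0 : ℝ) ≤ (p : ℝ))) (by linarith : (0 : ℝ) ≤ (p : ℝ) + 2)]
  have hNpos : 0 < N := lt_of_lt_of_le hp0 hpN
  have h2d : (0 : ℝ) < 2 * d := by linarith
  have hτ0 : 0 < τ := by linarith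
  obtain ⟨B, hBd⟩ : ∃ B : ℝ, B = √(2 * (d : ℝ) - 1) * (τ + 1 / τ) := ⟨_, rfl⟩
  have hB2 : B < 2 * d := by
    rw [hBd]
    exact bound_lt (by linarith) hτ hl0 hlτ
  have hB0 : 0 < B := by
    rw [hBd]
    have h3 : 0 < √(2 * (d : ℝ) - 1) := Real.sqrt_pos.2 (by linarith)
    positivity
  rw [← hBd] at hcard ⊢
  have hlog : 0 < Real.log (2 * (d : ℝ)) := Real.log_pos (by linarith)
  have hρ0 : 0 < B / (2 * (d : ℝ)) := div_pos hB0 h2d
  have hρ1 : B / (2 * (d : ℝ)) < 1 := (div_lt_one h2d).2 hB2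
  have hρ2 : 2 * (d : ℝ) * (B / (2 * (d : ℝ))) ≤ √(2 * (d : ℝ) - 1) * (τ + 1 / τ) := by
    rw [mul_div_cancel₀ _ h2d.ne', ← hBd]
  have hR' : R0 ≤ Real.log N / Real.log (2 * d) := by
    rw [le_div_iff₀ hlog]
    have e1 : Real.log p ≤ Real.log N := Real.log_le_log hp0 hpN
    have e2 : R0 * Real.log (2 * d) ≤ max 1 R0 * Real.log (2 * d) :=
      mul_le_mul_of_nonneg_right (le_max_right _ _) hlog.le
    linarith
  -- the good tuples
  have hgood : ∀ s : Fin d → PSL p, NormLe s B ∧ Simp s →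
      (NormLe s B ∧ ∃ _ : Fintype (PSL p), Nice s ∧
        Pool.Agent.VAC.HasGap (LP s) ((1 - B / (2 * d)) / 2) ∧
        ∀ ε : ℝ, η ≤ ε → ε ≤ 1 - η →
          (1 - η) * TT d N 1 ≤ (tm s ε : ℝ) ∧ (tm s ε : ℝ) ≤ (1 + η) * TT d N τ) := by
    rintro s ⟨hs, hS⟩
    have hn : Nrm s (B / (2 * d)) := hNL (PSL p) d s B hd1 hs
    refine ⟨hs, iF, ⟨hCON (PSL p) d s (B / (2 * d)) hd1 hρ0.le hρ1 hn, ?_, ?_⟩, ?_, ?_⟩
    · exact (hLZ (PSL p) d s hd1 hS).1
    · exact (hLZ (PSL p) d s hd1 hS).2.1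
    · exact hGAP (PSL p) d s (B / (2 * d)) hd1 hS hρ0.le hn
    · intro ε e1 e2
      have h3 := hR0 (PSL p) d s (B / (2 * d)) τ hd hS hρ0.le hn hτ hlτ hρ2
        (by rw [hNc]; exact hR') ε e1 e2
      rw [hNc] at h3
      exact h3
  -- counting
  have hle1 : Nat.card {s : Fin d → PSL p // NormLe s B ∧ Simp s} ≤
      Nat.card {s : Fin d → PSL p // NormLe s B ∧ ∃ _ : Fintype (PSL p), Nice s ∧
        Pool.Agent.VAC.HasGap (LP s) ((1 - B / (2 * d)) / 2) ∧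
        ∀ ε : ℝ, η ≤ ε → ε ≤ 1 - η →
          (1 - η) * TT d N 1 ≤ (tm s ε : ℝ) ∧ (tm s ε : ℝ) ≤ (1 + η) * TT d N τ} :=
    Nat.card_le_card_of_injective (fun s => ⟨s.1, hgood s.1 s.2⟩) (by
      intro s t hst
      have h := congrArg Subtype.val hst
      exact Subtype.ext h)
  have hle2 : Nat.card {s : Fin d → PSL p // NormLe s B} ≤
      Nat.card {s : Fin d → PSL p // NormLe s B ∧ Simp s} +
        Nat.card {s : Fin d → PSL p // ¬ Simp s} := by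
    rw [← Nat.card_sum]
    refine Nat.card_le_card_of_injective (fun s => if h : Simp s.1 then
      Sum.inl ⟨s.1, s.2, h⟩ else Sum.inr ⟨s.1, h⟩) ?_
    intro s t hst
    apply Subtype.ext
    by_cases h3 : Simp s.1 <;> by_cases h4 : Simp t.1
    · simp only [h3, h4, dif_pos, Sum.inl.injEq, Subtype.mk.injEq] at hst
      exact hst
    · simp only [h3, h4, dif_pos, dif_neg, not_false_eq_true, reduceCtorEq] at hst
    · simp only [h3, h4, dif_pos, dif_neg, not_false_eq_true, reduceCtorEq] at hst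
    · simp only [h3, h4, dif_neg, not_false_eq_true, Sum.inr.injEq, Subtype.mk.injEq] at hst
      exact hst
  have hcnt := hCNT (PSL p) d
  rw [hNc] at hcnt
  have hI : (Nat.card {x : PSL p // x * x = 1} : ℝ) ≤ 2 * (p : ℝ) ^ 2 := by
    exact_mod_cast hINV p hp hp5
  have hbad : (Nat.card {s : Fin d → PSL p // ¬ Simp s} : ℝ) ≤ 16 * (d : ℝ) ^ 2 / p * N ^ d := by
    have e1 : (d : ℝ) * (Nat.card {x : PSL p // x * x = 1} : ℝ) + 2 * (d : ℝ) ^ 2 ≤
        16 * (d : ℝ) ^ 2 / p * N := by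
      have e2 : 4 * (d : ℝ) ^ 2 * (p : ℝ) ^ 2 ≤ 16 * (d : ℝ) ^ 2 / p * N := by
        calc 4 * (d : ℝ) ^ 2 * (p : ℝ) ^ 2 = 16 * (d : ℝ) ^ 2 / p * ((p : ℝ) ^ 3 / 4) := by
              field_simp
              ring
          _ ≤ 16 * (d : ℝ) ^ 2 / p * N := by
              apply mul_le_mul_of_nonneg_left hN3
              positivity
      have e3 : (d : ℝ) * (Nat.card {x : PSL p // x * x = 1} : ℝ) ≤
          2 * (d : ℝ) ^ 2 * (p : ℝ) ^ 2 := by
        calc (d : ℝ) * (Nat.card {x : PSL p // x * x = 1} : ℝ) ≤ d * (2 * (p : ℝ) ^ 2) :=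
              mul_le_mul_of_nonneg_left hI (by linarith)
          _ ≤ 2 * (d : ℝ) ^ 2 * (p : ℝ) ^ 2 := by
              have e4 : (d : ℝ) ≤ (d : ℝ) ^ 2 := by nlinarith
              nlinarith [sq_nonneg (p : ℝ)]
      have e5 : 2 * (d : ℝ) ^ 2 ≤ 2 * (d : ℝ) ^ 2 * (p : ℝ) ^ 2 := by
        have e6 : (1 : ℝ) ≤ (p : ℝ) ^ 2 := one_le_pow₀ (by linarith [show (5 : ℝ) ≤ p from hP])
        nlinarith [sq_nonneg (d : ℝ)]
      linarith
    have e7 : (Nat.card {s : Fin d → PSL p // ¬ Simp s} : ℝ) * N ≤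
        (16 * (d : ℝ) ^ 2 / p * N ^ d) * N := by
      refine hcnt.trans ?_
      calc _ ≤ (16 * (d : ℝ) ^ 2 / p * N) * N ^ d :=
            mul_le_mul_of_nonneg_right e1 (by positivity)
        _ = _ := by ring
    exact le_of_mul_le_mul_right e7 hNpos
  have hle3 : (Nat.card {s : Fin d → PSL p // NormLe s B} : ℝ) ≤
      (Nat.card {s : Fin d → PSL p // NormLe s B ∧ ∃ _ : Fintype (PSL p), Nice s ∧
        Pool.Agent.VAC.HasGap (LP s) ((1 - B / (2 * d)) / 2) ∧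
        ∀ ε : ℝ, η ≤ ε → ε ≤ 1 - η →
          (1 - η) * TT d N 1 ≤ (tm s ε : ℝ) ∧ (tm s ε : ℝ) ≤ (1 + η) * TT d N τ} : ℝ) +
        (Nat.card {s : Fin d → PSL p // ¬ Simp s} : ℝ) := by
    exact_mod_cast hle2.trans (Nat.add_le_add_right hle1 _)
  have e8 : (1 - b - 16 * (d : ℝ) ^ 2 / p) * N ^ d =
      (1 - b) * N ^ d - 16 * (d : ℝ) ^ 2 / p * N ^ d := by ring
  rw [e8]
  linarith

end Pool.Agent.ACO
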