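import Pool.Agent.ACO.TargetsN

set_option autoImplicit false

/-!
# ACO, target GAP: spectral gap of the lazy walk
-/

namespace Pool.Agent.ACO

open Finset
open Pool.Agent.VAC (lazyP tvDist tmix)

open Classical in
theorem GAP_.mv {G : Type} [Group G] [Fintype G] {d : ℕ} (s : Fin d → G)
    (hp : ∀ (t : ℕ) (x y : G), (LP s ^ t) x y =
      ∑ m ∈ range (t + 1), (t.choose m : ℝ) / 2 ^ t * (M s ^ m) x y) (f : G → ℝ) (x : G) :
    (LP s).mulVec f x = f x / 2 + (M s).mulVec f x / 2 := by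
  have h4 : LP s = (1 / 2 : ℝ) • (1 : Matrix G G ℝ) + (1 / 2 : ℝ) • M s := by
    ext a b
    have h3 := hp 1 a b
    rw [pow_one, Finset.sum_range_succ, Finset.sum_range_one] at h3
    simpa using h3
  rw [h4, Matrix.add_mulVec, Matrix.smul_mulVec, Matrix.smul_mulVec, Matrix.one_mulVec]
  simp only [Pi.add_apply, Pi.smul_apply, smul_eq_mul]
  ring

theorem p_GAP (h : T_LZ) : T_GAP := by
  intro G _ _ d s ρ hd hs hρ hN f hf
  obtain ⟨-, -, hp⟩ := h G d s hd hs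
  have h1 := GAP_.mv s hp f
  have h2 := hN f hf
  have hS : 0 ≤ ∑ x, f x ^ 2 := Finset.sum_nonneg fun x _ => sq_nonneg _
  have h3 : (∑ x, f x * (M s).mulVec f x) ^ 2 ≤
      (∑ x, f x ^ 2) * ∑ x, ((M s).mulVec f x) ^ 2 :=
    Finset.sum_mul_sq_le_sq_mul_sq _ _ _
  have h4 : (∑ x, f x * (M s).mulVec f x) ^ 2 ≤ (ρ * ∑ x, f x ^ 2) ^ 2 := by
    calc _ ≤ (∑ x, f x ^ 2) * ∑ x, ((M s).mulVec f x) ^ 2 := h3
      _ ≤ (∑ x, f x ^ 2) * (ρ ^ 2 * ∑ x, f x ^ 2) := mul_le_mul_of_nonneg_left h2 hS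
      _ = _ := by ring
  have h5 : ∑ x, f x * (M s).mulVec f x ≤ ρ * ∑ x, f x ^ 2 :=
    le_of_abs_le (abs_le_of_sq_le_sq h4 (mul_nonneg hρ hS))
  have h6 : ∑ x, f x * (f x - (LP s).mulVec f x) =
      (∑ x, f x ^ 2) / 2 - (∑ x, f x * (M s).mulVec f x) / 2 := by
    rw [Finset.sum_div, Finset.sum_div, ← Finset.sum_sub_distrib]
    refine Finset.sum_congr rfl fun x _ => ?_
    rw [h1]
    ring
  rw [h6]
  linarith

end Pool.Agent.ACO
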