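import Pool.Agent.ACO.Targets

/-!
# ACO: involutions of PSL(2,p) (target T_INV)
-/

set_option autoImplicit false

namespace Pool.Agent.ACO

open Classical
open Pool.Agent.RCG (PSL)

namespace INV_

variable {p : ℕ} [Fact p.Prime]

/-- trace zero -/
def TZ (A : Matrix.SpecialLinearGroup (Fin 2) (ZMod p)) : Prop := A.1 1 1 = - A.1 0 0

lemma det_eq (A : Matrix.SpecialLinearGroup (Fin 2) (ZMod p)) :
    A.1 0 0 * A.1 1 1 - A.1 0 1 * A.1 1 0 = 1 := by
  have := A.2
  rwa [Matrix.det_fin_two] at this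

lemma dich (A : Matrix.SpecialLinearGroup (Fin 2) (ZMod p))
    (h : A * A ∈ Subgroup.center (Matrix.SpecialLinearGroup (Fin 2) (ZMod p))) :
    TZ A ∨ A ∈ Subgroup.center (Matrix.SpecialLinearGroup (Fin 2) (ZMod p)) := by
  by_cases ht : TZ A
  · exact Or.inl ht
  right
  have ht' : A.1 0 0 + A.1 1 1 ≠ 0 := fun e => ht (by unfold TZ; linear_combination e)
  rw [Matrix.SpecialLinearGroup.mem_center_iff] at h
  obtain ⟨r, -, hr⟩ := h
  have hd := det_eq A
  have e01 : A.1 0 0 * A.1 0 1 + A.1 0 1 * A.1 1 1 = 0 := by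
    have := congrFun (congrFun hr 0) 1
    simp [Matrix.mul_apply, Fin.sum_univ_two] at this
    exact this.symm
  have e10 : A.1 1 0 * A.1 0 0 + A.1 1 1 * A.1 1 0 = 0 := by
    have := congrFun (congrFun hr 1) 0
    simp [Matrix.mul_apply, Fin.sum_univ_two] at this
    exact this.symm
  have e00 : r = A.1 0 0 * A.1 0 0 + A.1 0 1 * A.1 1 0 := by
    have := congrFun (congrFun hr 0) 0
    simpa [Matrix.mul_apply, Fin.sum_univ_two] using this
  have e11 : r = A.1 1 0 * A.1 0 1 + A.1 1 1 * A.1 1 1 := by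
    have := congrFun (congrFun hr 1) 1
    simpa [Matrix.mul_apply, Fin.sum_univ_two] using this
  have hb : A.1 0 1 = 0 := by
    have : (A.1 0 0 + A.1 1 1) * A.1 0 1 = 0 := by linear_combination e01
    exact (mul_eq_zero.1 this).resolve_left ht'
  have hc : A.1 1 0 = 0 := by
    have : (A.1 0 0 + A.1 1 1) * A.1 1 0 = 0 := by linear_combination e10
    exact (mul_eq_zero.1 this).resolve_left ht'
  have had : A.1 0 0 = A.1 1 1 := by
    have : (A.1 0 0 + A.1 1 1) * (A.1 0 0 - A.1 1 1) = 0 := by linear_combination e11 - e00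
    exact sub_eq_zero.1 ((mul_eq_zero.1 this).resolve_left ht')
  rw [Matrix.SpecialLinearGroup.mem_center_iff]
  refine ⟨A.1 0 0, ?_, ?_⟩
  · rw [Fintype.card_fin]
    rw [hb, ← had] at hd
    linear_combination hd
  · ext i j
    fin_cases i <;> fin_cases j
    · simp
    · simp [hb]
    · simp [hc]
    · simp [had]

/-- a root of `a² = -1`, if there is one -/
noncomputable def i0 (p : ℕ) : ZMod p := if h : ∃ a : ZMod p, a * a = -1 then h.choose else 0

/-- code of a matrix of trace zero -/
noncomputable def code (A : {A : Matrix.SpecialLinearGroup (Fin 2) (ZMod p) // TZ A}) :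
    (ZMod p × ZMod p) ⊕ (ZMod p × Bool) :=
  if A.1.1 1 0 ≠ 0 then Sum.inl (A.1.1 0 0, A.1.1 1 0)
  else Sum.inr (A.1.1 0 1, decide (A.1.1 0 0 = i0 p))

lemma eq_of {A B : Matrix.SpecialLinearGroup (Fin 2) (ZMod p)} (hA : TZ A) (hB : TZ B)
    (h0 : A.1 0 0 = B.1 0 0) (h1 : A.1 0 1 = B.1 0 1) (h2 : A.1 1 0 = B.1 1 0) : A = B := by
  unfold TZ at hA hB
  apply Subtype.ext
  ext i j
  fin_cases i <;> fin_cases j
  · exact h0
  · exact h1
  · exact h2
  · change A.1 1 1 = B.1 1 1
    rw [hA, hB, h0]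

lemma code_inj : Function.Injective (code (p := p)) := by
  rintro ⟨A, hA⟩ ⟨B, hB⟩ h
  have dA := det_eq A
  have dB := det_eq B
  have hA' := hA
  have hB' := hB
  unfold TZ at hA' hB'
  rw [hA'] at dA
  rw [hB'] at dB
  unfold code at h
  simp only at h
  apply Subtype.ext
  change A = B
  by_cases hc : A.1 1 0 ≠ 0
  · by_cases hc' : B.1 1 0 ≠ 0
    · rw [if_pos hc, if_pos hc'] at h
      have h1 := Prod.mk.inj (Sum.inl.inj h)
      refine eq_of hA hB h1.1 ?_ h1.2
      have : (A.1 0 1 - B.1 0 1) * A.1 1 0 = 0 := by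
        rw [h1.1] at dA
        have e := h1.2
        linear_combination dB - dA - B.1 0 1 * e
      exact sub_eq_zero.1 ((mul_eq_zero.1 this).resolve_right hc)
    · rw [if_pos hc, if_neg hc'] at h
      exact absurd h (by simp)
  · by_cases hc' : B.1 1 0 ≠ 0
    · rw [if_neg hc, if_pos hc'] at h
      exact absurd h (by simp)
    · rw [if_neg hc, if_neg hc'] at h
      have h1 := Prod.mk.inj (Sum.inr.inj h)
      rw [not_not] at hc hc'
      rw [hc] at dA
      rw [hc'] at dB
      have qA : A.1 0 0 * A.1 0 0 = -1 := by linear_combination -dA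
      have qB : B.1 0 0 * B.1 0 0 = -1 := by linear_combination -dB
      have hex : ∃ a : ZMod p, a * a = -1 := ⟨_, qA⟩
      have hi : i0 p * i0 p = -1 := by
        unfold i0
        rw [dif_pos hex]
        exact hex.choose_spec
      have hiff : (A.1 0 0 = i0 p) ↔ (B.1 0 0 = i0 p) := decide_eq_decide.1 h1.2
      refine eq_of hA hB ?_ h1.1 (hc.trans hc'.symm)
      have rA : (A.1 0 0 - i0 p) * (A.1 0 0 + i0 p) = 0 := by linear_combination qA - hi
      have rB : (B.1 0 0 - i0 p) * (B.1 0 0 + i0 p) = 0 := by linear_combination qB - hi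
      by_cases hAi : A.1 0 0 = i0 p
      · rw [hAi, hiff.1 hAi]
      · have hBi : B.1 0 0 ≠ i0 p := fun e => hAi (hiff.2 e)
        have sA := (mul_eq_zero.1 rA).resolve_left (sub_ne_zero.2 hAi)
        have sB := (mul_eq_zero.1 rB).resolve_left (sub_ne_zero.2 hBi)
        linear_combination sA - sB

end INV_

open INV_ in
theorem p_INV : T_INV := by
  intro p hp h5
  have : Fact p.Prime := ⟨hp⟩
  have hrep : ∀ x : PSL p, ∃ A : Matrix.SpecialLinearGroup (Fin 2) (ZMod p),
      (QuotientGroup.mk A : PSL p) = x := fun x => QuotientGroup.mk_surjective x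
  choose rep hrep using hrep
  have hT : ∀ x : {x : PSL p // x * x = 1}, x.1 ≠ 1 → TZ (rep x.1) := by
    intro x hx
    have h1 : (QuotientGroup.mk (rep x.1 * rep x.1) : PSL p) = 1 := by
      rw [QuotientGroup.mk_mul, hrep]
      exact x.2
    rw [QuotientGroup.eq_one_iff] at h1
    rcases dich _ h1 with h | h
    · exact h
    · exfalso
      apply hx
      rw [← hrep x.1]
      exact (QuotientGroup.eq_one_iff _).2 h
  let Φ : {x : PSL p // x * x = 1} → Option ((ZMod p × ZMod p) ⊕ (ZMod p × Bool)) :=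
    fun x => if h : x.1 = 1 then none else some (code ⟨rep x.1, hT x h⟩)
  have hΦ : Function.Injective Φ := by
    intro x y h
    apply Subtype.ext
    simp only [Φ] at h
    by_cases hx : x.1 = 1
    · by_cases hy : y.1 = 1
      · rw [hx, hy]
      · rw [dif_pos hx, dif_neg hy] at h
        exact absurd h (by simp)
    · by_cases hy : y.1 = 1
      · rw [dif_neg hx, dif_pos hy] at h
        exact absurd h (by simp)
      · rw [dif_neg hx, dif_neg hy] at h
        have h1 := code_inj (Option.some.inj h)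
        have h2 : rep x.1 = rep y.1 := congrArg Subtype.val h1
        rw [← hrep x.1, ← hrep y.1, h2]
  have hle := Nat.card_le_card_of_injective Φ hΦ
  rw [Nat.card_eq_fintype_card (α := Option _), Fintype.card_option, Fintype.card_sum,
    Fintype.card_prod, Fintype.card_prod, ZMod.card, Fintype.card_bool] at hle
  refine hle.trans ?_
  nlinarith

end Pool.Agent.ACO
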