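import Pool.Agent.ACO.Targets

set_option autoImplicit false

/-!
# ACO, target L1: distance of the non-lazy walk to the uniform distribution
-/

namespace Pool.Agent.ACO

open Finset

namespace L1_

variable {G : Type} [Group G] [Fintype G] {d : ℕ}

theorem M_symm (s : Fin d → G) (x y : G) : M s x y = M s y x := by
  classical
  unfold M
  rw [Matrix.of_apply, Matrix.of_apply]
  congr 1
  refine Finset.sum_congr rfl fun i _ => ?_
  have h1 : (y = x * s i) ↔ (x = y * (s i)⁻¹) := by
    constructor
    · intro h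
      rw [h]
      group
    · intro h
      rw [h]
      group
  have h2 : (y = x * (s i)⁻¹) ↔ (x = y * s i) := by
    constructor
    · intro h
      rw [h]
      group
    · intro h
      rw [h]
      group
  simp only [h1, h2]
  ring

/-- the difference to the uniform distribution -/
noncomputable def f [DecidableEq G] (s : Fin d → G) (x : G) (m : ℕ) (y : G) : ℝ :=
  (M s ^ m) x y - 1 / (Fintype.card G : ℝ)

theorem card_pos' : (0 : ℝ) < Fintype.card G := by
  exact_mod_cast Fintype.card_pos

open Classical in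
theorem sum_f (hMP : T_MP) (s : Fin d → G) (hd : 1 ≤ d) (x : G) (m : ℕ) :
    ∑ y, f s x m y = 0 := by
  unfold f
  rw [Finset.sum_sub_distrib, (hMP G d s hd m x).2.1, Finset.sum_const, nsmul_eq_mul,
    Finset.card_univ]
  have := card_pos' (G := G)
  field_simp
  ring

open Classical in
theorem step (hMP : T_MP) (s : Fin d → G) (hd : 1 ≤ d) (x : G) (m : ℕ) :
    (M s).mulVec (f s x m) = f s x (m + 1) := by
  funext y
  unfold f
  rw [pow_succ, Matrix.mul_apply]
  show ∑ z, M s y z * ((M s ^ m) x z - 1 / (Fintype.card G : ℝ)) = _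
  have h1 : ∑ z, M s y z = 1 := by
    have := (hMP G d s hd 1 y).2.1
    rwa [pow_one] at this
  have h2 : ∑ z, M s y z * ((M s ^ m) x z - 1 / (Fintype.card G : ℝ)) =
      ∑ z, M s y z * (M s ^ m) x z - (∑ z, M s y z) * (1 / (Fintype.card G : ℝ)) := by
    rw [Finset.sum_mul, ← Finset.sum_sub_distrib]
    exact Finset.sum_congr rfl fun z _ => by ring
  rw [h2, h1, one_mul]
  congr 1
  refine Finset.sum_congr rfl fun z _ => ?_
  rw [M_symm s y z]
  ring

open Classical in
theorem sq_le (hMP : T_MP) (s : Fin d → G) (hd : 1 ≤ d) {ρ : ℝ} (hN : Nrm s ρ)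
    (x : G) (m : ℕ) : ∑ y, f s x m y ^ 2 ≤ (ρ ^ m) ^ 2 := by
  induction m with
  | zero =>
    have h1 : ∀ y, f s x 0 y = (if x = y then (1 : ℝ) else 0) - 1 / (Fintype.card G : ℝ) := by
      intro y
      unfold f
      rw [pow_zero, Matrix.one_apply]
    have hc := card_pos' (G := G)
    have h2 : ∀ y, f s x 0 y ^ 2 = (if x = y then 1 - 2 / (Fintype.card G : ℝ) else 0) +
        1 / (Fintype.card G : ℝ) ^ 2 := by
      intro y
      rw [h1]
      split_ifs
      · field_simp
        ring
      · field_simp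
        ring
    rw [Finset.sum_congr rfl fun y _ => h2 y, Finset.sum_add_distrib, Finset.sum_ite_eq,
      if_pos (Finset.mem_univ x), Finset.sum_const, nsmul_eq_mul, Finset.card_univ]
    have h3 : (Fintype.card G : ℝ) * (1 / (Fintype.card G : ℝ) ^ 2) =
        1 / (Fintype.card G : ℝ) := by
      field_simp
    rw [h3]
    have h4 : 0 < 1 / (Fintype.card G : ℝ) := by positivity
    have h5 : 2 / (Fintype.card G : ℝ) = 2 * (1 / (Fintype.card G : ℝ)) := by ring
    have h6 : (ρ ^ 0) ^ 2 = 1 := by simp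
    rw [h5, h6]
    linarith
  | succ m ih =>
    have h1 := hN (f s x m) (sum_f hMP s hd x m)
    rw [step hMP s hd x m] at h1
    refine h1.trans ?_
    calc ρ ^ 2 * ∑ y, f s x m y ^ 2 ≤ ρ ^ 2 * (ρ ^ m) ^ 2 :=
          mul_le_mul_of_nonneg_left ih (sq_nonneg ρ)
      _ = (ρ ^ (m + 1)) ^ 2 := by ring

end L1_

open L1_ in
theorem p_L1 (hMP : T_MP) : T_L1 := by
  classical
  intro G _ _ d s ρ hd hρ hN m x
  have hc := card_pos' (G := G)
  constructor
  · obtain ⟨h1, h2, -⟩ := hMP G d s hd m x
    have h3 : ∀ y, |(M s ^ m) x y - 1 / (Fintype.card G : ℝ)| ≤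
        (M s ^ m) x y + 1 / (Fintype.card G : ℝ) := by
      intro y
      have := h1 y
      have h4 : 0 ≤ 1 / (Fintype.card G : ℝ) := by positivity
      rw [abs_le]
      constructor <;> linarith
    refine (Finset.sum_le_sum fun y _ => h3 y).trans ?_
    rw [Finset.sum_add_distrib, h2, Finset.sum_const, nsmul_eq_mul, Finset.card_univ]
    have h5 : (Fintype.card G : ℝ) * (1 / (Fintype.card G : ℝ)) = 1 := by field_simp
    rw [h5]
    norm_num
  · have h1 := sq_le hMP s hd hN x m
    have h2 : (∑ y, |f s x m y|) ^ 2 ≤ (Fintype.card G : ℝ) * ∑ y, |f s x m y| ^ 2 := by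
      have := sq_sum_le_card_mul_sum_sq (s := (Finset.univ : Finset G))
        (f := fun y => |f s x m y|)
      rwa [Finset.card_univ] at this
    have h3 : ∑ y, |f s x m y| ^ 2 = ∑ y, f s x m y ^ 2 :=
      Finset.sum_congr rfl fun y _ => sq_abs _
    rw [h3] at h2
    have h4 : (∑ y, |f s x m y|) ^ 2 ≤ (√(Fintype.card G) * ρ ^ m) ^ 2 := by
      rw [mul_pow, Real.sq_sqrt hc.le]
      exact h2.trans (mul_le_mul_of_nonneg_left h1 hc.le)
    exact (le_abs_self _).trans (abs_le_of_sq_le_sq h4 (by positivity))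

end Pool.Agent.ACO
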