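import Pool.Agent.ACO.Targets

set_option autoImplicit false

/-!
# ACO: LO, the lower bound for the total variation distance
-/

namespace Pool.Agent.ACO

open Finset
open Pool.Agent.VAC (lazyP tvDist tmix)

namespace LO_

theorem geom (k : ℕ) (hk : 2 ≤ k) (m : ℕ) : ∑ i ∈ range (m + 1), k ^ i ≤ 2 * k ^ m := by
  induction m with
  | zero => simp
  | succ m ih =>
    rw [Finset.sum_range_succ]
    have h : 2 * k ^ m ≤ k ^ (m + 1) := by
      rw [pow_succ, mul_comm]
      exact Nat.mul_le_mul_left _ hk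
    omega

theorem half {α : Type} [Fintype α] (h : α → ℝ) (S : Finset α) (h0 : ∑ y, h y = 0) :
    ∑ y ∈ S, h y ≤ 1 / 2 * ∑ y, |h y| := by
  classical
  have h1 : ∑ y ∈ S, h y + ∑ y ∈ Sᶜ, h y = 0 := by rw [Finset.sum_add_sum_compl, h0]
  have h2 : ∑ y ∈ S, |h y| + ∑ y ∈ Sᶜ, |h y| = ∑ y, |h y| := Finset.sum_add_sum_compl _ _
  have h3 : ∑ y ∈ S, h y ≤ ∑ y ∈ S, |h y| := Finset.sum_le_sum fun y _ => le_abs_self _
  have h4 : ∑ y ∈ Sᶜ, -h y ≤ ∑ y ∈ Sᶜ, |h y| := Finset.sum_le_sum fun y _ => neg_le_abs _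
  rw [Finset.sum_neg_distrib] at h4
  linarith

theorem wsum (t : ℕ) : ∑ m ∈ range (t + 1), (t.choose m : ℝ) / 2 ^ t = 1 := by
  rw [← Finset.sum_div]
  have h : (∑ m ∈ range (t + 1), (t.choose m : ℝ)) = 2 ^ t := by
    exact_mod_cast Nat.sum_range_choose t
  rw [h, div_self (by positivity)]

end LO_

open Classical in
theorem p_LO (hBIN : T_BIN) (hLZ : T_LZ) (hMP : T_MP) : T_LO := by
  intro G _ _ d s hd hS t m1 a x ha hm
  obtain ⟨-, -, hLP⟩ := hLZ G d s hd hS
  have hMP' := hMP G d s hd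
  obtain ⟨w, hw⟩ : ∃ w : ℕ → ℝ, w = fun m => (t.choose m : ℝ) / 2 ^ t := ⟨_, rfl⟩
  have hw0 : ∀ m, 0 ≤ w m := by intro m; rw [hw]; positivity
  have hw1 : ∑ m ∈ range (t + 1), w m = 1 := by rw [hw]; exact LO_.wsum t
  have hLP' : ∀ y, (LP s ^ t) x y = ∑ m ∈ range (t + 1), w m * (M s ^ m) x y := by
    intro y; rw [hw]; exact hLP t x y
  obtain ⟨S, hSd⟩ : ∃ S : Finset G, S = (range (m1 + 1)).biUnion
    (fun m => univ.filter (fun y => (M s ^ m) x y ≠ 0)) := ⟨_, rfl⟩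
  have hcard : S.card ≤ 2 * (2 * d) ^ m1 := by
    rw [hSd]
    refine (Finset.card_biUnion_le).trans ?_
    refine (Finset.sum_le_sum fun m _ => (hMP' m x).2.2.2).trans ?_
    exact LO_.geom (2 * d) (by omega) m1
  have hrow : ∑ y, (LP s ^ t) x y = 1 := by
    simp_rw [hLP']
    rw [Finset.sum_comm]
    simp_rw [← Finset.mul_sum, (hMP' _ x).2.1, mul_one]
    exact hw1
  have hin : ∀ m ≤ m1, ∑ y ∈ S, (M s ^ m) x y = 1 := by
    intro m hmm
    rw [← (hMP' m x).2.1]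
    apply Finset.sum_subset (Finset.subset_univ _)
    intro y _ hy
    by_contra hne
    apply hy
    rw [hSd, Finset.mem_biUnion]
    exact ⟨m, Finset.mem_range.mpr (by omega), Finset.mem_filter.mpr ⟨Finset.mem_univ _, hne⟩⟩
  have hout : ∀ m, 0 ≤ ∑ y ∈ S, (M s ^ m) x y :=
    fun m => Finset.sum_nonneg fun y _ => (hMP' m x).1 y
  have htail : ∑ m ∈ (range (t + 1)).filter (fun m : ℕ => m1 < m), w m ≤ t / (4 * a ^ 2) := by
    refine le_trans ?_ (hBIN t a ha)
    rw [hw]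
    apply Finset.sum_le_sum_of_subset_of_nonneg
    · intro m hmf
      rw [Finset.mem_filter] at hmf ⊢
      refine ⟨hmf.1, ?_⟩
      have h1 : (m1 : ℝ) ≤ m := by exact_mod_cast hmf.2.le
      exact le_trans (by linarith) (le_abs_self _)
    · intro m _ _
      positivity
  have hS1 : 1 - t / (4 * a ^ 2) ≤ ∑ y ∈ S, (LP s ^ t) x y := by
    simp_rw [hLP']
    rw [Finset.sum_comm]
    simp_rw [← Finset.mul_sum]
    have h1 : ∑ m ∈ (range (t + 1)).filter (fun m : ℕ => ¬ m1 < m), w m +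
        ∑ m ∈ (range (t + 1)).filter (fun m : ℕ => m1 < m), w m = 1 := by
      rw [add_comm, Finset.sum_filter_add_sum_filter_not, hw1]
    have h2 : ∑ m ∈ (range (t + 1)).filter (fun m : ℕ => ¬ m1 < m), w m ≤
        ∑ m ∈ range (t + 1), w m * ∑ y ∈ S, (M s ^ m) x y := by
      rw [← Finset.sum_filter_add_sum_filter_not (range (t + 1)) (fun m : ℕ => ¬ m1 < m)
        (fun m => w m * ∑ y ∈ S, (M s ^ m) x y)]
      have h3 : ∑ m ∈ (range (t + 1)).filter (fun m : ℕ => ¬ m1 < m), w m =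
          ∑ m ∈ (range (t + 1)).filter (fun m : ℕ => ¬ m1 < m),
            w m * ∑ y ∈ S, (M s ^ m) x y := by
        apply Finset.sum_congr rfl
        intro m hmf
        rw [Finset.mem_filter] at hmf
        rw [hin m (by omega), mul_one]
      rw [h3]
      have h4 : 0 ≤ ∑ m ∈ (range (t + 1)).filter (fun m : ℕ => ¬ ¬ m1 < m),
          w m * ∑ y ∈ S, (M s ^ m) x y :=
        Finset.sum_nonneg fun m _ => mul_nonneg (hw0 m) (hout m)
      linarith
    linarith
  have hcG : (0 : ℝ) < Fintype.card G := by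
    exact_mod_cast Fintype.card_pos_iff.mpr ⟨x⟩
  have hh := LO_.half (fun y => (LP s ^ t) x y - 1 / (Fintype.card G : ℝ)) S (by
    rw [Finset.sum_sub_distrib, hrow]
    simp only [Finset.sum_const, Finset.card_univ, nsmul_eq_mul]
    field_simp
    norm_num)
  rw [Finset.sum_sub_distrib, Finset.sum_const, nsmul_eq_mul] at hh
  have htv : tv s t x = 1 / 2 * ∑ y, |(LP s ^ t) x y - 1 / (Fintype.card G : ℝ)| := rfl
  rw [htv]
  have hc : (S.card : ℝ) * (1 / (Fintype.card G : ℝ)) ≤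
      2 * (2 * (d : ℝ)) ^ m1 / Fintype.card G := by
    rw [mul_one_div]
    apply div_le_div_of_nonneg_right _ hcG.le
    exact_mod_cast hcard
  linarith

end Pool.Agent.ACO
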