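import Pool.Agent.ACO.TargetsN

set_option autoImplicit false

/-!
# ACO: LON, the lower bound for the total variation distance (reduced words)
-/

namespace Pool.Agent.ACO

open Finset
open Pool.Agent.VAC (lazyP tvDist tmix)

namespace LON_

theorem geom (q : ℕ) (hq : 3 ≤ q) (m : ℕ) : ∑ i ∈ range (m + 1), 2 * q ^ i ≤ 3 * q ^ m := by
  induction m with
  | zero => simp
  | succ m ih =>
    rw [Finset.sum_range_succ]
    have h : 3 * q ^ m ≤ q ^ (m + 1) := by
      rw [pow_succ, mul_comm]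
      exact Nat.mul_le_mul_left _ hq
    omega

theorem half {α : Type} [Fintype α] (h : α → ℝ) (S : Finset α) (h0 : ∑ y, h y = 0) :
    ∑ y ∈ S, h y ≤ 1 / 2 * ∑ y, |h y| := by
  classical
  have h1 : ∑ y ∈ S, h y + ∑ y ∈ Sᶜ, h y = 0 := by rw [Finset.sum_add_sum_compl, h0]
  have h2 : ∑ y ∈ S, |h y| + ∑ y ∈ Sᶜ, |h y| = ∑ y, |h y| := Finset.sum_add_sum_compl _ _
  have h3 : ∑ y ∈ S, h y ≤ ∑ y ∈ S, |h y| := Finset.sum_le_sum fun y _ => le_abs_self _
  have h4 : ∑ y ∈ Sᶜ, -h y ≤ ∑ y ∈ Sᶜ, |h y| := Finset.sum_le_sum fun y _ => neg_le_abs _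
  rw [Finset.sum_neg_distrib] at h4
  linarith

theorem ev_sum {G : Type} (h : T_EVL) {k : ℝ} (hk : 2 ≤ k) (t : ℕ) (S : Finset G)
    (F : G → ℕ → ℝ) :
    ev k t (fun j => ∑ z ∈ S, F z j) = ∑ z ∈ S, ev k t (F z) := by
  classical
  induction S using Finset.induction_on with
  | empty => simpa using (h k t hk).2.2.1 0
  | insert a S ha ih =>
    rw [sum_insert ha, ← ih]
    have h1 := (h k t hk).2.1 (F a) (fun j => ∑ z ∈ S, F z j) 1 1
    rw [one_mul, one_mul] at h1
    rw [← h1]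
    congr 1
    funext j
    rw [sum_insert ha, one_mul, one_mul]

end LON_

open Classical in
theorem p_LON (hEVL : T_EVL) (hDEC : T_DEC) (hNBN : T_NBN) : T_LON := by
  intro G _ _ d s hd hS t j1 a x ha hj
  have hd2 : (2 : ℝ) ≤ d := by exact_mod_cast hd
  have hk : (2 : ℝ) ≤ 2 * (d : ℝ) := by linarith
  have hDEC' := hDEC G d s (by omega) hS t x
  have hNB := fun j => hNBN G d s (by omega) j x
  obtain ⟨hmono, hlin, hconst, hvar⟩ := hEVL (2 * (d : ℝ)) t hk
  obtain ⟨S, hSd⟩ : ∃ S : Finset G, S = (range (j1 + 1)).biUnion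
    (fun j => univ.filter (fun y => NB s j x y ≠ 0)) := ⟨_, rfl⟩
  have hcard : S.card ≤ 3 * (2 * d - 1) ^ j1 := by
    rw [hSd]
    refine (Finset.card_biUnion_le).trans ?_
    refine (Finset.sum_le_sum fun j _ => (hNB j).2.2).trans ?_
    exact LON_.geom (2 * d - 1) (by omega) j1
  have hrow : ∑ y, (LP s ^ t) x y = 1 := by
    calc ∑ y, (LP s ^ t) x y = ∑ y, ev (2 * (d : ℝ)) t (fun j => NB s j x y) :=
          Finset.sum_congr rfl fun y _ => hDEC' y
      _ = ev (2 * (d : ℝ)) t (fun j => ∑ y, NB s j x y) :=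
          (LON_.ev_sum hEVL hk t univ (fun y j => NB s j x y)).symm
      _ = ev (2 * (d : ℝ)) t (fun _ => 1) := by
          congr 1
          funext j
          exact (hNB j).2.1
      _ = 1 := hconst 1
  have hin : ∀ j ≤ j1, ∑ y ∈ S, NB s j x y = 1 := by
    intro j hjj
    rw [← (hNB j).2.1]
    apply Finset.sum_subset (Finset.subset_univ _)
    intro y _ hy
    by_contra hne
    apply hy
    rw [hSd, Finset.mem_biUnion]
    exact ⟨j, Finset.mem_range.mpr (by omega), Finset.mem_filter.mpr ⟨Finset.mem_univ _, hne⟩⟩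
  have hout : ∀ j, 0 ≤ ∑ y ∈ S, NB s j x y :=
    fun j => Finset.sum_nonneg fun y _ => (hNB j).1 y
  have hS1 : 1 - t / a ^ 2 ≤ ∑ y ∈ S, (LP s ^ t) x y := by
    have h1 : ∑ y ∈ S, (LP s ^ t) x y = ev (2 * (d : ℝ)) t (fun j => ∑ y ∈ S, NB s j x y) := by
      rw [LON_.ev_sum hEVL hk t S (fun y j => NB s j x y)]
      exact Finset.sum_congr rfl fun y _ => hDEC' y
    rw [h1]
    obtain ⟨φ, hφ⟩ : ∃ φ : ℕ → ℝ, φ = fun j : ℕ =>
      ((j : ℝ) - (2 * (d : ℝ) - 2) / (2 * (2 * (d : ℝ))) * t) ^ 2 := ⟨_, rfl⟩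
    rw [← hφ] at hvar
    have h2 : ∀ j : ℕ, 1 * (fun _ : ℕ => (1 : ℝ)) j + (-(1 / a ^ 2)) * φ j ≤
        ∑ y ∈ S, NB s j x y := by
      intro j
      have ha2 : 0 < a ^ 2 := by positivity
      rcases le_or_gt j j1 with hjj | hjj
      · rw [hin j hjj]
        have h3 : 0 ≤ φ j := by
          rw [hφ]
          positivity
        have h4 : 0 ≤ 1 / a ^ 2 * φ j := by positivity
        linarith
      · refine le_trans ?_ (hout j)
        have h3 : a ^ 2 ≤ φ j := by
          rw [hφ]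
          have h5 : (j1 : ℝ) ≤ j := by exact_mod_cast hjj.le
          exact pow_le_pow_left₀ ha.le (by linarith) 2
        have h4 : 1 ≤ 1 / a ^ 2 * φ j := by
          rw [one_div, inv_mul_eq_div, le_div_iff₀ ha2]
          linarith
        linarith
    have h5 := hmono _ _ h2
    rw [hlin (fun _ => 1) φ 1 (-(1 / a ^ 2)), hconst] at h5
    refine le_trans ?_ h5
    have h6 : 1 / a ^ 2 * ev (2 * (d : ℝ)) t φ ≤ 1 / a ^ 2 * t :=
      mul_le_mul_of_nonneg_left hvar (by positivity)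
    have h7 : 1 / a ^ 2 * (t : ℝ) = t / a ^ 2 := by ring
    linarith
  have hcG : (0 : ℝ) < Fintype.card G := by
    exact_mod_cast Fintype.card_pos_iff.mpr ⟨x⟩
  have hh := LON_.half (fun y => (LP s ^ t) x y - 1 / (Fintype.card G : ℝ)) S (by
    rw [Finset.sum_sub_distrib, hrow]
    simp only [Finset.sum_const, Finset.card_univ, nsmul_eq_mul]
    field_simp
    norm_num)
  rw [Finset.sum_sub_distrib, Finset.sum_const, nsmul_eq_mul] at hh
  have htv : tv s t x = 1 / 2 * ∑ y, |(LP s ^ t) x y - 1 / (Fintype.card G : ℝ)| := rfl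
  rw [htv]
  have hc : (S.card : ℝ) * (1 / (Fintype.card G : ℝ)) ≤
      3 * (2 * (d : ℝ) - 1) ^ j1 / Fintype.card G := by
    rw [mul_one_div]
    apply div_le_div_of_nonneg_right _ hcG.le
    have h8 : ((2 * d - 1 : ℕ) : ℝ) = 2 * (d : ℝ) - 1 := by
      rw [Nat.cast_sub (by omega)]
      push_cast
      ring
    rw [← h8]
    exact_mod_cast hcard
  linarith

end Pool.Agent.ACO
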