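import Pool.Agent.ACO.Targets

set_option autoImplicit false

/-!
# ACO, MON: the total variation distance is nonincreasing
-/

namespace Pool.Agent.ACO

open Finset
open Pool.Agent.VAC (lazyP tvDist tmix)

namespace MON_

open Classical in
/-- one step of a doubly stochastic matrix -/
lemma step {V : Type} [Fintype V] (P : Matrix V V ℝ) (h0 : ∀ x y, 0 ≤ P x y)
    (hr : ∀ x, ∑ y, P x y = 1) (hc : ∀ y, ∑ x, P x y = 1) (t : ℕ) (x : V) :
    tvDist P (t + 1) x ≤ tvDist P t x := by
  unfold tvDist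
  have h1 : ∀ y, |(P ^ (t + 1)) x y - 1 / (Fintype.card V : ℝ)| ≤
      ∑ z, |(P ^ t) x z - 1 / (Fintype.card V : ℝ)| * P z y := by
    intro y
    have h2 : (P ^ (t + 1)) x y - 1 / (Fintype.card V : ℝ) =
        ∑ z, ((P ^ t) x z - 1 / (Fintype.card V : ℝ)) * P z y := by
      simp only [sub_mul, Finset.sum_sub_distrib]
      rw [← Finset.mul_sum, hc y, mul_one, pow_succ, Matrix.mul_apply]
    rw [h2]
    refine (Finset.abs_sum_le_sum_abs _ _).trans (le_of_eq ?_)
    refine Finset.sum_congr rfl fun z _ => ?_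
    rw [abs_mul, abs_of_nonneg (h0 z y)]
  have h3 : ∑ y, |(P ^ (t + 1)) x y - 1 / (Fintype.card V : ℝ)| ≤
      ∑ z, |(P ^ t) x z - 1 / (Fintype.card V : ℝ)| := by
    refine (Finset.sum_le_sum fun y _ => h1 y).trans (le_of_eq ?_)
    rw [Finset.sum_comm]
    refine Finset.sum_congr rfl fun z _ => ?_
    rw [← Finset.mul_sum, hr z, mul_one]
  linarith

end MON_

open Classical in
/-- MON -/
theorem p_MON (hLZ : T_LZ) (hMP : T_MP) : T_MON := by
  intro G _ _ d s hd hs t t' x htt
  have hP : ∀ x y : G, LP s x y = 1 / 2 * (M s ^ 0) x y + 1 / 2 * (M s ^ 1) x y := by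
    intro x y
    have h1 := (hLZ G d s hd hs).2.2 1 x y
    rw [pow_one, Finset.sum_range_succ, Finset.sum_range_one] at h1
    rw [h1]
    norm_num
  have h0 : ∀ x y : G, 0 ≤ LP s x y := by
    intro x y
    rw [hP]
    have h1 := (hMP G d s hd 0 x).1 y
    have h2 := (hMP G d s hd 1 x).1 y
    linarith
  have hr : ∀ x : G, ∑ y, LP s x y = 1 := by
    intro x
    simp only [hP]
    rw [Finset.sum_add_distrib, ← Finset.mul_sum, ← Finset.mul_sum, (hMP G d s hd 0 x).2.1,
      (hMP G d s hd 1 x).2.1]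
    norm_num
  have hc : ∀ y : G, ∑ x, LP s x y = 1 := by
    intro y
    simp only [hP]
    rw [Finset.sum_add_distrib, ← Finset.mul_sum, ← Finset.mul_sum, (hMP G d s hd 0 y).2.2.1,
      (hMP G d s hd 1 y).2.2.1]
    norm_num
  have hanti : Antitone (fun n : ℕ => tv s n x) :=
    antitone_nat_of_succ_le fun n => MON_.step (LP s) h0 hr hc n x
  exact hanti htt

end Pool.Agent.ACO
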