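import Pool.Agent.ACO.Targets

set_option autoImplicit false

/-! # ACO: powers of the transition matrix -/

namespace Pool.Agent.ACO

open Finset Classical

namespace MP_

variable {G : Type} [Group G] [Fintype G] {d : ℕ}

theorem apply_eq (s : Fin d → G) (x y : G) :
    M s x y = (∑ i, ((if y = x * s i then (1 : ℝ) else 0) +
      (if y = x * (s i)⁻¹ then 1 else 0))) / (2 * d) := by
  simp only [M, Matrix.of_apply]

theorem nonneg (s : Fin d → G) (x y : G) : 0 ≤ M s x y := by
  rw [apply_eq]
  refine div_nonneg (sum_nonneg fun i _ => ?_) (by positivity)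
  split_ifs <;> norm_num

theorem row (s : Fin d → G) (hd : 1 ≤ d) (x : G) : ∑ y, M s x y = 1 := by
  have hd0 : (d : ℝ) ≠ 0 := by
    have : (1 : ℝ) ≤ d := by exact_mod_cast hd
    linarith
  simp only [apply_eq]
  rw [← sum_div, sum_comm]
  simp only [sum_add_distrib, sum_ite_eq', mem_univ, if_true]
  simp only [sum_ite_eq, mem_univ, if_true, sum_const, card_univ, Fintype.card_fin,
    nsmul_eq_mul, mul_one]
  field_simp
  norm_num

theorem symm (s : Fin d → G) (x y : G) : M s x y = M s y x := by
  rw [apply_eq, apply_eq]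
  congr 1
  refine sum_congr rfl fun i _ => ?_
  have e1 : (y = x * s i) ↔ (x = y * (s i)⁻¹) := by
    rw [eq_mul_inv_iff_mul_eq]
    exact eq_comm
  have e2 : (y = x * (s i)⁻¹) ↔ (x = y * s i) := by
    rw [eq_mul_inv_iff_mul_eq]
    exact eq_comm
  simp only [e1, e2]
  rw [add_comm]

theorem isSymm (s : Fin d → G) : (M s).transpose = M s := by
  ext x y
  rw [Matrix.transpose_apply]
  exact symm s y x

theorem pow_symm (s : Fin d → G) (m : ℕ) (x y : G) : (M s ^ m) x y = (M s ^ m) y x := by
  have h : (M s ^ m).transpose = M s ^ m := by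
    rw [Matrix.transpose_pow, isSymm]
  calc (M s ^ m) x y = (M s ^ m).transpose x y := by rw [h]
    _ = (M s ^ m) y x := Matrix.transpose_apply _ _ _

/-- the neighbours of `z` -/
noncomputable def nb (s : Fin d → G) (z : G) : Finset G :=
  (univ : Finset (Fin d × Bool)).image
    (fun p => if p.2 = true then z * s p.1 else z * (s p.1)⁻¹)

omit [Fintype G] in
theorem nb_card (s : Fin d → G) (z : G) : (nb s z).card ≤ 2 * d := by
  refine card_image_le.trans ?_
  rw [card_univ, Fintype.card_prod, Fintype.card_fin, Fintype.card_bool]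
  omega

theorem mem_nb (s : Fin d → G) {z y : G} (h : M s z y ≠ 0) : y ∈ nb s z := by
  rw [apply_eq] at h
  have h1 : ∑ i, ((if y = z * s i then (1 : ℝ) else 0) +
      (if y = z * (s i)⁻¹ then 1 else 0)) ≠ 0 := by
    intro h0
    exact h (by rw [h0, zero_div])
  obtain ⟨i, -, hi⟩ := exists_ne_zero_of_sum_ne_zero h1
  unfold nb
  rw [mem_image]
  by_cases e1 : y = z * s i
  · exact ⟨(i, true), mem_univ _, by simp [e1]⟩
  · by_cases e2 : y = z * (s i)⁻¹
    · exact ⟨(i, false), mem_univ _, by simp [e2]⟩
    · simp [e1, e2] at hi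

end MP_

open MP_ in
theorem p_MP : T_MP := by
  intro G _ _ d s hd m
  induction m with
  | zero =>
    intro x
    refine ⟨fun y => ?_, ?_, ?_, ?_⟩
    · rw [pow_zero, Matrix.one_apply]
      split_ifs <;> norm_num
    · simp [Matrix.one_apply]
    · simp [Matrix.one_apply]
    · rw [pow_zero, pow_zero]
      have : (univ.filter fun y => (1 : Matrix G G ℝ) x y ≠ 0) ⊆ {x} := by
        intro y hy
        rw [mem_filter, Matrix.one_apply] at hy
        rw [mem_singleton]
        by_contra hne
        exact hy.2 (if_neg fun h => hne h.symm)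
      exact (card_le_card this).trans (by simp)
  | succ m ih =>
    intro x
    have e : ∀ y, (M s ^ (m + 1)) x y = ∑ z, (M s ^ m) x z * M s z y := fun y => by
      rw [pow_succ, Matrix.mul_apply]
    have hrow : ∑ y, (M s ^ (m + 1)) x y = 1 := by
      simp only [e]
      rw [sum_comm]
      simp only [← mul_sum, row s hd, mul_one]
      exact (ih x).2.1
    refine ⟨fun y => ?_, hrow, ?_, ?_⟩
    · rw [e]
      exact sum_nonneg fun z _ => mul_nonneg ((ih x).1 z) (nonneg s z y)
    · calc ∑ y, (M s ^ (m + 1)) y x = ∑ y, (M s ^ (m + 1)) x y :=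
            sum_congr rfl fun y _ => pow_symm s (m + 1) y x
        _ = 1 := hrow
    · have hsub : (univ.filter fun y => (M s ^ (m + 1)) x y ≠ 0) ⊆
          (univ.filter fun y => (M s ^ m) x y ≠ 0).biUnion (nb s) := by
        intro y hy
        rw [mem_filter, e] at hy
        obtain ⟨z, -, hz⟩ := exists_ne_zero_of_sum_ne_zero hy.2
        rw [mem_biUnion]
        refine ⟨z, ?_, mem_nb s (right_ne_zero_of_mul hz)⟩
        rw [mem_filter]
        exact ⟨mem_univ _, left_ne_zero_of_mul hz⟩
      refine (card_le_card hsub).trans ?_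
      refine (card_biUnion_le_card_mul _ _ (2 * d) fun z _ => nb_card s z).trans ?_
      rw [pow_succ]
      exact Nat.mul_le_mul_right _ (ih x).2.2.2

end Pool.Agent.ACO
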