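import Pool.Agent.ACO.TargetsN

set_option autoImplicit false

/-!
# NBN: the matrices of the uniform reduced words
-/

namespace Pool.Agent.ACO

open Finset Classical

namespace NBN_

variable {G : Type} [Group G] {d : ℕ}

/-- the value of a letter -/
def val (s : Fin d → G) (l : Fin d × Bool) : G := if l.2 then s l.1 else (s l.1)⁻¹

/-- the inverse letter -/
def iv (l : Fin d × Bool) : Fin d × Bool := (l.1, !l.2)

theorem iv_iv (l : Fin d × Bool) : iv (iv l) = l := by
  unfold iv
  simp

theorem val_iv (s : Fin d → G) (l : Fin d × Bool) : val s l * val s (iv l) = 1 := by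
  obtain ⟨i, b⟩ := l
  cases b <;> simp [val, iv]

open Classical in
/-- the number of reduced words of length `n + 1` with first letter `l` from `x` to `y` -/
noncomputable def W (s : Fin d → G) : ℕ → Fin d × Bool → G → G → ℕ
  | 0, l, x, y => if y = x * val s l then 1 else 0
  | (n + 1), l, x, y => ∑ m ∈ univ.filter (fun m => m ≠ iv l), W s n m (x * val s l) y

/-- the number of reduced words of length `n + 1` from `x` to `y` -/
noncomputable def A (s : Fin d → G) (n : ℕ) (x y : G) : ℕ := ∑ l, W s n l x y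

theorem sum_ne (f : Fin d × Bool → ℕ) (l : Fin d × Bool) :
    ∑ m ∈ univ.filter (fun m => m ≠ l), f m + f l = ∑ m, f m := by
  rw [Finset.filter_ne', Finset.sum_erase_add _ _ (Finset.mem_univ l)]

theorem W_succ (s : Fin d → G) (n : ℕ) (l : Fin d × Bool) (x y : G) :
    W s (n + 1) l x y + W s n (iv l) (x * val s l) y = A s n (x * val s l) y := by
  have h := sum_ne (fun m => W s n m (x * val s l) y) (iv l)
  exact h

theorem S_eq (s : Fin d → G) (n : ℕ) (x y : G) :
    A s (n + 1) x y + ∑ l, W s n (iv l) (x * val s l) y = ∑ l, A s n (x * val s l) y := by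
  unfold A
  rw [← Finset.sum_add_distrib]
  exact Finset.sum_congr rfl fun l _ => W_succ s n l x y

open Classical in
theorem back_zero (s : Fin d → G) (x y : G) :
    ∑ l, W s 0 (iv l) (x * val s l) y = 2 * d * (if x = y then 1 else 0) := by
  have h : ∀ l : Fin d × Bool, W s 0 (iv l) (x * val s l) y = if x = y then 1 else 0 := by
    intro l
    show (if y = x * val s l * val s (iv l) then 1 else 0) = if x = y then 1 else 0
    rw [mul_assoc, val_iv, mul_one]
    by_cases h : x = y
    · rw [if_pos h, if_pos h.symm]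
    · rw [if_neg h, if_neg (fun h' => h h'.symm)]
  rw [Finset.sum_congr rfl fun l _ => h l, Finset.sum_const, Finset.card_univ,
    Fintype.card_prod, Fintype.card_fin, Fintype.card_bool, smul_eq_mul]
  ring

theorem back_succ (s : Fin d → G) (n : ℕ) (x y : G) :
    ∑ l, W s (n + 1) (iv l) (x * val s l) y + A s n x y = 2 * d * A s n x y := by
  have h : ∀ l : Fin d × Bool, W s (n + 1) (iv l) (x * val s l) y + W s n l x y = A s n x y := by
    intro l
    have h1 := sum_ne (fun m => W s n m (x * val s l * val s (iv l)) y) (iv (iv l))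
    have h2 : W s (n + 1) (iv l) (x * val s l) y =
      ∑ m ∈ univ.filter (fun m => m ≠ iv (iv l)), W s n m (x * val s l * val s (iv l)) y := rfl
    rw [← h2] at h1
    rw [mul_assoc, val_iv, mul_one, iv_iv] at h1
    exact h1
  have h3 : ∑ l, (W s (n + 1) (iv l) (x * val s l) y + W s n l x y) =
      ∑ _l : Fin d × Bool, A s n x y := Finset.sum_congr rfl fun l _ => h l
  rw [Finset.sum_add_distrib, Finset.sum_const, Finset.card_univ, Fintype.card_prod,
    Fintype.card_fin, Fintype.card_bool, smul_eq_mul] at h3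
  unfold A at h3 ⊢
  rw [h3]
  ring

variable [Fintype G]

theorem row_W (s : Fin d → G) (n : ℕ) (l : Fin d × Bool) (x : G) :
    ∑ y, W s n l x y = (2 * d - 1) ^ n := by
  induction n generalizing l x with
  | zero =>
    show ∑ y, (if y = x * val s l then 1 else 0) = (2 * d - 1) ^ 0
    rw [Finset.sum_ite_eq' univ (x * val s l) (fun _ => 1), if_pos (Finset.mem_univ _), pow_zero]
  | succ n ih =>
    have h1 : ∑ y, W s (n + 1) l x y =
        ∑ y, ∑ m ∈ univ.filter (fun m => m ≠ iv l), W s n m (x * val s l) y := rfl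
    rw [h1, Finset.sum_comm, Finset.sum_congr rfl fun m _ => ih m (x * val s l),
      Finset.sum_const, smul_eq_mul, Finset.filter_ne',
      Finset.card_erase_of_mem (Finset.mem_univ _),
      Finset.card_univ, Fintype.card_prod, Fintype.card_fin, Fintype.card_bool, pow_succ,
      mul_comm d 2]
    ring

theorem row_A (s : Fin d → G) (n : ℕ) (x : G) :
    ∑ y, A s n x y = 2 * d * (2 * d - 1) ^ n := by
  unfold A
  rw [Finset.sum_comm, Finset.sum_congr rfl fun l _ => row_W s n l x, Finset.sum_const,
    Finset.card_univ, Fintype.card_prod, Fintype.card_fin, Fintype.card_bool, smul_eq_mul]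
  ring

theorem M_eq (s : Fin d → G) (x y : G) : M s x y = (A s 0 x y : ℝ) / (2 * d) := by
  unfold M A
  rw [Matrix.of_apply, Fintype.sum_prod_type]
  congr 1
  rw [Nat.cast_sum]
  refine Finset.sum_congr rfl fun i _ => ?_
  rw [Fintype.sum_bool]
  simp only [W, val]
  norm_num

theorem M_mul (s : Fin d → G) (B : Matrix G G ℝ) (x y : G) :
    (M s * B) x y = (∑ l : Fin d × Bool, B (x * val s l) y) / (2 * d) := by
  rw [Matrix.mul_apply]
  have h1 : ∀ z : G, M s x z * B z y =
      (∑ l : Fin d × Bool, (W s 0 l x z : ℝ) * B z y) / (2 * d) := by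
    intro z
    rw [M_eq]
    unfold A
    rw [Nat.cast_sum, ← Finset.sum_mul]
    ring
  rw [Finset.sum_congr rfl fun z _ => h1 z, ← Finset.sum_div, Finset.sum_comm]
  congr 1
  refine Finset.sum_congr rfl fun l _ => ?_
  have h2 : ∀ z : G, (W s 0 l x z : ℝ) * B z y = if z = x * val s l then B z y else 0 := by
    intro z
    show (((if z = x * val s l then 1 else 0 : ℕ)) : ℝ) * B z y = _
    by_cases h : z = x * val s l
    · rw [if_pos h, if_pos h]
      simp
    · rw [if_neg h, if_neg h]
      simp
  rw [Finset.sum_congr rfl fun z _ => h2 z, Finset.sum_ite_eq' univ (x * val s l),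
    if_pos (Finset.mem_univ _)]

theorem NB_eq (s : Fin d → G) (hd : 1 ≤ d) : ∀ (n : ℕ) (x y : G),
    NB s (n + 1) x y = (A s n x y : ℝ) / (2 * d * (2 * d - 1) ^ n)
  | 0, x, y => by
    show M s x y = _
    rw [M_eq, pow_zero, mul_one]
  | 1, x, y => by
    have hd' : (1 : ℝ) ≤ d := by exact_mod_cast hd
    have e1 : NB s (1 + 1) x y =
        (1 / (2 * (d : ℝ) - 1)) * ((2 * (d : ℝ)) * (M s * M s) x y - (1 : Matrix G G ℝ) x y) := rfl
    rw [e1, M_mul, Finset.sum_congr rfl fun l _ => M_eq s (x * val s l) y, ← Finset.sum_div]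
    have e2 := S_eq s 0 x y
    rw [back_zero] at e2
    have e3 : ∑ l, ((A s 0 (x * val s l) y : ℕ) : ℝ) =
        (A s 1 x y : ℝ) + 2 * d * (if x = y then 1 else 0) := by
      rw [← Nat.cast_sum, ← e2]
      push_cast
      rfl
    rw [e3, Matrix.one_apply]
    have h0 : (2 * (d : ℝ) - 1) ≠ 0 := by
      have : (0 : ℝ) < 2 * d - 1 := by linarith
      exact this.ne'
    have h1 : (d : ℝ) ≠ 0 := by positivity
    field_simp
    ring
  | (n + 2), x, y => by
    have hd' : (1 : ℝ) ≤ d := by exact_mod_cast hd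
    have e1 : NB s (n + 2 + 1) x y =
        (1 / (2 * (d : ℝ) - 1)) * ((2 * (d : ℝ)) * (M s * NB s (n + 2)) x y - NB s (n + 1) x y) :=
      rfl
    rw [e1, M_mul, Finset.sum_congr rfl fun l _ => NB_eq s hd (n + 1) (x * val s l) y,
      NB_eq s hd n x y, ← Finset.sum_div]
    have e2 := S_eq s (n + 1) x y
    have e3 := back_succ s n x y
    have e4 : ∑ l, ((A s (n + 1) (x * val s l) y : ℕ) : ℝ) + (A s n x y : ℝ) =
        (A s (n + 2) x y : ℝ) + 2 * d * (A s n x y : ℝ) := by
      rw [← Nat.cast_sum, ← e2]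
      have e5 : ((∑ l, W s (n + 1) (iv l) (x * val s l) y : ℕ) : ℝ) + (A s n x y : ℝ) =
          2 * d * (A s n x y : ℝ) := by exact_mod_cast e3
      push_cast at e5 ⊢
      linarith
    have e6 : ∑ l, ((A s (n + 1) (x * val s l) y : ℕ) : ℝ) =
        (A s (n + 2) x y : ℝ) + 2 * d * (A s n x y : ℝ) - (A s n x y : ℝ) := by linarith
    rw [e6]
    have h0 : (2 * (d : ℝ) - 1) ≠ 0 := by
      have : (0 : ℝ) < 2 * d - 1 := by linarith
      exact this.ne'
    have h1 : (d : ℝ) ≠ 0 := by positivity
    have h2 : (2 * (d : ℝ) - 1) ^ n ≠ 0 := pow_ne_zero _ h0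
    rw [pow_add, pow_add]
    field_simp
    ring

end NBN_

open NBN_ in
theorem p_NBN : T_NBN := by
  intro G _ _ d s hd j x
  have hd' : (1 : ℝ) ≤ d := by exact_mod_cast hd
  rcases j with _ | n
  · have h1 : ∀ y, NB s 0 x y = (1 : Matrix G G ℝ) x y := fun y => rfl
    refine ⟨fun y => ?_, ?_, ?_⟩
    · rw [h1, Matrix.one_apply]
      split_ifs <;> norm_num
    · have h2 : ∀ y, NB s 0 x y = if x = y then (1 : ℝ) else 0 := by
        intro y
        rw [h1, Matrix.one_apply]
      rw [Finset.sum_congr rfl fun y _ => h2 y, Finset.sum_ite_eq univ x,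
        if_pos (Finset.mem_univ _)]
    · have h2 : (univ.filter (fun y => NB s 0 x y ≠ 0)) ⊆ {x} := by
        intro y hy
        rw [Finset.mem_filter, h1, Matrix.one_apply] at hy
        rw [Finset.mem_singleton]
        by_contra h3
        rw [if_neg (fun h => h3 h.symm)] at hy
        exact hy.2 rfl
      have h3 := Finset.card_le_card h2
      rw [Finset.card_singleton] at h3
      rw [pow_zero]
      omega
  · have hp : (0 : ℝ) < 2 * d * (2 * d - 1) ^ n := by
      have : (0 : ℝ) < 2 * d - 1 := by linarith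
      positivity
    have hr : (∑ y, (A s n x y : ℝ)) = 2 * d * (2 * d - 1) ^ n := by
      rw [← Nat.cast_sum, row_A]
      push_cast
      rw [Nat.cast_sub (by omega)]
      push_cast
      ring
    refine ⟨fun y => ?_, ?_, ?_⟩
    · rw [NB_eq s hd]
      positivity
    · rw [Finset.sum_congr rfl fun y _ => NB_eq s hd n x y, ← Finset.sum_div, hr]
      exact div_self hp.ne'
    · calc (univ.filter (fun y => NB s (n + 1) x y ≠ 0)).card
          = ∑ _y ∈ univ.filter (fun y => NB s (n + 1) x y ≠ 0), 1 := by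
            rw [Finset.sum_const, smul_eq_mul, mul_one]
        _ ≤ ∑ y ∈ univ.filter (fun y => NB s (n + 1) x y ≠ 0), A s n x y := by
            refine Finset.sum_le_sum fun y hy => ?_
            rw [Finset.mem_filter, NB_eq s hd] at hy
            by_contra h
            have h0 : A s n x y = 0 := by omega
            rw [h0] at hy
            simp at hy
        _ ≤ ∑ y, A s n x y := Finset.sum_le_univ_sum_of_nonneg fun _ => Nat.zero_le _
        _ = 2 * d * (2 * d - 1) ^ n := row_A s n x
        _ ≤ 2 * (2 * d - 1) ^ (n + 1) := by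
            rw [pow_succ]
            have h1 : d ≤ 2 * d - 1 := by omega
            calc 2 * d * (2 * d - 1) ^ n ≤ 2 * (2 * d - 1) * (2 * d - 1) ^ n := by gcongr
              _ = 2 * ((2 * d - 1) ^ n * (2 * d - 1)) := by ring

end Pool.Agent.ACO
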