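import Pool.Agent.ACO.Targets

set_option autoImplicit false

/-!
# ACO: `NormLe` of RCG gives `Nrm` (target NL)
-/

namespace Pool.Agent.ACO

open Finset
open Pool.Agent.VAC (lazyP tvDist tmix)
open Pool.Agent.RCG (PSL NormLe)

namespace NL_

theorem mul_vec {G : Type} [Group G] [Fintype G] {d : ℕ} (s : Fin d → G) (f : G → ℝ) (x : G) :
    (M s).mulVec f x = (∑ i : Fin d, (f (x * s i) + f (x * (s i)⁻¹))) / (2 * d) := by
  classical
  unfold M Matrix.mulVec dotProduct
  simp only [Matrix.of_apply]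
  have h1 : ∀ y : G, (∑ i, ((if y = x * s i then (1 : ℝ) else 0) +
      (if y = x * (s i)⁻¹ then 1 else 0))) / (2 * d) * f y =
      (∑ i, ((if y = x * s i then f y else 0) + (if y = x * (s i)⁻¹ then f y else 0))) /
        (2 * d) := by
    intro y
    rw [div_mul_eq_mul_div, Finset.sum_mul]
    congr 1
    refine Finset.sum_congr rfl fun i _ => ?_
    rw [add_mul, ite_mul, ite_mul, one_mul, zero_mul]
  have h2 : ∑ y : G, (∑ i, ((if y = x * s i then f y else 0) +
      (if y = x * (s i)⁻¹ then f y else 0))) / (2 * d) =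
      (∑ i : Fin d, (f (x * s i) + f (x * (s i)⁻¹))) / (2 * d) := by
    rw [← Finset.sum_div, Finset.sum_comm]
    congr 1
    refine Finset.sum_congr rfl fun i _ => ?_
    rw [Finset.sum_add_distrib, Finset.sum_ite_eq' Finset.univ (x * s i) f,
      Finset.sum_ite_eq' Finset.univ (x * (s i)⁻¹) f]
    simp
  rw [← h2]
  refine Finset.sum_congr rfl fun y _ => ?_
  rw [← h1 y]

end NL_

/-- **NL** -/
theorem p_NL : T_NL := by
  intro G _ _ d s B hd h f hf
  have h1 := h f (by rw [finsum_eq_sum_of_fintype]; exact hf)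
  rw [finsum_eq_sum_of_fintype, finsum_eq_sum_of_fintype] at h1
  have hd' : (0 : ℝ) < 2 * d := by
    have : (0 : ℝ) < d := by exact_mod_cast hd
    linarith
  calc ∑ x, ((M s).mulVec f x) ^ 2
      = (∑ x, (∑ i : Fin d, (f (x * s i) + f (x * (s i)⁻¹))) ^ 2) / (2 * d) ^ 2 := by
        rw [Finset.sum_div]
        refine Finset.sum_congr rfl fun x _ => ?_
        rw [NL_.mul_vec, div_pow]
    _ ≤ (B ^ 2 * ∑ x, f x ^ 2) / (2 * d) ^ 2 := by gcongr
    _ = (B / (2 * d)) ^ 2 * ∑ x, f x ^ 2 := by rw [div_pow]; ring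

end Pool.Agent.ACO
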