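import Pool.Agent.ACO.TargetsN
import Pool.Agent.ACO.P_MP

set_option autoImplicit false

/-! # ACO: the distance of `NB s j` to the uniform distribution -/

namespace Pool.Agent.ACO

open Finset Classical

namespace SPN_

theorem basis {n : Type} [Fintype n] (A : Matrix n n ℝ) (hA : A.transpose = A) :
    ∃ (b : n → n → ℝ) (m : n → ℝ), (∀ i, A.mulVec (b i) = m i • b i) ∧
      (∀ i, ∑ y, b i y ^ 2 = 1) ∧
      ∀ f : n → ℝ, ∑ i, (∑ y, b i y * f y) ^ 2 = ∑ y, f y ^ 2 := by
  have hH : A.IsHermitian := by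
    rw [Matrix.IsHermitian, Matrix.conjTranspose_eq_transpose_of_trivial, hA]
  refine ⟨fun i => (hH.eigenvectorBasis i).ofLp, hH.eigenvalues,
    fun i => hH.mulVec_eigenvectorBasis i, fun i => ?_, fun f => ?_⟩
  · rw [← EuclideanSpace.real_norm_sq_eq, hH.eigenvectorBasis.orthonormal.1 i, one_pow]
  · have h := hH.eigenvectorBasis.sum_sq_norm_inner_right (WithLp.toLp 2 f)
    rw [EuclideanSpace.real_norm_sq_eq] at h
    rw [← h]
    refine sum_congr rfl fun i _ => ?_
    rw [Real.norm_eq_abs, sq_abs, PiLp.inner_apply]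
    congr 1
    refine sum_congr rfl fun y _ => ?_
    simp [mul_comm]

variable {G : Type} [Group G] [Fintype G] {d : ℕ}

theorem comm (s : Fin d → G) (j : ℕ) : M s * NB s j = NB s j * M s := by
  induction j using Nat.twoStepInduction with
  | zero => rw [NB, mul_one, one_mul]
  | one => rw [NB]
  | more j h1 h2 =>
    rw [NB, Matrix.mul_smul, Matrix.smul_mul, Matrix.mul_sub, Matrix.sub_mul, Matrix.mul_smul,
      Matrix.smul_mul, h1, Matrix.mul_assoc, ← h2]

theorem symm (s : Fin d → G) (j : ℕ) : (NB s j).transpose = NB s j := by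
  induction j using Nat.twoStepInduction with
  | zero => rw [NB, Matrix.transpose_one]
  | one => rw [NB, MP_.isSymm]
  | more j h1 h2 =>
    rw [NB, Matrix.transpose_smul, Matrix.transpose_sub, Matrix.transpose_smul,
      Matrix.transpose_mul, h1, h2, MP_.isSymm, ← comm]

theorem row (s : Fin d → G) (hd : 1 ≤ d) (j : ℕ) : ∀ x : G, ∑ y, NB s j x y = 1 := by
  have hd1 : (1 : ℝ) ≤ d := by exact_mod_cast hd
  induction j using Nat.twoStepInduction with
  | zero => intro x; simp [NB, Matrix.one_apply]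
  | one => intro x; simp only [NB]; exact MP_.row s hd x
  | more j h1 h2 =>
    intro x
    have e : ∀ y, NB s (j + 2) x y = (1 / (2 * (d : ℝ) - 1)) *
        ((2 * (d : ℝ)) * (∑ z, M s x z * NB s (j + 1) z y) - NB s j x y) := fun y => by
      rw [NB, Matrix.smul_apply, Matrix.sub_apply, Matrix.smul_apply, Matrix.mul_apply,
        smul_eq_mul, smul_eq_mul]
    have h3 : ∑ y, ∑ z, M s x z * NB s (j + 1) z y = 1 := by
      rw [sum_comm]
      simp only [← mul_sum, h2, mul_one]
      exact MP_.row s hd x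
    simp only [e]
    rw [← mul_sum, sum_sub_distrib, ← mul_sum, h3, h1 x]
    have : (2 * (d : ℝ) - 1) ≠ 0 := by linarith
    field_simp

theorem eig (s : Fin d → G) (m : ℝ) (b : G → ℝ) (h : (M s).mulVec b = m • b) (j : ℕ) :
    (NB s j).mulVec b = nb (2 * (d : ℝ)) m j • b := by
  induction j using Nat.twoStepInduction with
  | zero => rw [NB, nb, Matrix.one_mulVec, one_smul]
  | one => rw [NB, nb, h]
  | more j h1 h2 =>
    rw [NB, nb, Matrix.smul_mulVec, Matrix.sub_mulVec, Matrix.smul_mulVec,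
      ← Matrix.mulVec_mulVec, h2, Matrix.mulVec_smul, h, h1]
    ext y
    simp only [Pi.smul_apply, Pi.sub_apply, smul_eq_mul]
    ring

/-- the eigenvalue is small, or the eigenvector is constant -/
theorem small (s : Fin d → G) (hd : 1 ≤ d) (ρ : ℝ) (hρ : 0 ≤ ρ) (hN : Nrm s ρ) (m : ℝ)
    (b : G → ℝ) (h : (M s).mulVec b = m • b) :
    |m| ≤ ρ ∨ ∃ c : ℝ, ∀ y, b y = c := by
  have hN0 : (0 : ℝ) < Fintype.card G := by exact_mod_cast Fintype.card_pos
  set c : ℝ := (∑ y, b y) / Fintype.card G with hc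
  set f : G → ℝ := fun y => b y - c with hf
  have hf0 : ∑ y, f y = 0 := by
    simp only [hf]
    rw [sum_sub_distrib, sum_const, card_univ, nsmul_eq_mul, hc]
    field_simp
    ring
  -- sums are preserved
  have hsum : ∀ g : G → ℝ, ∑ x, (M s).mulVec g x = ∑ y, g y := fun g => by
    simp only [Matrix.mulVec, dotProduct]
    rw [sum_comm]
    refine sum_congr rfl fun y _ => ?_
    rw [← sum_mul]
    have : ∑ x, M s x y = 1 := by
      rw [← MP_.row s hd y]
      exact sum_congr rfl fun x _ => MP_.symm s x y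
    rw [this, one_mul]
  have hMf : ∀ x, (M s).mulVec f x = m * b x - c := fun x => by
    have h1 : (M s).mulVec b x = m * b x := by rw [h]; rfl
    have h2 : (M s).mulVec f x = (M s).mulVec b x - c * ∑ y, M s x y := by
      simp only [Matrix.mulVec, dotProduct, hf]
      rw [mul_sum, ← sum_sub_distrib]
      exact sum_congr rfl fun y _ => by ring
    rw [h2, h1, MP_.row s hd, mul_one]
  have hmc : m * c = c := by
    have h1 := hsum f
    rw [hf0] at h1
    simp only [hMf] at h1
    rw [sum_sub_distrib, ← mul_sum, sum_const, card_univ, nsmul_eq_mul] at h1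
    have h2 : ∑ y, b y = c * Fintype.card G := by rw [hc]; field_simp
    rw [h2] at h1
    have h3 : (m * c - c) * Fintype.card G = 0 := by linarith
    rcases mul_eq_zero.1 h3 with h4 | h4
    · linarith
    · exact absurd h4 hN0.ne'
  have hMf' : ∀ x, (M s).mulVec f x = m * f x := fun x => by
    rw [hMf]; simp only [hf]; rw [mul_sub, hmc]
  have h5 := hN f hf0
  simp only [hMf', mul_pow] at h5
  rw [← mul_sum] at h5
  rcases eq_or_lt_of_le (sum_nonneg fun x (_ : x ∈ (univ : Finset G)) => sq_nonneg (f x)) with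
    h6 | h6
  · right
    refine ⟨c, fun y => ?_⟩
    have h7 := (sum_eq_zero_iff_of_nonneg fun x (_ : x ∈ (univ : Finset G)) =>
      sq_nonneg (f x)).1 h6.symm y (mem_univ y)
    have h8 : f y = 0 := by simpa using h7
    simp only [hf] at h8
    linarith
  · left
    exact abs_le_of_sq_le_sq (le_of_mul_le_mul_right h5 h6) hρ

end SPN_

open SPN_ in
theorem p_SPN (h_CHE : T_CHE) : T_SPN := by
  intro G _ _ d s ρ τ hd hρ hN hτ hρτ j x
  have hd1 : (1 : ℝ) ≤ d := by exact_mod_cast hd
  have hN0 : (0 : ℝ) < Fintype.card G := by exact_mod_cast Fintype.card_pos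
  set N : ℝ := (Fintype.card G : ℝ) with hNN
  set B : ℝ := ((j : ℝ) + 1) * (τ / √(2 * (d : ℝ) - 1)) ^ j with hB
  have hB0 : 0 ≤ B := by
    rw [hB]
    have : 0 ≤ τ / √(2 * (d : ℝ) - 1) := div_nonneg (by linarith) (Real.sqrt_nonneg _)
    positivity
  obtain ⟨b, m, hb, -, hP⟩ := basis (M s) (MP_.isSymm s)
  set g : G → ℝ := fun y => (if y = x then 1 else 0) - 1 / N with hg
  have hg0 : ∑ y, g y = 0 := by
    simp only [hg]
    rw [sum_sub_distrib, sum_ite_eq', if_pos (mem_univ x), sum_const, card_univ, nsmul_eq_mul,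
      ← hNN]
    field_simp
    ring
  have hg2 : ∑ y, g y ^ 2 ≤ 1 := by
    have e : ∀ y, g y ^ 2 = (if y = x then 1 else 0) * (1 - 1 / N) - 1 / N * g y := fun y => by
      simp only [hg]
      split_ifs <;> ring
    simp only [e]
    rw [sum_sub_distrib, ← mul_sum, hg0, ← sum_mul, sum_ite_eq', if_pos (mem_univ x)]
    have : 0 < 1 / N := by positivity
    linarith
  have hh : ∀ y, (NB s j).mulVec g y = NB s j x y - 1 / N := fun y => by
    have hs : NB s j y x = NB s j x y := by
      conv_lhs => rw [← SPN_.symm s j, Matrix.transpose_apply]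
    simp only [Matrix.mulVec, dotProduct, hg, mul_sub, sum_sub_distrib, mul_ite, mul_one,
      mul_zero]
    rw [sum_ite_eq', if_pos (mem_univ x), ← sum_mul, row s hd, hs, one_mul]
  -- inner products with the basis
  have hin : ∀ i, ∑ y, b i y * (NB s j).mulVec g y = nb (2 * (d : ℝ)) (m i) j *
      ∑ y, b i y * g y := fun i => by
    have h1 : (b i) ⬝ᵥ (NB s j).mulVec g = ((NB s j).mulVec (b i)) ⬝ᵥ g := by
      rw [Matrix.dotProduct_mulVec, ← Matrix.mulVec_transpose, SPN_.symm]
    rw [eig s (m i) (b i) (hb i) j] at h1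
    simp only [dotProduct, Pi.smul_apply, smul_eq_mul] at h1
    rw [h1, mul_sum]
    exact sum_congr rfl fun y _ => by ring
  have hterm : ∀ i, (∑ y, b i y * (NB s j).mulVec g y) ^ 2 ≤
      B ^ 2 * (∑ y, b i y * g y) ^ 2 := fun i => by
    rw [hin i, mul_pow]
    rcases small s hd ρ hρ hN (m i) (b i) (hb i) with h1 | ⟨c, h1⟩
    · have h2 := h_CHE (2 * (d : ℝ)) (m i) τ j (by linarith) hτ
        ((mul_le_mul_of_nonneg_left h1 (by linarith)).trans hρτ)
      have h3 : (nb (2 * (d : ℝ)) (m i) j) ^ 2 ≤ B ^ 2 := sq_le_sq' (by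
        have := abs_le.1 h2; rw [hB]; linarith [this.1]) (abs_le.1 h2).2
      exact mul_le_mul_of_nonneg_right h3 (sq_nonneg _)
    · have h2 : ∑ y, b i y * g y = 0 := by
        simp only [h1]
        rw [← mul_sum, hg0, mul_zero]
      rw [h2]; simp
  have hL2 : ∑ y, ((NB s j).mulVec g y) ^ 2 ≤ B ^ 2 := by
    rw [← hP]
    calc ∑ i, (∑ y, b i y * (NB s j).mulVec g y) ^ 2
        ≤ ∑ i, B ^ 2 * (∑ y, b i y * g y) ^ 2 := sum_le_sum fun i _ => hterm i
      _ = B ^ 2 * ∑ y, g y ^ 2 := by rw [← mul_sum, hP]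
      _ ≤ B ^ 2 * 1 := mul_le_mul_of_nonneg_left hg2 (sq_nonneg _)
      _ = B ^ 2 := mul_one _
  have hCS := sum_mul_sq_le_sq_mul_sq (univ : Finset G) (fun _ => (1 : ℝ))
    (fun y => |NB s j x y - 1 / N|)
  simp only [one_mul, one_pow, sum_const, card_univ, nsmul_eq_mul, mul_one, sq_abs] at hCS
  have h9 : (∑ y, |NB s j x y - 1 / N|) ^ 2 ≤ (√N * B) ^ 2 := by
    refine hCS.trans ?_
    rw [mul_pow, Real.sq_sqrt hN0.le]
    refine mul_le_mul_of_nonneg_left ?_ hN0.le
    simpa only [hh] using hL2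
  exact le_of_sq_le_sq h9 (mul_nonneg (Real.sqrt_nonneg _) hB0)

end Pool.Agent.ACO
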