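import Pool.Agent.ACO.Targets

set_option autoImplicit false

/-!
# ACO: mixing times from the upper and the lower bound
-/

namespace Pool.Agent.ACO

open Finset

namespace TM_

theorem expneg {x : ℝ} (hx : 0 < x) : Real.exp (-x) ≤ 1 / x := by
  rw [Real.exp_neg, ← one_div]
  apply one_div_le_one_div_of_le hx
  linarith [Real.add_one_le_exp x]

/-- the real inequalities of the upper bound -/
theorem up {η L κ r ρ T R : ℝ} (hη : 0 < η) (hη1 : η < 1) (hκ : 1 / 2 ≤ κ) (hr : 0 < r)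
    (hrκ : r ≤ κ / 2) (hρ : ρ = Real.exp (-r)) (hT : T = L / r) (hR : R = 1000 / η ^ 3)
    (hRL : R * κ ≤ 2 * L) (t m0 : ℕ) (ht : t = ⌈(1 + η / 2) * T⌉₊)
    (hm : m0 = ⌊(1 + η / 4) * T / 2⌋₊) :
    0 < η * T / 8 ∧ (m0 : ℝ) + η * T / 8 ≤ t / 2 ∧
      (t : ℝ) / (4 * (η * T / 8) ^ 2) + Real.exp (L / 2) * ρ ^ m0 / 2 ≤ η ∧
      (t : ℝ) ≤ (1 + η) * T := by
  have hη3 : 0 < η ^ 3 := by positivity
  have hRη : R * η ^ 3 = 1000 := by rw [hR]; field_simp
  have hRpos : 0 < R := by rw [hR]; positivity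
  have hηle : η ^ 3 ≤ η := by nlinarith [mul_pos hη hη]
  have hηle2 : η ^ 3 ≤ η ^ 2 := by nlinarith [mul_pos hη hη]
  have hη31 : η ^ 3 ≤ 1 := by linarith
  have hκ0 : 0 < κ := by linarith
  have hL : 0 < L := by
    have := mul_pos hRpos hκ0
    linarith
  have hT0 : 0 < T := by rw [hT]; positivity
  have hTL : T * r = L := by rw [hT]; field_simp
  have hRT : R ≤ T := by
    rw [hT, le_div_iff₀ hr]
    nlinarith
  have hTη : 1000 ≤ T * η ^ 3 := by nlinarith
  have hTη1 : 1000 ≤ T * η := by nlinarith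
  have hT1 : 1000 ≤ T := by nlinarith
  have hR1 : 1000 ≤ R := by nlinarith
  have hRη1 : 1000 ≤ R * η := by nlinarith
  have hRη2 : 1000 ≤ R * η ^ 2 := by nlinarith
  have h1 : (t : ℝ) ≤ (1 + η / 2) * T + 1 := by
    rw [ht]
    exact (Nat.ceil_lt_add_one (by positivity)).le
  have h2 : (1 + η / 2) * T ≤ t := by
    rw [ht]; exact Nat.le_ceil _
  have h3 : (m0 : ℝ) ≤ (1 + η / 4) * T / 2 := by
    rw [hm]; exact Nat.floor_le (by positivity)
  have h4 : (1 + η / 4) * T / 2 - 1 ≤ m0 := by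
    rw [hm]
    have := Nat.lt_floor_add_one ((1 + η / 4) * T / 2)
    linarith
  have ha : 0 < η * T / 8 := by positivity
  refine ⟨ha, by nlinarith, ?_, by nlinarith⟩
  have hA : (t : ℝ) / (4 * (η * T / 8) ^ 2) ≤ η / 2 := by
    rw [div_le_iff₀ (by positivity)]
    have e : η / 2 * (4 * (η * T / 8) ^ 2) = T * (T * η ^ 3) / 32 := by ring
    rw [e]
    nlinarith
  have hB : Real.exp (L / 2) * ρ ^ m0 ≤ η := by
    have e1 : ρ ^ m0 = Real.exp (-(r * m0)) := by
      rw [hρ, ← Real.exp_nat_mul]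
      ring_nf
    rw [e1, ← Real.exp_add]
    have e2 : L / 2 + -(r * m0) ≤ -(η * L / 16) := by
      have i1 : r * ((1 + η / 4) * T / 2 - 1) ≤ r * m0 := mul_le_mul_of_nonneg_left h4 hr.le
      have i2 : r * ((1 + η / 4) * T / 2 - 1) = (1 + η / 4) * L / 2 - r := by
        rw [← hTL]; ring
      have i3 : 16 * κ ≤ η * (R * κ) := by nlinarith
      nlinarith
    refine (Real.exp_le_exp.mpr e2).trans ((expneg (by positivity)).trans ?_)
    rw [div_le_iff₀ (by positivity)]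
    have i4 : R / 2 ≤ R * κ := by nlinarith
    have i5 : R / 4 ≤ L := by linarith
    have i6 : η ^ 2 * (R / 4) ≤ η ^ 2 * L := mul_le_mul_of_nonneg_left i5 (by positivity)
    nlinarith
  linarith

/-- the real inequalities of the lower bound -/
theorem low {η L κ k T R : ℝ} (hη : 0 < η) (hη1 : η < 1) (hκ : 1 / 2 ≤ κ)
    (hk : k = Real.exp κ) (hT : T = 2 * L / κ) (hR : R = 1000 / η ^ 3)
    (hRL : R * κ ≤ 2 * L) (t m1 : ℕ) (ht : t = ⌊(1 - η / 2) * T⌋₊)
    (hm : m1 = ⌈(1 - η / 4) * T / 2⌉₊) :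
    0 < η * T / 8 ∧ (t : ℝ) / 2 + η * T / 8 ≤ m1 ∧
      (t : ℝ) / (4 * (η * T / 8) ^ 2) + 2 * k ^ m1 / Real.exp L < η ∧
      (1 - η) * T ≤ (t : ℝ) + 1 := by
  have hη3 : 0 < η ^ 3 := by positivity
  have hRη : R * η ^ 3 = 1000 := by rw [hR]; field_simp
  have hRpos : 0 < R := by rw [hR]; positivity
  have hηle : η ^ 3 ≤ η := by nlinarith [mul_pos hη hη]
  have hηle2 : η ^ 3 ≤ η ^ 2 := by nlinarith [mul_pos hη hη]
  have hη31 : η ^ 3 ≤ 1 := by linarith
  have hκ0 : 0 < κ := by linarith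
  have hL : 0 < L := by
    have := mul_pos hRpos hκ0
    linarith
  have hT0 : 0 < T := by rw [hT]; positivity
  have hTL : T * κ = 2 * L := by rw [hT]; field_simp
  have hRT : R ≤ T := by
    rw [hT, le_div_iff₀ hκ0]
    exact hRL
  have hTη : 1000 ≤ T * η ^ 3 := by nlinarith
  have hTη1 : 1000 ≤ T * η := by nlinarith
  have hT1 : 1000 ≤ T := by nlinarith
  have hR1 : 1000 ≤ R := by nlinarith
  have hRη1 : 1000 ≤ R * η := by nlinarith
  have hRη2 : 1000 ≤ R * η ^ 2 := by nlinarith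
  have hp1 : 0 < 1 - η / 2 := by linarith
  have hp2 : 0 < 1 - η / 4 := by linarith
  have h1 : (t : ℝ) ≤ (1 - η / 2) * T := by
    rw [ht]
    exact Nat.floor_le (by positivity)
  have h2 : (1 - η / 2) * T ≤ t + 1 := by
    rw [ht]; exact (Nat.lt_floor_add_one _).le
  have h3 : (m1 : ℝ) ≤ (1 - η / 4) * T / 2 + 1 := by
    rw [hm]; exact (Nat.ceil_lt_add_one (by positivity)).le
  have h4 : (1 - η / 4) * T / 2 ≤ m1 := by
    rw [hm]
    exact Nat.le_ceil _
  have ha : 0 < η * T / 8 := by positivity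
  refine ⟨ha, by nlinarith, ?_, by nlinarith⟩
  have hA : (t : ℝ) / (4 * (η * T / 8) ^ 2) ≤ η / 4 := by
    rw [div_le_iff₀ (by positivity)]
    have e : η / 4 * (4 * (η * T / 8) ^ 2) = T * (T * η ^ 3) / 64 := by ring
    rw [e]
    nlinarith
  have hB : k ^ m1 / Real.exp L ≤ η / 4 := by
    have e1 : k ^ m1 = Real.exp (κ * m1) := by
      rw [hk, ← Real.exp_nat_mul]
      ring_nf
    rw [e1, ← Real.exp_sub]
    have e2 : κ * m1 - L ≤ -(η * L / 8) := by
      have i1 : κ * m1 ≤ κ * ((1 - η / 4) * T / 2 + 1) := mul_le_mul_of_nonneg_left h3 hκ0.le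
      have i2 : κ * ((1 - η / 4) * T / 2 + 1) = (1 - η / 4) * L + κ := by
        have : κ * ((1 - η / 4) * T / 2 + 1) = (1 - η / 4) * (T * κ) / 2 + κ := by ring
        rw [this, hTL]; ring
      have i3 : 16 * κ ≤ η * (R * κ) := by nlinarith
      nlinarith
    refine (Real.exp_le_exp.mpr e2).trans ((expneg (by positivity)).trans ?_)
    rw [div_le_iff₀ (by positivity)]
    have i4 : R / 2 ≤ R * κ := by nlinarith
    have i5 : R / 4 ≤ L := by linarith
    have i6 : η ^ 2 * (R / 4) ≤ η ^ 2 * L := mul_le_mul_of_nonneg_left i5 (by positivity)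
    nlinarith
  have e : 2 * k ^ m1 / Real.exp L = 2 * (k ^ m1 / Real.exp L) := by ring
  rw [e]
  linarith

end TM_

theorem p_TM (hUP : T_UP) (hLO : T_LO) (hMON : T_MON) : T_TM := by
  intro η hη hη1
  refine ⟨1000 / η ^ 3, ?_⟩
  intro G _ _ d s ρ hd hs hρ1 hρ2 hN hR ε hε1 hε2
  set N : ℝ := (Fintype.card G : ℝ) with hNdef
  have hN0 : (0 : ℝ) < N := by
    rw [hNdef]; exact_mod_cast Fintype.card_pos
  set L := Real.log N with hLdef
  set κ := Real.log (2 * (d : ℝ)) with hκdef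
  have hd' : (1 : ℝ) ≤ d := by exact_mod_cast hd
  have hκ : 1 / 2 ≤ κ := by
    have h1 : Real.log 2 ≤ κ := by
      rw [hκdef]; exact Real.log_le_log (by norm_num) (by linarith)
    have h2 := Real.log_two_gt_d9
    linarith
  have hκ0 : 0 < κ := by linarith
  have hk : (2 * (d : ℝ)) = Real.exp κ := by
    rw [hκdef, Real.exp_log (by linarith)]
  have hρ0 : 0 < ρ := lt_of_lt_of_le (by positivity) hρ1
  set r := Real.log (1 / ρ) with hrdef
  have hr : 0 < r := by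
    rw [hrdef]
    apply Real.log_pos
    rw [lt_div_iff₀ hρ0]; linarith
  have hrho : ρ = Real.exp (-r) := by
    rw [hrdef, one_div, Real.log_inv, neg_neg, Real.exp_log hρ0]
  have hrκ : r ≤ κ / 2 := by
    have h1 : 1 / ρ ≤ √(2 * (d : ℝ)) := by
      rw [div_le_iff₀ hρ0]
      have h2 : 0 < √(2 * (d : ℝ)) := by positivity
      rw [div_le_iff₀ h2] at hρ1
      linarith
    have h3 : r ≤ Real.log √(2 * (d : ℝ)) := by
      rw [hrdef]; exact Real.log_le_log (by positivity) h1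
    rw [Real.log_sqrt (by positivity)] at h3
    exact h3
  have hRL : 1000 / η ^ 3 * κ ≤ 2 * L := by
    rw [le_div_iff₀ hκ0] at hR
    exact hR
  have hexpL : Real.exp L = N := by rw [hLdef, Real.exp_log hN0]
  have hexpL2 : Real.exp (L / 2) = √N := by
    rw [← hexpL, ← Real.exp_half]
  obtain ⟨u1, u2, u3, u4⟩ := TM_.up hη hη1 hκ hr hrκ hrho (rfl : L / r = L / r) rfl hRL _ _ rfl rfl
  obtain ⟨l1, l2, l3, l4⟩ := TM_.low hη hη1 hκ hk (rfl : 2 * L / κ = 2 * L / κ) rfl hRL _ _ rfl rfl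
  have hmem : ⌈(1 + η / 2) * (L / r)⌉₊ ∈ {t : ℕ | ∀ x : G, tv s t x ≤ ε} := by
    intro x
    have h := hUP G d s ρ hd hs hρ0.le hρ2.le hN _ _ _ x u1 u2
    rw [hexpL2] at u3
    linarith
  constructor
  · have hlow : ⌊(1 - η / 2) * (2 * L / κ)⌋₊ + 1 ≤ tm s ε := by
      have hm := Nat.sInf_mem ⟨_, hmem⟩
      by_contra hcon
      push Not at hcon
      have hle : tm s ε ≤ ⌊(1 - η / 2) * (2 * L / κ)⌋₊ := by omega
      have h1 := hm (1 : G)
      have h2 := hMON G d s hd hs _ _ (1 : G) hle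
      have h3 := hLO G d s hd hs _ _ _ (1 : G) l1 l2
      rw [hexpL] at l3
      have h4 : tv s (tm s ε) (1 : G) ≤ ε := h1
      linarith
    have : ((⌊(1 - η / 2) * (2 * L / κ)⌋₊ + 1 : ℕ) : ℝ) ≤ (tm s ε : ℝ) := by
      exact_mod_cast hlow
    push_cast at this
    linarith
  · have : tm s ε ≤ ⌈(1 + η / 2) * (L / r)⌉₊ := Nat.sInf_le hmem
    have h2 : (tm s ε : ℝ) ≤ (⌈(1 + η / 2) * (L / r)⌉₊ : ℕ) := by exact_mod_cast this
    linarith

end Pool.Agent.ACO
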