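import Pool.Agent.ACO.TargetsN

set_option autoImplicit false

/-!
# ACO: mixing times from the sharp upper and lower bounds
-/

namespace Pool.Agent.ACO

open Finset

namespace TMN_

theorem expneg {x : ℝ} (hx : 0 < x) : Real.exp (-x) ≤ 1 / x := by
  rw [Real.exp_neg, ← one_div]
  apply one_div_le_one_div_of_le hx
  linarith [Real.add_one_le_exp x]

theorem expneg2 {x : ℝ} (hx : 0 < x) : Real.exp (-x) ≤ 2 / x ^ 2 := by
  rw [Real.exp_neg, ← one_div, div_le_div_iff₀ (Real.exp_pos x) (by positivity)]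
  have := Real.quadratic_le_exp_of_nonneg hx.le
  nlinarith

/-- the real inequalities of the upper bound -/
theorem up {η L Λ l0 κ c R r : ℝ} (hη : 0 < η) (hη1 : η < 1) (hl0 : 0 < l0) (hΛ : l0 ≤ Λ)
    (hΛκ : Λ ≤ κ) (hκ : 1 ≤ κ) (hc : 1 / 4 ≤ c) (hc2 : c ≤ 1 / 2)
    (hr : r = Real.exp (-(Λ / 2))) (R1 : 224 ≤ R * η ^ 3) (R2 : 1152 ≤ R * (l0 * η ^ 3))
    (R3 : 2 + l0 ≤ R * l0) (hRL : R * κ ≤ L) (t j0 : ℕ)
    (ht : t = ⌈(1 + η / 2) * (L / (c * Λ))⌉₊) (hj : j0 = ⌊(1 + η / 4) * (L / Λ)⌋₊) :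
    0 < η / 4 * (L / Λ) ∧ (j0 : ℝ) + η / 4 * (L / Λ) ≤ c * t ∧
      r * ((j0 : ℝ) + 2) ≤ (j0 : ℝ) + 1 ∧
      (t : ℝ) / (η / 4 * (L / Λ)) ^ 2 + Real.exp (L / 2) * (((j0 : ℝ) + 1) * r ^ j0) / 2 ≤ η ∧
      (t : ℝ) ≤ (1 + η) * (L / (c * Λ)) := by
  have hΛ0 : 0 < Λ := lt_of_lt_of_le hl0 hΛ
  have hc0 : 0 < c := by linarith
  have hη3 : 0 < η ^ 3 := by positivity
  have hηle : η ^ 3 ≤ η := by nlinarith [mul_pos hη hη]
  have hηle2 : η ^ 3 ≤ η ^ 2 := by nlinarith [mul_pos hη hη]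
  have hη31 : η ^ 3 ≤ 1 := by linarith
  have hR0 : 0 < R := by
    by_contra h
    push Not at h
    nlinarith
  have hRη1 : 224 ≤ R * η := R1.trans (mul_le_mul_of_nonneg_left hηle hR0.le)
  have hRη2 : 224 ≤ R * η ^ 2 := R1.trans (mul_le_mul_of_nonneg_left hηle2 hR0.le)
  have hR1 : 224 ≤ R := by nlinarith
  have hRL' : R ≤ L := by nlinarith
  have hL : 0 < L := by linarith
  obtain ⟨X, hX⟩ : ∃ X, X = L / Λ := ⟨_, rfl⟩
  have hXΛ : X * Λ = L := by rw [hX]; field_simp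
  have hXc : L / (c * Λ) = X / c := by rw [hX]; field_simp
  have hRX : R ≤ X := by
    rw [hX, le_div_iff₀ hΛ0]
    nlinarith
  have hX0 : 0 < X := by linarith
  have hX1 : 1 ≤ X := by linarith
  rw [hXc] at ht ⊢
  rw [← hX] at hj ⊢
  obtain ⟨Y, hY⟩ : ∃ Y, Y = X / c := ⟨_, rfl⟩
  rw [← hY] at ht ⊢
  have hYc : c * Y = X := by rw [hY]; field_simp
  have hY4 : Y ≤ 4 * X := by nlinarith
  have hY2 : 2 * X ≤ Y := by nlinarith
  have hY0 : 0 < Y := by linarith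
  have h1 : (t : ℝ) ≤ (1 + η / 2) * Y + 1 := by
    rw [ht]
    exact (Nat.ceil_lt_add_one (by positivity)).le
  have h2 : (1 + η / 2) * Y ≤ t := by
    rw [ht]; exact Nat.le_ceil _
  have h3 : (j0 : ℝ) ≤ (1 + η / 4) * X := by
    rw [hj]; exact Nat.floor_le (by positivity)
  have h4 : (1 + η / 4) * X - 1 ≤ j0 := by
    rw [hj]
    have := Nat.lt_floor_add_one ((1 + η / 4) * X)
    linarith
  have ha : 0 < η / 4 * X := by positivity
  refine ⟨ha, ?_, ?_, ?_, ?_⟩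
  · have e1 : c * ((1 + η / 2) * Y) ≤ c * t := mul_le_mul_of_nonneg_left h2 hc0.le
    have e2 : c * ((1 + η / 2) * Y) = (1 + η / 2) * X := by rw [← hYc]; ring
    linarith
  · have e1 : r ≤ 2 / (2 + l0) := by
      rw [hr, Real.exp_neg, ← one_div, div_le_div_iff₀ (Real.exp_pos _) (by linarith)]
      have := Real.add_one_le_exp (Λ / 2)
      linarith
    have e2 : R ≤ (j0 : ℝ) + 1 := by
      have : 0 ≤ η / 4 * X := ha.le
      linarith
    have e3 : r * ((j0 : ℝ) + 2) ≤ 2 / (2 + l0) * ((j0 : ℝ) + 2) :=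
      mul_le_mul_of_nonneg_right e1 (by positivity)
    refine e3.trans ?_
    rw [div_mul_eq_mul_div, div_le_iff₀ (by linarith)]
    have e4 : R * l0 ≤ ((j0 : ℝ) + 1) * l0 := mul_le_mul_of_nonneg_right e2 hl0.le
    have e5 : ((j0 : ℝ) + 1) * (2 + l0) = 2 * ((j0 : ℝ) + 1) + ((j0 : ℝ) + 1) * l0 := by ring
    rw [e5]
    linarith
  · have hA : (t : ℝ) / (η / 4 * X) ^ 2 ≤ η / 2 := by
      rw [div_le_iff₀ (by positivity)]
      have e : η / 2 * (η / 4 * X) ^ 2 = X * (X * η ^ 3) / 32 := by ring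
      rw [e]
      have e0 : η * Y ≤ 1 * Y := mul_le_mul_of_nonneg_right hη1.le hY0.le
      have e1 : (t : ℝ) ≤ 7 * X := by linarith
      have e2 : 224 ≤ X * η ^ 3 := R1.trans (mul_le_mul_of_nonneg_right hRX hη3.le)
      have e3 : X * 224 ≤ X * (X * η ^ 3) := mul_le_mul_of_nonneg_left e2 hX0.le
      linarith
    have hB : Real.exp (L / 2) * (((j0 : ℝ) + 1) * r ^ j0) ≤ η := by
      have e1 : r ^ j0 = Real.exp (-(Λ / 2 * j0)) := by
        rw [hr, ← Real.exp_nat_mul]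
        ring_nf
      have e2 : Real.exp (L / 2) * r ^ j0 ≤ Real.exp (-(η * L / 16)) := by
        rw [e1, ← Real.exp_add]
        refine Real.exp_le_exp.2 ?_
        have i1 : Λ / 2 * ((1 + η / 4) * X - 1) ≤ Λ / 2 * j0 :=
          mul_le_mul_of_nonneg_left h4 (by linarith)
        have i2 : Λ / 2 * ((1 + η / 4) * X - 1) = (1 + η / 4) * L / 2 - Λ / 2 := by
          rw [← hXΛ]; ring
        have i3 : 8 * κ ≤ η * (R * κ) := by nlinarith
        have i4 : η * (R * κ) ≤ η * L := mul_le_mul_of_nonneg_left hRL hη.le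
        linarith
      have e3 : Real.exp (-(η * L / 16)) ≤ 512 / (η ^ 2 * L ^ 2) := by
        refine (expneg2 (by positivity)).trans (le_of_eq ?_)
        field_simp
        norm_num
      have e4 : (j0 : ℝ) + 1 ≤ 9 / 4 * X := by
        have e0 : η * X ≤ 1 * X := mul_le_mul_of_nonneg_right hη1.le hX0.le
        linarith
      calc Real.exp (L / 2) * (((j0 : ℝ) + 1) * r ^ j0)
          = ((j0 : ℝ) + 1) * (Real.exp (L / 2) * r ^ j0) := by ring
        _ ≤ (9 / 4 * X) * (512 / (η ^ 2 * L ^ 2)) :=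
            mul_le_mul e4 (e2.trans e3) (by rw [hr]; positivity) (by positivity)
        _ ≤ η := by
            rw [mul_div_assoc', div_le_iff₀ (by positivity)]
            have i5 : X * l0 ≤ L := by
              rw [← hXΛ]; exact mul_le_mul_of_nonneg_left hΛ hX0.le
            have i6 : R * (l0 * η ^ 3) ≤ L * (l0 * η ^ 3) :=
              mul_le_mul_of_nonneg_right hRL' (by positivity)
            have i7 : 1152 ≤ L * (l0 * η ^ 3) := R2.trans i6
            have i8 : 1152 * X ≤ η ^ 3 * L ^ 2 := by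
              calc 1152 * X ≤ L * (l0 * η ^ 3) * X := mul_le_mul_of_nonneg_right i7 hX0.le
                _ = L * η ^ 3 * (X * l0) := by ring
                _ ≤ L * η ^ 3 * L := mul_le_mul_of_nonneg_left i5 (by positivity)
                _ = η ^ 3 * L ^ 2 := by ring
            have i9 : η * (η ^ 2 * L ^ 2) = η ^ 3 * L ^ 2 := by ring
            rw [i9]
            linarith
    linarith
  · have e1 : R * η ≤ X * η := mul_le_mul_of_nonneg_right hRX hη.le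
    have e2 : 2 * X * η ≤ Y * η := mul_le_mul_of_nonneg_right hY2 hη.le
    linarith

/-- the real inequalities of the lower bound -/
theorem low {η L κ₁ κ c k R : ℝ} (hη : 0 < η) (hη1 : η < 1) (hκ₁ : 1 ≤ κ₁) (hκκ : κ₁ ≤ κ)
    (hc : 1 / 4 ≤ c) (hk : k = Real.exp κ₁) (R1 : 224 ≤ R * η ^ 3)
    (hRL : R * κ ≤ L) (t j1 : ℕ) (ht : t = ⌊(1 - η / 2) * (L / (c * κ₁))⌋₊)
    (hj : j1 = ⌈(1 - η / 4) * (L / κ₁)⌉₊) :
    0 < η / 4 * (L / κ₁) ∧ c * (t : ℝ) + η / 4 * (L / κ₁) ≤ j1 ∧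
      (t : ℝ) / (η / 4 * (L / κ₁)) ^ 2 + 3 * k ^ j1 / Real.exp L < η ∧
      (1 - η) * (L / (c * κ₁)) ≤ (t : ℝ) + 1 := by
  have hκ₁0 : 0 < κ₁ := by linarith
  have hc0 : 0 < c := by linarith
  have hη3 : 0 < η ^ 3 := by positivity
  have hηle : η ^ 3 ≤ η := by nlinarith [mul_pos hη hη]
  have hηle2 : η ^ 3 ≤ η ^ 2 := by nlinarith [mul_pos hη hη]
  have hη31 : η ^ 3 ≤ 1 := by linarith
  have hR0 : 0 < R := by
    by_contra h
    push Not at h
    nlinarith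
  have hRη1 : 224 ≤ R * η := R1.trans (mul_le_mul_of_nonneg_left hηle hR0.le)
  have hRη2 : 224 ≤ R * η ^ 2 := R1.trans (mul_le_mul_of_nonneg_left hηle2 hR0.le)
  have hR1 : 224 ≤ R := by nlinarith
  have hRL' : R ≤ L := by nlinarith
  have hL : 0 < L := by linarith
  obtain ⟨X, hX⟩ : ∃ X, X = L / κ₁ := ⟨_, rfl⟩
  have hXκ : X * κ₁ = L := by rw [hX]; field_simp
  have hXc : L / (c * κ₁) = X / c := by rw [hX]; field_simp
  have hRX : R ≤ X := by
    rw [hX, le_div_iff₀ hκ₁0]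
    nlinarith
  have hX0 : 0 < X := by linarith
  rw [hXc] at ht ⊢
  rw [← hX] at hj ⊢
  obtain ⟨Y, hY⟩ : ∃ Y, Y = X / c := ⟨_, rfl⟩
  rw [← hY] at ht ⊢
  have hYc : c * Y = X := by rw [hY]; field_simp
  have hY4 : Y ≤ 4 * X := by nlinarith
  have hY0 : 0 < Y := by rw [hY]; positivity
  have hp1 : 0 < 1 - η / 2 := by linarith
  have hp2 : 0 < 1 - η / 4 := by linarith
  have h1 : (t : ℝ) ≤ (1 - η / 2) * Y := by
    rw [ht]
    exact Nat.floor_le (by positivity)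
  have h2 : (1 - η / 2) * Y ≤ t + 1 := by
    rw [ht]; exact (Nat.lt_floor_add_one _).le
  have h3 : (j1 : ℝ) ≤ (1 - η / 4) * X + 1 := by
    rw [hj]; exact (Nat.ceil_lt_add_one (by positivity)).le
  have h4 : (1 - η / 4) * X ≤ j1 := by
    rw [hj]
    exact Nat.le_ceil _
  have ha : 0 < η / 4 * X := by positivity
  refine ⟨ha, ?_, ?_, ?_⟩
  · have e1 : c * (t : ℝ) ≤ c * ((1 - η / 2) * Y) := mul_le_mul_of_nonneg_left h1 hc0.le
    have e2 : c * ((1 - η / 2) * Y) = (1 - η / 2) * X := by rw [← hYc]; ring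
    linarith
  · have hA : (t : ℝ) / (η / 4 * X) ^ 2 ≤ η / 2 := by
      rw [div_le_iff₀ (by positivity)]
      have e : η / 2 * (η / 4 * X) ^ 2 = X * (X * η ^ 3) / 32 := by ring
      rw [e]
      have e0 : 0 ≤ η * Y := by positivity
      have e1 : (t : ℝ) ≤ 4 * X := by linarith
      have e2 : 224 ≤ X * η ^ 3 := R1.trans (mul_le_mul_of_nonneg_right hRX hη3.le)
      have e3 : X * 224 ≤ X * (X * η ^ 3) := mul_le_mul_of_nonneg_left e2 hX0.le
      linarith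
    have hB : k ^ j1 / Real.exp L ≤ η / 7 := by
      have e1 : k ^ j1 = Real.exp (κ₁ * j1) := by
        rw [hk, ← Real.exp_nat_mul]
        ring_nf
      rw [e1, ← Real.exp_sub]
      have e2 : κ₁ * j1 - L ≤ -(η * L / 8) := by
        have i1 : κ₁ * j1 ≤ κ₁ * ((1 - η / 4) * X + 1) := mul_le_mul_of_nonneg_left h3 hκ₁0.le
        have i2 : κ₁ * ((1 - η / 4) * X + 1) = (1 - η / 4) * L + κ₁ := by
          rw [← hXκ]; ring
        have i3 : 8 * κ ≤ η * (R * κ) := by nlinarith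
        have i4 : η * (R * κ) ≤ η * L := mul_le_mul_of_nonneg_left hRL hη.le
        linarith
      refine (Real.exp_le_exp.mpr e2).trans ((expneg (by positivity)).trans ?_)
      rw [div_le_iff₀ (by positivity)]
      have i6 : η ^ 2 * R ≤ η ^ 2 * L := mul_le_mul_of_nonneg_left hRL' (by positivity)
      nlinarith
    have e : 3 * k ^ j1 / Real.exp L = 3 * (k ^ j1 / Real.exp L) := by ring
    rw [e]
    linarith
  · have e1 : 0 ≤ η * Y := by positivity
    linarith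

end TMN_

theorem p_TMN (hUP : T_UPN) (hLO : T_LON) (hMON : T_MON) : T_TMN := by
  intro η l0 hη hη1 hl0
  refine ⟨224 / η ^ 3 + 1152 / (l0 * η ^ 3) + (2 + l0) / l0, ?_⟩
  intro G _ _ d s ρ τ hd hs hρ hN hτ hlam hB hR ε hε1 hε2
  obtain ⟨R, hRdef⟩ : ∃ R, R = 224 / η ^ 3 + 1152 / (l0 * η ^ 3) + (2 + l0) / l0 := ⟨_, rfl⟩
  rw [← hRdef] at hR
  have hη3 : 0 < η ^ 3 := by positivity
  have R1 : 224 ≤ R * η ^ 3 := by
    have h : 224 / η ^ 3 * η ^ 3 = 224 := by field_simp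
    have h2 : 224 / η ^ 3 ≤ R := by
      rw [hRdef]
      have : 0 ≤ 1152 / (l0 * η ^ 3) := by positivity
      have : 0 ≤ (2 + l0) / l0 := by positivity
      linarith
    rw [← h]
    exact mul_le_mul_of_nonneg_right h2 hη3.le
  have R2 : 1152 ≤ R * (l0 * η ^ 3) := by
    have h : 1152 / (l0 * η ^ 3) * (l0 * η ^ 3) = 1152 := by field_simp
    have h2 : 1152 / (l0 * η ^ 3) ≤ R := by
      rw [hRdef]
      have : 0 ≤ 224 / η ^ 3 := by positivity
      have : 0 ≤ (2 + l0) / l0 := by positivity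
      linarith
    rw [← h]
    exact mul_le_mul_of_nonneg_right h2 (by positivity)
  have R3 : 2 + l0 ≤ R * l0 := by
    have h : (2 + l0) / l0 * l0 = 2 + l0 := by field_simp
    have h2 : (2 + l0) / l0 ≤ R := by
      rw [hRdef]
      have : 0 ≤ 224 / η ^ 3 := by positivity
      have : 0 ≤ 1152 / (l0 * η ^ 3) := by positivity
      linarith
    rw [← h]
    exact mul_le_mul_of_nonneg_right h2 hl0.le
  set N : ℝ := (Fintype.card G : ℝ) with hNdef
  have hN0 : (0 : ℝ) < N := by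
    rw [hNdef]; exact_mod_cast Fintype.card_pos
  set L := Real.log N with hLdef
  set κ := Real.log (2 * (d : ℝ)) with hκdef
  set κ₁ := Real.log (2 * (d : ℝ) - 1) with hκ₁def
  set Λ := Real.log ((2 * (d : ℝ) - 1) / τ ^ 2) with hΛdef
  set c : ℝ := (2 * (d : ℝ) - 2) / (2 * (2 * (d : ℝ))) with hcdef
  have hd' : (2 : ℝ) ≤ d := by exact_mod_cast hd
  have hτ0 : 0 < τ := by linarith
  have hK : 0 < 2 * (d : ℝ) - 1 := by linarith
  have hκ₁ : 1 ≤ κ₁ := by
    rw [hκ₁def, Real.le_log_iff_exp_le hK]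
    have := Real.exp_one_lt_d9
    linarith
  have hκκ : κ₁ ≤ κ := by
    rw [hκ₁def, hκdef]; exact Real.log_le_log hK (by linarith)
  have hκ : 1 ≤ κ := by linarith
  have hτ2 : 1 ≤ τ ^ 2 := by nlinarith
  have hΛκ : Λ ≤ κ := by
    refine le_trans ?_ hκκ
    rw [hΛdef, hκ₁def]
    exact Real.log_le_log (by positivity) (div_le_self hK.le hτ2)
  have hc : 1 / 4 ≤ c := by
    rw [hcdef, div_le_div_iff₀ (by norm_num) (by linarith)]
    linarith
  have hc2 : c ≤ 1 / 2 := by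
    rw [hcdef, div_le_div_iff₀ (by linarith) (by norm_num)]
    linarith
  have hr : τ / √(2 * (d : ℝ) - 1) = Real.exp (-(Λ / 2)) := by
    have h1 : Real.exp (Λ / 2) = √(2 * (d : ℝ) - 1) / τ := by
      rw [Real.exp_half, hΛdef, Real.exp_log (by positivity), Real.sqrt_div hK.le,
        Real.sqrt_sq hτ0.le]
    rw [Real.exp_neg, h1, inv_div]
  have hRL : R * κ ≤ L := by
    rw [le_div_iff₀ (by linarith)] at hR
    exact hR
  have hexpL : Real.exp L = N := by rw [hLdef, Real.exp_log hN0]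
  have hexpL2 : Real.exp (L / 2) = √N := by
    rw [← hexpL, ← Real.exp_half]
  have hk : (2 * (d : ℝ) - 1) = Real.exp κ₁ := by
    rw [hκ₁def, Real.exp_log hK]
  have hΛ0 : 0 < Λ := lt_of_lt_of_le hl0 hlam
  have hd1 : (d : ℝ) - 1 ≠ 0 := by linarith
  have hTT : TT d N τ = L / (c * Λ) := by
    unfold TT
    rw [← hΛdef, ← hLdef, hcdef]
    field_simp
  have hTT1 : TT d N 1 = L / (c * κ₁) := by
    unfold TT
    rw [one_pow, div_one, ← hκ₁def, ← hLdef, hcdef]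
    have : κ₁ ≠ 0 := by linarith
    field_simp
  rw [hTT, hTT1]
  obtain ⟨u1, u2, u3, u4, u5⟩ := TMN_.up hη hη1 hl0 hlam hΛκ hκ hc hc2 hr R1 R2 R3 hRL _ _ rfl rfl
  obtain ⟨l1, l2, l3, l4⟩ := TMN_.low hη hη1 hκ₁ hκκ hc hk R1 hRL _ _ rfl rfl
  have hmem : ⌈(1 + η / 2) * (L / (c * Λ))⌉₊ ∈ {t : ℕ | ∀ x : G, tv s t x ≤ ε} := by
    intro x
    have h := hUP G d s ρ τ (by omega) hs hρ hN hτ hB _ _ _ x u1 u2 u3
    rw [hexpL2] at u4
    exact (h.trans u4).trans hε1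
  constructor
  · have hlow : ⌊(1 - η / 2) * (L / (c * κ₁))⌋₊ + 1 ≤ tm s ε := by
      have hm := Nat.sInf_mem ⟨_, hmem⟩
      by_contra hcon
      push Not at hcon
      have hle : tm s ε ≤ ⌊(1 - η / 2) * (L / (c * κ₁))⌋₊ := by omega
      have h1 := hm (1 : G)
      have h2 := hMON G d s (by omega) hs _ _ (1 : G) hle
      have h3 := hLO G d s hd hs _ _ _ (1 : G) l1 l2
      rw [hexpL] at l3
      have h4 : tv s (tm s ε) (1 : G) ≤ ε := h1
      linarith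
    have : ((⌊(1 - η / 2) * (L / (c * κ₁))⌋₊ + 1 : ℕ) : ℝ) ≤ (tm s ε : ℝ) := by
      exact_mod_cast hlow
    push_cast at this
    linarith
  · have : tm s ε ≤ ⌈(1 + η / 2) * (L / (c * Λ))⌉₊ := Nat.sInf_le hmem
    have h2 : (tm s ε : ℝ) ≤ (⌈(1 + η / 2) * (L / (c * Λ))⌉₊ : ℕ) := by exact_mod_cast this
    linarith

end Pool.Agent.ACO
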