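import Pool.Agent.ACO.Targets

set_option autoImplicit false

namespace Pool.Agent.ACO

open Finset
open Pool.Agent.VAC (lazyP tvDist tmix)
open Pool.Agent.RCG (PSL NormLe SL)

namespace UP_

theorem weights (t : ℕ) : ∑ m ∈ range (t + 1), (t.choose m : ℝ) / 2 ^ t = 1 := by
  rw [← Finset.sum_div]
  have h := Nat.sum_range_choose t
  have h' : ∑ m ∈ range (t + 1), (t.choose m : ℝ) = 2 ^ t := by
    exact_mod_cast h
  rw [h']
  exact div_self (by positivity)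

/-- abstract form of the splitting argument -/
theorem split {G : Type} [Fintype G] (t m0 : ℕ) (a ρ B c : ℝ) (P : ℕ → G → ℝ) (L : G → ℝ)
    (hm : (m0 : ℝ) + a ≤ t / 2) (hρ0 : 0 ≤ ρ) (hρ1 : ρ ≤ 1) (hB : 0 ≤ B)
    (hbin : ∑ m ∈ (range (t + 1)).filter (fun m : ℕ => a ≤ |(m : ℝ) - t / 2|),
      (t.choose m : ℝ) / 2 ^ t ≤ t / (4 * a ^ 2))
    (hL : ∀ y, L y = ∑ m ∈ range (t + 1), (t.choose m : ℝ) / 2 ^ t * P m y)
    (h2 : ∀ m, ∑ y, |P m y - c| ≤ 2) (hr : ∀ m, ∑ y, |P m y - c| ≤ B * ρ ^ m) :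
    ∑ y, |L y - c| ≤ 2 * (t / (4 * a ^ 2)) + B * ρ ^ m0 := by
  have hw := weights t
  have hw0 : ∀ m : ℕ, 0 ≤ (t.choose m : ℝ) / 2 ^ t := fun m => by positivity
  have e1 : ∀ y, L y - c = ∑ m ∈ range (t + 1), (t.choose m : ℝ) / 2 ^ t * (P m y - c) := by
    intro y
    rw [hL y]
    simp only [mul_sub]
    rw [Finset.sum_sub_distrib, ← Finset.sum_mul, hw, one_mul]
  have e2 : ∀ y, |L y - c| ≤ ∑ m ∈ range (t + 1), (t.choose m : ℝ) / 2 ^ t * |P m y - c| := by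
    intro y
    rw [e1 y]
    refine (Finset.abs_sum_le_sum_abs _ _).trans (le_of_eq ?_)
    refine Finset.sum_congr rfl fun m _ => ?_
    rw [abs_mul, abs_of_nonneg (hw0 m)]
  have e3 : ∑ y, |L y - c| ≤
      ∑ m ∈ range (t + 1), (t.choose m : ℝ) / 2 ^ t * ∑ y, |P m y - c| := by
    refine (Finset.sum_le_sum fun y _ => e2 y).trans (le_of_eq ?_)
    rw [Finset.sum_comm]
    refine Finset.sum_congr rfl fun m _ => ?_
    rw [Finset.mul_sum]
  refine e3.trans ?_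
  have hBρ : 0 ≤ B * ρ ^ m0 := mul_nonneg hB (pow_nonneg hρ0 _)
  have e4 : ∀ m ∈ range (t + 1), (t.choose m : ℝ) / 2 ^ t * ∑ y, |P m y - c| ≤
      (if a ≤ |(m : ℝ) - t / 2| then 2 * ((t.choose m : ℝ) / 2 ^ t) else 0) +
        (t.choose m : ℝ) / 2 ^ t * (B * ρ ^ m0) := by
    intro m _
    by_cases hmm : m < m0
    · have h1 : a ≤ |(m : ℝ) - t / 2| := by
        have h3 : (m : ℝ) < m0 := by exact_mod_cast hmm
        rw [abs_sub_comm]
        refine le_trans ?_ (le_abs_self _)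
        linarith
      rw [if_pos h1]
      have h4 := mul_le_mul_of_nonneg_left (h2 m) (hw0 m)
      have h5 := mul_nonneg (hw0 m) hBρ
      linarith
    · have h3 : m0 ≤ m := not_lt.mp hmm
      have h4 : ∑ y, |P m y - c| ≤ B * ρ ^ m0 :=
        (hr m).trans (mul_le_mul_of_nonneg_left (pow_le_pow_of_le_one hρ0 hρ1 h3) hB)
      have h5 := mul_le_mul_of_nonneg_left h4 (hw0 m)
      have h6 : 0 ≤ (if a ≤ |(m : ℝ) - t / 2| then 2 * ((t.choose m : ℝ) / 2 ^ t) else 0) := by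
        split_ifs
        · exact mul_nonneg (by norm_num) (hw0 m)
        · exact le_refl _
      linarith
  refine (Finset.sum_le_sum e4).trans ?_
  rw [Finset.sum_add_distrib, ← Finset.sum_mul, hw, one_mul, ← Finset.sum_filter,
    ← Finset.mul_sum]
  linarith

end UP_

theorem p_UP (h1 : T_BIN) (h2 : T_LZ) (h3 : T_L1) : T_UP := by
  intro G _ _ d s ρ hd hs hρ0 hρ1 hN t m0 a x ha hm
  classical
  obtain ⟨-, -, hz⟩ := h2 G d s hd hs
  have hL1 := h3 G d s ρ hd hρ0 hN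
  have key := UP_.split t m0 a ρ (√(Fintype.card G)) (1 / (Fintype.card G : ℝ))
    (fun m y => (M s ^ m) x y) (fun y => (LP s ^ t) x y) hm hρ0 hρ1 (Real.sqrt_nonneg _)
    (h1 t a ha) (fun y => by convert hz t x y) (fun m => by convert (hL1 m x).1)
    (fun m => by convert (hL1 m x).2)
  have e : tv s t x = (1 / 2 : ℝ) * ∑ y, |(LP s ^ t) x y - 1 / (Fintype.card G : ℝ)| := by
    unfold tv tvDist
    congr!
  rw [e]
  have k2 : ∑ y, |(LP s ^ t) x y - 1 / (Fintype.card G : ℝ)| ≤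
      2 * (t / (4 * a ^ 2)) + √(Fintype.card G) * ρ ^ m0 := key
  linarith

end Pool.Agent.ACO
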