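import Pool.Agent.ACO.TargetsN

set_option autoImplicit false

/-!
# ACO, UPN: upper bound for the total variation distance at the sharp location
-/

namespace Pool.Agent.ACO

open Finset
open Pool.Agent.VAC (lazyP tvDist tmix)

namespace UPN_

/-- linearity of `ev` for finite sums -/
theorem ev_sum (hE : T_EVL) {k : ℝ} (hk : 2 ≤ k) (t : ℕ) {ι : Type} (S : Finset ι)
    (F : ι → ℕ → ℝ) : ev k t (fun j => ∑ i ∈ S, F i j) = ∑ i ∈ S, ev k t (F i) := by
  classical
  obtain ⟨-, hlin, hc, -⟩ := hE k t hk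
  induction S using Finset.induction_on with
  | empty =>
    simp only [Finset.sum_empty]
    exact hc 0
  | insert a S ha ih =>
    simp only [Finset.sum_insert ha]
    have h := hlin (F a) (fun j => ∑ i ∈ S, F i j) 1 1
    simp only [one_mul] at h
    rw [h, ih]

theorem ev_abs (hE : T_EVL) {k : ℝ} (hk : 2 ≤ k) (t : ℕ) (φ : ℕ → ℝ) :
    |ev k t φ| ≤ ev k t (fun j => |φ j|) := by
  obtain ⟨hmon, hlin, -, -⟩ := hE k t hk
  rw [abs_le]
  constructor
  · have h1 := hmon (fun j => -1 * |φ j| + 0 * |φ j|) φ fun j => by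
      have := neg_abs_le (φ j)
      linarith
    rw [hlin (fun j => |φ j|) (fun j => |φ j|) (-1) 0] at h1
    linarith
  · exact hmon _ _ fun j => le_abs_self _

/-- abstract form -/
theorem core (hE : T_EVL) {k : ℝ} (hk : 2 ≤ k) (t : ℕ) {G : Type} [Fintype G] (B : ℕ → G → ℝ)
    (L : G → ℝ) (c a D : ℝ) (ha : 0 < a) (hL : ∀ y, L y = ev k t (fun j => B j y))
    (hF : ∀ j : ℕ, ∑ y, |B j y - c| ≤
      2 * ((j : ℝ) - (k - 2) / (2 * k) * t) ^ 2 / a ^ 2 + D) :
    ∑ y, |L y - c| ≤ 2 * (t / a ^ 2) + D := by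
  obtain ⟨hmon, hlin, hc, hvar⟩ := hE k t hk
  have e1 : ∀ y, L y - c = ev k t (fun j => B j y - c) := by
    intro y
    have h := hlin (fun j => B j y) (fun _ => c) 1 (-1)
    have h2 : (fun j => 1 * B j y + -1 * c) = fun j => B j y - c := by
      funext j
      ring
    rw [h2] at h
    rw [h, hc, hL y]
    ring
  have e2 : ∑ y, |L y - c| ≤ ev k t (fun j => ∑ y, |B j y - c|) := by
    rw [ev_sum hE hk]
    refine Finset.sum_le_sum fun y _ => ?_
    rw [e1 y]
    exact ev_abs hE hk t _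
  refine e2.trans ((hmon _ _ hF).trans ?_)
  have h := hlin (fun j => ((j : ℝ) - (k - 2) / (2 * k) * t) ^ 2) (fun _ => D) (2 / a ^ 2) 1
  have h2 : (fun j : ℕ => 2 / a ^ 2 * ((j : ℝ) - (k - 2) / (2 * k) * t) ^ 2 + 1 * D) =
      fun j : ℕ => 2 * ((j : ℝ) - (k - 2) / (2 * k) * t) ^ 2 / a ^ 2 + D := by
    funext j
    ring
  rw [h2] at h
  rw [h, hc]
  have h3 := mul_le_mul_of_nonneg_left hvar (by positivity : 0 ≤ 2 / a ^ 2)
  calc 2 / a ^ 2 * ev k t (fun j => ((j : ℝ) - (k - 2) / (2 * k) * t) ^ 2) + 1 * D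
      ≤ 2 / a ^ 2 * t + 1 * D := by linarith
    _ = 2 * (t / a ^ 2) + D := by ring

/-- the bound of the powers is decreasing -/
theorem decr {r : ℝ} (hr : 0 ≤ r) {j0 : ℕ} (h : r * ((j0 : ℝ) + 2) ≤ (j0 : ℝ) + 1) {j : ℕ}
    (hj : j0 ≤ j) : ((j : ℝ) + 1) * r ^ j ≤ ((j0 : ℝ) + 1) * r ^ j0 := by
  have hr1 : r ≤ 1 := by
    by_contra hlt
    push Not at hlt
    have : (0 : ℝ) ≤ j0 := Nat.cast_nonneg _
    nlinarith
  induction j, hj using Nat.le_induction with
  | base => exact le_refl _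
  | succ j hj ih =>
    refine le_trans ?_ ih
    have h1 : r * ((j : ℝ) + 2) ≤ (j : ℝ) + 1 := by
      have h2 : (j0 : ℝ) ≤ j := by exact_mod_cast hj
      nlinarith
    have h3 : 0 ≤ r ^ j := pow_nonneg hr _
    calc (((j + 1 : ℕ) : ℝ) + 1) * r ^ (j + 1) = r * ((j : ℝ) + 2) * r ^ j := by
          push_cast
          ring
      _ ≤ ((j : ℝ) + 1) * r ^ j := mul_le_mul_of_nonneg_right h1 h3

end UPN_

open UPN_ in
open Classical in
theorem p_UPN (hE : T_EVL) (hD : T_DEC) (hS : T_SPN) (hN : T_NBN) : T_UPN := by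
  intro G _ _ d s ρ τ hd hsimp hρ hnrm hτ hB t j0 a x ha hj0 hr
  have hd1 : (1 : ℝ) ≤ d := by exact_mod_cast hd
  have hk : (2 : ℝ) ≤ 2 * (d : ℝ) := by linarith
  set r : ℝ := τ / √(2 * (d : ℝ) - 1) with hrd
  have hr0 : 0 ≤ r := by positivity
  set D : ℝ := √(Fintype.card G) * (((j0 : ℝ) + 1) * r ^ j0) with hDd
  have hD0 : 0 ≤ D := by positivity
  have hcard : 0 < (Fintype.card G : ℝ) := by
    have : Nonempty G := ⟨1⟩
    exact_mod_cast Fintype.card_pos
  have hmain := core hE hk t (fun j y => NB s j x y) (fun y => (LP s ^ t) x y)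
    (1 / (Fintype.card G : ℝ)) a D ha (fun y => hD G d s hd hsimp t x y) (fun j => by
      rcases lt_or_ge j j0 with hj | hj
      · obtain ⟨h0, h1, -⟩ := hN G d s hd j x
        have h2 : ∑ y, |NB s j x y - 1 / (Fintype.card G : ℝ)| ≤ 2 := by
          calc ∑ y, |NB s j x y - 1 / (Fintype.card G : ℝ)|
              ≤ ∑ y, (NB s j x y + 1 / (Fintype.card G : ℝ)) := by
                refine Finset.sum_le_sum fun y _ => ?_
                have h3 := h0 y
                have h4 : 0 ≤ 1 / (Fintype.card G : ℝ) := by positivity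
                rw [abs_le]
                constructor <;> linarith
            _ = 2 := by
                rw [Finset.sum_add_distrib, h1, Finset.sum_const, Finset.card_univ,
                  nsmul_eq_mul, mul_one_div_cancel hcard.ne']
                norm_num
        have h5 : a ^ 2 ≤ ((j : ℝ) - (2 * (d : ℝ) - 2) / (2 * (2 * (d : ℝ))) * t) ^ 2 := by
          have h6 : (j : ℝ) < j0 := by exact_mod_cast hj
          nlinarith
        have h7 : 2 ≤ 2 * ((j : ℝ) - (2 * (d : ℝ) - 2) / (2 * (2 * (d : ℝ))) * t) ^ 2 / a ^ 2 := by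
          rw [le_div_iff₀ (by positivity)]
          linarith
        linarith
      · have h1 := hS G d s ρ τ hd hρ hnrm hτ hB j x
        have h2 := decr hr0 hr hj
        have h3 := mul_le_mul_of_nonneg_left h2 (Real.sqrt_nonneg (Fintype.card G : ℝ))
        have h4 : 0 ≤ 2 * ((j : ℝ) - (2 * (d : ℝ) - 2) / (2 * (2 * (d : ℝ))) * t) ^ 2 /
            a ^ 2 := by positivity
        linarith)
  have htv : tv s t x = (1 / 2 : ℝ) * ∑ y, |(LP s ^ t) x y - 1 / (Fintype.card G : ℝ)| := rfl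
  rw [htv]
  linarith

end Pool.Agent.ACO
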