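import Pool.Agent.ACO.Defs

set_option autoImplicit false

/-!
# ACO: targets

THEOREM. Random Cayley graphs of `G = PSL (2, p)` with `d` generators, `k = 2 d`, have approximate
cutoff: the lazy walk has `T_mix(ε)` between `(1-η) 2 log |G| / log k` and
`(1+η) log |G| / log (k / B)` for all `ε` in `[η, 1-η]`, if the norm of the adjacency operator on
functions of sum zero is at most `B`; project RCG gives `B = C √k log k` and `C √(k log k)`.

Every target `T_X` is to be proved as `theorem p_X : T_X` (other targets may be taken as hypotheses)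
in a NEW file `Pool/Agent/ACO/P_X.lean` importing this one, namespace `Pool.Agent.ACO`, helper
lemmas in the sub-namespace `X_`. Decidability of propositions is always classical
(`open Classical in`).
-/

namespace Pool.Agent.ACO

open Finset
open Pool.Agent.VAC (lazyP tvDist tmix)
open Pool.Agent.RCG (PSL NormLe SL)

/-! ### general facts -/

/-- **BIN** (30 min): Chebyshev for the binomial distribution. `Σ_m C(t,m) 2^(-t) (m - t/2)² = t/4`
(`bernsteinPolynomial.variance` evaluated at `1/2`, or a direct induction on `t`). -/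
def T_BIN : Prop := ∀ (t : ℕ) (a : ℝ), 0 < a →
  ∑ m ∈ (range (t + 1)).filter (fun m : ℕ => a ≤ |(m : ℝ) - t / 2|), (t.choose m : ℝ) / 2 ^ t ≤
    t / (4 * a ^ 2)

open Classical in
/-- **LZ** (45 min): the lazy walk, its degree and its powers. For `Simp s` the neighbours of `x` in
`cay s` are the `2 d` different elements `x * s i`, `x * (s i)⁻¹` (none of them is `x`), so the
degree is `2 d` and `LP s = (1/2) (1 + M s)`. Left translations `y ↦ g * y` are automorphisms. The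
powers: `(1 + M)^t = Σ C(t,m) M^m` (`Commute.add_pow`). -/
def T_LZ : Prop := ∀ (G : Type) [Group G] [Fintype G] (d : ℕ) (s : Fin d → G), 1 ≤ d → Simp s →
  (cay s).IsRegularOfDegree (2 * d) ∧ (∀ x y : G, ∃ φ : cay s ≃g cay s, φ x = y) ∧
    ∀ (t : ℕ) (x y : G), (LP s ^ t) x y =
      ∑ m ∈ range (t + 1), (t.choose m : ℝ) / 2 ^ t * (M s ^ m) x y

open Classical in
/-- **MP** (45 min): powers of `M`. The entries of `M s` are nonnegative, the rows (and the columns)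
have sum `1`, so the same holds for the powers. `(M s ^ m) x y ≠ 0` only if `y = x * (word of
length m)`: at most `(2 d)^m` values of `y` (induction on `m`: the set `supp (m+1)` is contained in
the union of `2 d` translates of `supp m`). -/
def T_MP : Prop := ∀ (G : Type) [Group G] [Fintype G] (d : ℕ) (s : Fin d → G), 1 ≤ d →
  ∀ (m : ℕ) (x : G), (∀ y, 0 ≤ (M s ^ m) x y) ∧ ∑ y, (M s ^ m) x y = 1 ∧
    ∑ y, (M s ^ m) y x = 1 ∧ (univ.filter (fun y => (M s ^ m) x y ≠ 0)).card ≤ (2 * d) ^ m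

open Classical in
/-- **L1** (45 min; hypothesis MP): distance of the non-lazy walk to the uniform distribution. The
bound `2` is the triangle inequality. `M s` is symmetric, so `y ↦ (M s ^ m) x y - 1/|G|` is
`M s ^ m` applied to `δ_x - 1/|G|`, a function of sum zero and square norm `≤ 1`; iterate `Nrm`
(the functions stay of sum zero): square norm `≤ ρ^(2m)`; Cauchy–Schwarz. -/
def T_L1 : Prop := ∀ (G : Type) [Group G] [Fintype G] (d : ℕ) (s : Fin d → G) (ρ : ℝ), 1 ≤ d →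
  0 ≤ ρ → Nrm s ρ → ∀ (m : ℕ) (x : G),
    ∑ y, |(M s ^ m) x y - 1 / (Fintype.card G : ℝ)| ≤ 2 ∧
    ∑ y, |(M s ^ m) x y - 1 / (Fintype.card G : ℝ)| ≤ √(Fintype.card G) * ρ ^ m

/-- **UP** (45 min; hypotheses BIN, LZ, L1): upper bound. By LZ
`LP^t x y - 1/|G| = Σ_m C(t,m) 2^(-t) (M^m x y - 1/|G|)` (the weights have sum `1`); the terms with
`m < m0` satisfy `a ≤ |m - t/2|` and contribute `≤ 2 t/(4a²)` to the `ℓ¹` norm, the others
`≤ √|G| ρ^m0` (`ρ ≤ 1`). -/
def T_UP : Prop := ∀ (G : Type) [Group G] [Fintype G] (d : ℕ) (s : Fin d → G) (ρ : ℝ), 1 ≤ d →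
  Simp s → 0 ≤ ρ → ρ ≤ 1 → Nrm s ρ → ∀ (t m0 : ℕ) (a : ℝ) (x : G), 0 < a → (m0 : ℝ) + a ≤ t / 2 →
    tv s t x ≤ t / (4 * a ^ 2) + √(Fintype.card G) * ρ ^ m0 / 2

/-- **LO** (60 min; hypotheses BIN, LZ, MP): lower bound. Let `S` be the set of the `y` with
`M^m x y ≠ 0` for some `m ≤ m1`: at most `Σ_(m ≤ m1) (2d)^m ≤ 2 (2d)^m1` elements. `LP^t x (S) =
Σ_y∈S LP^t x y ≥ Σ_(m ≤ m1) C(t,m) 2^(-t) ≥ 1 - t/(4a²)` (for `m > m1` one has `a ≤ |m - t/2|`). And
`tv ≥ LP^t x (S) - |S|/|G|` (half of the `ℓ¹` norm of a function `h` of sum zero is at least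
`Σ_(y∈S) h y`). -/
def T_LO : Prop := ∀ (G : Type) [Group G] [Fintype G] (d : ℕ) (s : Fin d → G), 1 ≤ d →
  Simp s → ∀ (t m1 : ℕ) (a : ℝ) (x : G), 0 < a → (t : ℝ) / 2 + a ≤ m1 →
    1 - t / (4 * a ^ 2) - 2 * (2 * (d : ℝ)) ^ m1 / Fintype.card G ≤ tv s t x

/-- **MON** (30 min; hypotheses LZ, MP): `tv` is nonincreasing in `t`. `LP = (1/2)(1 + M)` has
nonnegative entries, rows and columns of sum `1`, and `LP^(t+1) x y - 1/|G| =
Σ_z (LP^t x z - 1/|G|) LP z y`; triangle inequality. -/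
def T_MON : Prop := ∀ (G : Type) [Group G] [Fintype G] (d : ℕ) (s : Fin d → G), 1 ≤ d →
  Simp s → ∀ (t t' : ℕ) (x : G), t ≤ t' → tv s t' x ≤ tv s t x

/-- **CON** (45 min; hypothesis MP): connectedness. If `cay s` is not connected let `H` be the set
of the vertices reachable from `1`, a set which is invariant under right multiplication by
`s i`, `(s i)⁻¹`, and neither empty nor everything (if every vertex were reachable from `1` the
graph would be connected); `f = 1_H - |H|/|G|` has sum zero, `M f = f`, `f ≠ 0`: contradiction to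
`Nrm s ρ`, `ρ < 1`. -/
def T_CON : Prop := ∀ (G : Type) [Group G] [Fintype G] (d : ℕ) (s : Fin d → G) (ρ : ℝ), 1 ≤ d →
  0 ≤ ρ → ρ < 1 → Nrm s ρ → (cay s).Connected

/-- **NL** (20 min): `NormLe` of RCG (finite sums written with `finsum`) gives `Nrm`. -/
def T_NL : Prop := ∀ (G : Type) [Group G] [Fintype G] (d : ℕ) (s : Fin d → G) (B : ℝ), 1 ≤ d →
  NormLe s B → Nrm s (B / (2 * d))

/-! ### counting -/

/-- **CNT** (45 min): the tuples which are not simple. `s i = 1` implies `(s i)² = 1`. So a tuple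
which is not simple has some `i` with `(s i)² = 1` (at most `d I |G|^(d-1)` tuples) or some
`i ≠ j` with `s i = s j` or `s i = (s j)⁻¹` (at most `2 d² |G|^(d-1)` tuples). -/
def T_CNT : Prop := ∀ (G : Type) [Group G] [Fintype G] (d : ℕ),
  (Nat.card {s : Fin d → G // ¬ Simp s} : ℝ) * Fintype.card G ≤
    (d * (Nat.card {x : G // x * x = 1} : ℝ) + 2 * d ^ 2) * (Fintype.card G : ℝ) ^ d

/-- **INV** (45 min): involutions of `PSL (2, p)`. If the class of `A` has square `1` then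
`A² = ±1`; `A² = 1` gives `A = ±1` (`p` odd, `det A = 1`: Cayley–Hamilton `A² = (tr A) A - 1`, so
`A² = 1` implies `(tr A) A = 2`, `A` scalar), `A² = -1` gives `(tr A) A = 0`, `tr A = 0`; so
`A = [a, b; c, -a]` with `-a² - b c = 1`: at most `p² + p` matrices (`c ≠ 0`: `b` is determined;
`c = 0`: `a² = -1`, at most `2 p` matrices; together at most `p (p-1) + 2 p`). So there are at most
`p² + p + 2 ≤ 2 p²` elements (`p ≥ 5`). -/
def T_INV : Prop := ∀ (p : ℕ), p.Prime → 5 ≤ p →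
  Nat.card {x : PSL p // x * x = 1} ≤ 2 * p ^ 2

/-! ### assembly -/

/-- **TM** (75 min; hypotheses UP, LO, MON): mixing times. `N = |G|`, `k = 2 d`,
`T1 = 2 log N / log k`, `T2 = log N / log (1/ρ)`; `1/√k ≤ ρ < 1` gives `T1 ≤ T2`.
Upper bound: `t = ⌈(1 + η/2) T2⌉₊`, `m0 = ⌊(1 + η/4) T2 / 2⌋₊`, `a = η T2/8`: `m0 + a ≤ t/2`, and
`t/(4a²) ≤ C/(η² T2)`, `√N ρ^m0 ≤ √N ρ^((1+η/4) T2/2 - 1) = N^(-η/8)/ρ ≤ N^(-η/8) √k`; as
`log k ≤ 2 log N / R`, `√k ≤ N^(1/R)`; so for large `R` all is `≤ η ≤ ε`, for all `x`; and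
`t ≤ (1 + η/2) T2 + 1 ≤ (1 + η) T2`. So `tm s ε ≤ (1 + η) T2` (`Nat.sInf_le`).
Lower bound: `t = ⌊(1 - η/2) T1⌋₊`, `m1 = ⌈(1 - η/4) T1/2⌉₊`, `a = η T1/8`: `t/2 + a ≤ m1`;
`k^m1 ≤ k N^(1-η/4)`, so `tv > 1 - η ≥ ε` for large `R` (`k ≤ N^(2/R)`, `N` large because
`log N ≥ R (log k)/2 ≥ R/4`); by MON `tv s t' x > ε` for all `t' ≤ t`, and the set in
the definition of `tm` is nonempty (upper bound), so `tm s ε ≥ t + 1 ≥ (1 - η) T1`. -/
def T_TM : Prop := ∀ η : ℝ, 0 < η → η < 1 → ∃ R : ℝ, ∀ (G : Type) [Group G] [Fintype G]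
  (d : ℕ) (s : Fin d → G) (ρ : ℝ), 1 ≤ d → Simp s → 1 / √(2 * (d : ℝ)) ≤ ρ → ρ < 1 → Nrm s ρ →
  R ≤ 2 * Real.log (Fintype.card G) / Real.log (2 * d) → ∀ ε : ℝ, η ≤ ε → ε ≤ 1 - η →
    (1 - η) * (2 * Real.log (Fintype.card G) / Real.log (2 * d)) ≤ (tm s ε : ℝ) ∧
    (tm s ε : ℝ) ≤ (1 + η) * (Real.log (Fintype.card G) / Real.log (1 / ρ))

/-- **FIN** (60 min; hypotheses TM, CNT, INV, NL, CON, LZ): the final theorem for one pair `p, d`.
`G = PSL (2, p)`, `ρ = B/(2d)`, `1/√(2d) ≤ ρ < 1`. `|G| = p (p²-1)/2 ≥ p³/4`, so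
`2 log |G|/log (2d) ≥ 2 log p/log (2d) ≥ 2 R'`. The tuples with `NormLe s B` and `Simp s` are good:
`Nice` by LZ, CON, NL, the mixing times by TM. The tuples which are not simple are at most
`(d 2 p² + 2 d²)/|G| |G|^d ≤ (8 d/p + 8 d²/p³) |G|^d` by CNT, INV. -/
def T_FIN : Prop := ∀ η : ℝ, 0 < η → η < 1 → ∃ R P : ℝ, 0 < R ∧ ∀ (p d : ℕ) (B b : ℝ), p.Prime →
  P ≤ p → 2 ≤ d → R * Real.log (2 * d) ≤ Real.log p → √(2 * (d : ℝ)) ≤ B → B < 2 * d →
  (1 - b) * (Nat.card (PSL p) : ℝ) ^ d ≤ (Nat.card {s : Fin d → PSL p // NormLe s B} : ℝ) →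
    (1 - b - 16 * (d : ℝ) ^ 2 / p) * (Nat.card (PSL p) : ℝ) ^ d ≤
      (Nat.card {s : Fin d → PSL p // NormLe s B ∧ ∃ _ : Fintype (PSL p), Nice s ∧
        ∀ ε : ℝ, η ≤ ε → ε ≤ 1 - η →
          (1 - η) * (2 * Real.log (Nat.card (PSL p)) / Real.log (2 * d)) ≤ (tm s ε : ℝ) ∧
          (tm s ε : ℝ) ≤ (1 + η) *
            (Real.log (Nat.card (PSL p)) / Real.log (2 * d / B))} : ℝ)

end Pool.Agent.ACO
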